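import Pool.Agent.Helper35.KL.Di.Ne7

/-!
# Finite dihedral groups: P1-P15 for all positive weights
-/

namespace Pool.Agent.Helper35.KL

theorem exists_nat_L {M : CoxeterMatrix Bool} {L : M.Group → ℤ} (hL : IsWeight M L) (r : Bool) :
    ∃ n : ℕ, L (sm M r) = n :=
  ⟨(L (sm M r)).toNat, (Int.toNat_of_nonneg (hL.pos r).le).symm⟩

/-- Finite dihedral groups satisfy P1-P15 for all positive weight functions. -/
theorem allL_dihedral (M : CoxeterMatrix Bool) (hm : M false true ≠ 0) : AllL M := by
  intro L hL H _ _ D
  suffices hc : D.Core from ⟨hc.bdd, hc.lus hL⟩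
  obtain ⟨α, ha⟩ := exists_nat_L hL true
  obtain ⟨β, hb⟩ := exists_nat_L hL false
  rcases lt_trichotomy α β with h | h | h
  · have hs : L (sm M (!false)) < L (sm M false) := by
      change L (sm M true) < L (sm M false)
      rw [ha, hb]
      exact_mod_cast h
    obtain ⟨K, hK⟩ := even_of_ne hm hL hs
    exact core_ne hK hL D hs hb ha
  · refine core_eq hm hL D (α := α) fun r => ?_
    cases r
    · rw [hb, h]
    · exact ha
  · have hs : L (sm M (!true)) < L (sm M true) := by
      change L (sm M false) < L (sm M true)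
      rw [ha, hb]
      exact_mod_cast h
    obtain ⟨K, hK⟩ := even_of_ne hm hL hs
    exact core_ne hK hL D hs ha hb

end Pool.Agent.Helper35.KL
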