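import Pool.Agent.Helper35.KL.Di.W0

/-!
# The trace, and criteria for the core properties
-/

namespace Pool.Agent.Helper35.KL

namespace KLD

variable {B : Type} {M : CoxeterMatrix B} {L : M.Group → ℤ} {H : Type} [Ring H] [Algebra LP H]
variable (D : KLD M L H)

open scoped Classical in
theorem tau_T_inv (x y : M.Group) :
    D.T.repr (D.T x⁻¹ * D.T y) 1 = if x = y then 1 else 0 := by
  induction x using len_induction generalizing y with
  | h1 =>
    rw [inv_one, D.T_one, one_mul, Module.Basis.repr_self, Finsupp.single_apply]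
    simp only [eq_comm]
  | hs b w hl ih =>
    have h1 : len M (w⁻¹ * sm M b) = len M w⁻¹ + 1 := by
      rw [len_mul_sm, inv_inv, hl, len_inv]
    rw [mul_inv_rev, sm_inv, ← D.T_mul_sm h1, mul_assoc]
    rcases len_sm_mul (M := M) b y with h | h
    · rw [D.T_sm_mul h, ih]
      congr 1
      apply propext
      constructor
      · intro h2
        rw [h2, sm_cancel]
      · intro h2
        rw [← h2, sm_cancel]
    · rw [D.T_sm_mul' h, mul_add, mul_smul_comm, map_add, map_smul, Finsupp.add_apply,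
        Finsupp.smul_apply, ih, ih, if_neg (c := w = y), smul_zero, add_zero]
      · congr 1
        apply propext
        constructor
        · intro h2
          rw [h2, sm_cancel]
        · intro h2
          rw [← h2, sm_cancel]
      · rintro rfl
        omega

theorem tau_mul (u : M.Group) (x : H) : D.T.repr (D.T u * x) 1 = D.T.repr x u⁻¹ := by
  classical
  have h1 : D.T.repr (D.T u * x) 1 = D.T.repr x u⁻¹ := by
    have h3 : x ∈ Submodule.span LP (Set.range D.T) := D.T.mem_span x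
    refine Submodule.span_induction (p := fun x _ => D.T.repr (D.T u * x) 1 =
      D.T.repr x u⁻¹) ?_ ?_ ?_ ?_ h3
    · rintro _ ⟨z, rfl⟩
      have h4 := D.tau_T_inv u⁻¹ z
      rw [inv_inv] at h4
      rw [h4, Module.Basis.repr_self, Finsupp.single_apply]
      simp only [eq_comm]
    · simp
    · intro a c _ _ ha hc
      rw [mul_add, map_add, map_add, Finsupp.add_apply, Finsupp.add_apply, ha, hc]
    · intro a c _ hc
      rw [mul_smul_comm, map_smul, map_smul, Finsupp.smul_apply, Finsupp.smul_apply, hc]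
  exact h1

theorem tau_CC (x y : M.Group) : D.T.repr (D.C x * D.C y) 1 =
    ∑ u ∈ (D.T.repr (D.C x)).support, D.p u x * D.p u⁻¹ y := by
  conv_lhs =>
    enter [1, 2, 1]
    rw [← D.T.linearCombination_repr (D.C x)]
  rw [Finsupp.linearCombination_apply, Finsupp.sum, Finset.sum_mul, map_sum,
    Finsupp.finsetSum_apply]
  refine Finset.sum_congr rfl fun u _ => ?_
  rw [smul_mul_assoc, map_smul, Finsupp.smul_apply, tau_mul, smul_eq_mul]
  rfl

open scoped Classical in
theorem tau_coeff (x y : M.Group) : (D.T.repr (D.C x * D.C y) 1).coeff 0 =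
    if x = y⁻¹ then 1 else 0 := by
  rw [tau_CC, cf_sum]
  have h1 : ∀ u, (D.p u x * D.p u⁻¹ y).coeff 0 = (if u = x then 1 else 0) *
      (if u⁻¹ = y then 1 else 0) := by
    intro u
    have h2 := cf_mul_lead (D.p_dle u x) (D.p_dle u⁻¹ y)
    rw [add_zero, p_coeff, p_coeff] at h2
    exact h2
  rw [Finset.sum_congr rfl fun u _ => h1 u]
  rw [Finset.sum_eq_single x]
  · rw [if_pos rfl, one_mul]
    congr 1
    apply propext
    constructor
    · intro h
      rw [← h, inv_inv]
    · intro h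
      rw [h, inv_inv]
  · intro u _ hu
    rw [if_neg hu, zero_mul]
  · intro h
    exfalso
    rw [Finsupp.notMem_support_iff] at h
    have h3 := D.p_self x
    rw [KLD.p, h] at h3
    exact zero_ne_one h3

variable {D}

open scoped Classical in
/-- The trace formula for the leading coefficients. -/
theorem tau_sum (hb : D.Bounded) (hP : ∀ z, Dle (-D.a z) (D.p 1 z)) (x y : M.Group) :
    ∑ z ∈ (D.C.repr (D.C x * D.C y)).support, (D.h x y z).coeff (D.a z) * D.nn z =
      if x = y⁻¹ then 1 else 0 := by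
  have h0 : D.T.repr (D.C x * D.C y) 1 =
      ∑ z ∈ (D.C.repr (D.C x * D.C y)).support, D.h x y z * D.p 1 z := by
    have h3 : D.C x * D.C y = ∑ z ∈ (D.C.repr (D.C x * D.C y)).support,
        D.C.repr (D.C x * D.C y) z • D.C z := by
      conv_lhs => rw [← D.C.linearCombination_repr (D.C x * D.C y)]
      rw [Finsupp.linearCombination_apply, Finsupp.sum]
    have h4 := congrArg (fun v => D.T.repr v 1) h3
    simp only [map_sum, Finsupp.finsetSum_apply, map_smul, Finsupp.smul_apply,
      smul_eq_mul] at h4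
    exact h4
  rw [← D.tau_coeff, h0, cf_sum]
  refine Finset.sum_congr rfl fun z _ => ?_
  have h := cf_mul_lead (h_dle hb x y z) (hP z)
  rw [add_neg_cancel] at h
  exact h.symm

/-- If at most one summand of the trace formula is nonzero. -/
theorem tau_one (hb : D.Bounded) (hP : ∀ z, Dle (-D.a z) (D.p 1 z))
    (hu : ∀ x y z z', D.nn z ≠ 0 → D.nn z' ≠ 0 → D.g x y z ≠ 0 → D.g x y z' ≠ 0 → z = z')
    (hi : ∀ z, D.nn z ≠ 0 → z⁻¹ = z) {x y z : M.Group} (hz : D.nn z ≠ 0)
    (hg : D.g x y z ≠ 0) : x = y⁻¹ ∧ D.g x y z * D.nn z = 1 := by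
  classical
  have h1 := tau_sum hb hP x y
  have hzi := hi z hz
  have hg' : (D.h x y z).coeff (D.a z) = D.g x y z := by rw [KLD.g, hzi]
  rw [Finset.sum_eq_single z] at h1
  · rw [hg'] at h1
    have h2 : D.g x y z * D.nn z ≠ 0 := mul_ne_zero hg hz
    split_ifs at h1 with h3
    · exact ⟨h3, h1⟩
    · exact absurd h1 h2
  · intro z' _ hne
    by_contra h2
    have h3 : D.nn z' ≠ 0 := right_ne_zero_of_mul h2
    have h4 : D.g x y z' ≠ 0 := by
      rw [KLD.g, hi z' h3]
      exact left_ne_zero_of_mul h2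
    exact hne (hu x y z' z h3 hz h4 hg)
  · intro h
    exfalso
    rw [Finsupp.notMem_support_iff] at h
    apply hg
    rw [← hg', KLD.h, h, cf_zero]

theorem tau_P3 (hb : D.Bounded) (hP : ∀ z, Dle (-D.a z) (D.p 1 z))
    (hu : ∀ x y z z', D.nn z ≠ 0 → D.nn z' ≠ 0 → D.g x y z ≠ 0 → D.g x y z' ≠ 0 → z = z')
    (hi : ∀ z, D.nn z ≠ 0 → z⁻¹ = z) (y : M.Group) :
    ∃ z, D.nn z ≠ 0 ∧ D.g y⁻¹ y z = D.nn z ∧ (D.nn z = 1 ∨ D.nn z = -1) ∧
      ∀ z', D.nn z' ≠ 0 → D.g y⁻¹ y z' ≠ 0 → z' = z := by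
  classical
  have h1 := tau_sum hb hP y⁻¹ y
  rw [if_pos rfl] at h1
  obtain ⟨z, -, hz⟩ := Finset.exists_ne_zero_of_sum_ne_zero (by rw [h1]; exact one_ne_zero)
  have h3 : D.nn z ≠ 0 := right_ne_zero_of_mul hz
  have h4 : D.g y⁻¹ y z ≠ 0 := by
    rw [KLD.g, hi z h3]
    exact left_ne_zero_of_mul hz
  have h5 := (tau_one hb hP hu hi h3 h4).2
  refine ⟨z, h3, ?_, ?_, fun z' h6 h7 => hu y⁻¹ y z' z h6 h3 h7 h4⟩
  · rcases Int.eq_one_or_neg_one_of_mul_eq_one' h5 with h | h
    · rw [h.1, h.2]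
    · rw [h.1, h.2]
  · rcases Int.eq_one_or_neg_one_of_mul_eq_one' h5 with h | h
    · exact Or.inl h.2
    · exact Or.inr h.2

variable (D)

/-- The property `LL` if all products vanish. -/
theorem LL_zero {k : ℕ} {y : M.Group} (S : M.Group → Prop)
    (hS : ∀ z, S z → D.a z = k → D.BB k z y = 0)
    (hcl : ∀ w x z, S x → D.h w x z ≠ 0 → D.a z = k → S z) {x : M.Group} (hx : D.a x = k)
    (hxS : S x) (m : ℤ) (w : M.Group) :
    D.Lk k m w (D.bul k (Finsupp.single x 1) (Finsupp.single y 1)) =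
      D.bul k (D.Lk k m w (Finsupp.single x 1)) (Finsupp.single y 1) := by
  refine D.LL_of_bt (fun w z _ => ?_) m w
  rw [hS x hxS hx, mul_zero]
  conv_rhs =>
    enter [1, 2, 2]
    rw [← D.C.linearCombination_repr (D.C w * D.C x)]
  rw [Finsupp.linearCombination_apply, Finsupp.sum, map_sum, map_sum]
  have h1 : ∀ c ∈ (D.C.repr (D.C w * D.C x)).support,
      D.C.repr (D.bt k y (D.C.repr (D.C w * D.C x) c • D.C c)) = 0 := by
    intro c hc
    rw [map_smul, map_smul]
    by_cases hck : D.a c = k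
    · rw [D.bt_C hck, hS c (hcl w x c hxS (Finsupp.mem_support_iff.1 hc) hck) hck, map_zero,
        smul_zero]
    · rw [D.bt_C_ne hck, map_zero, smul_zero]
  rw [Finset.sum_eq_zero h1, map_zero]

/-- Cancelling the scalar `t`. -/
theorem bt_cancel {k : ℕ} {y : M.Group} (S : M.Group → Prop) (I : Submodule LP H) (t : LP)
    (hI : ∀ w, ∀ v ∈ I, D.C w * v ∈ I) (hIr : ∀ v ∈ I, v * D.C y ∈ I)
    (hIk : ∀ v ∈ I, ∀ z, D.a z = k → D.C.repr v z = 0)
    (hsat : ∀ v, t • v ∈ I → v ∈ I)
    (hS : ∀ z, S z → D.a z = k → D.C z * D.C y - t • D.BB k z y ∈ I)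
    (hcl : ∀ w x z, S x → D.a x = k → D.h w x z ≠ 0 → (S z ∧ D.a z = k) ∨ D.C z ∈ I)
    {x : M.Group} (hx : D.a x = k) (hxS : S x) (w z : M.Group) (hz : D.a z = k) :
    D.C.repr (D.C w * D.BB k x y) z = D.C.repr (D.bt k y (D.C w * D.C x)) z := by
  have key : D.C w * D.BB k x y - D.bt k y (D.C w * D.C x) ∈ I := by
    apply hsat
    have h1 : D.C w * (D.C x * D.C y - t • D.BB k x y) ∈ I := hI w _ (hS x hxS hx)
    have h2 : D.C w * D.C x * D.C y - t • D.bt k y (D.C w * D.C x) ∈ I := by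
      have h3 : D.C w * D.C x = ∑ c ∈ (D.C.repr (D.C w * D.C x)).support,
          D.C.repr (D.C w * D.C x) c • D.C c := by
        conv_lhs => rw [← D.C.linearCombination_repr (D.C w * D.C x)]
        rw [Finsupp.linearCombination_apply, Finsupp.sum]
      have h4 : D.C w * D.C x * D.C y - t • D.bt k y (D.C w * D.C x) =
          ∑ c ∈ (D.C.repr (D.C w * D.C x)).support,
            D.C.repr (D.C w * D.C x) c • (D.C c * D.C y - t • D.bt k y (D.C c)) := by
        conv_lhs =>
          enter [1, 1]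
          rw [h3]
        conv_lhs =>
          enter [2, 2, 2]
          rw [h3]
        rw [Finset.sum_mul, map_sum, Finset.smul_sum, ← Finset.sum_sub_distrib]
        refine Finset.sum_congr rfl fun c _ => ?_
        rw [smul_mul_assoc, map_smul, smul_sub, smul_comm t]
      rw [h4]
      refine Submodule.sum_mem _ fun c hc => Submodule.smul_mem _ _ ?_
      rcases hcl w x c hxS hx (Finsupp.mem_support_iff.1 hc) with h | h
      · rw [D.bt_C h.2]
        exact hS c h.1 h.2
      · have h5 : D.a c ≠ k := by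
          intro h6
          have h7 := hIk _ h c h6
          rw [Module.Basis.repr_self, Finsupp.single_eq_same] at h7
          exact one_ne_zero h7
        rw [D.bt_C_ne h5, smul_zero, sub_zero]
        exact hIr _ h
    have h3 : t • (D.C w * D.BB k x y - D.bt k y (D.C w * D.C x)) =
        (D.C w * D.C x * D.C y - t • D.bt k y (D.C w * D.C x)) -
          D.C w * (D.C x * D.C y - t • D.BB k x y) := by
      rw [mul_sub, mul_smul_comm, smul_sub, mul_assoc]
      abel
    rw [h3]
    exact Submodule.sub_mem _ h2 h1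
  have h5 := hIk _ key z hz
  rw [map_sub, Finsupp.sub_apply, sub_eq_zero] at h5
  exact h5

/-- The property `LL` by cancelling the scalar `t`. -/
theorem LL_cancel {k : ℕ} {y : M.Group} (S : M.Group → Prop) (I : Submodule LP H) (t : LP)
    (hI : ∀ w, ∀ v ∈ I, D.C w * v ∈ I) (hIr : ∀ v ∈ I, v * D.C y ∈ I)
    (hIk : ∀ v ∈ I, ∀ z, D.a z = k → D.C.repr v z = 0)
    (hsat : ∀ v, t • v ∈ I → v ∈ I)
    (hS : ∀ z, S z → D.a z = k → D.C z * D.C y - t • D.BB k z y ∈ I)
    (hcl : ∀ w x z, S x → D.a x = k → D.h w x z ≠ 0 → (S z ∧ D.a z = k) ∨ D.C z ∈ I)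
    {x : M.Group} (hx : D.a x = k) (hxS : S x) (m : ℤ) (w : M.Group) :
    D.Lk k m w (D.bul k (Finsupp.single x 1) (Finsupp.single y 1)) =
      D.bul k (D.Lk k m w (Finsupp.single x 1)) (Finsupp.single y 1) :=
  D.LL_of_bt (fun w z hz => D.bt_cancel S I t hI hIr hIk hsat hS hcl hx hxS w z hz) m w

end KLD

end Pool.Agent.Helper35.KL
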