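import Pool.Agent.Helper35.KL.Di.T
import Pool.Agent.Helper35.KL.Tf

/-!
# Tools for the property `LL`
-/

namespace Pool.Agent.Helper35.KL

namespace KLD

variable {B : Type} {M : CoxeterMatrix B} {L : M.Group → ℤ} {H : Type} [Ring H] [Algebra LP H]
variable (D : KLD M L H)

theorem Lk_spt' (k : ℕ) (m : ℤ) (w : M.Group) (t : D.JJ) {z : M.Group}
    (hz : D.a z ≠ k) : D.Lk k m w t z = 0 := by
  rw [Lk_sum]
  refine Finset.sum_eq_zero fun c _ => ?_
  rw [tk_apply, if_neg hz, mul_zero]

theorem up_mul' (m : ℤ) (k : ℕ) (w : M.Group) (t : D.JJ) {z : M.Group}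
    (hz : D.a z = k) : (D.C.repr (D.C w * D.up t) z).coeff m = D.Lk k m w t z := by
  rw [KLD.Core.Lk_apply k m w t hz, KLD.up_eq, Finset.mul_sum, map_sum,
    Finsupp.finsetSum_apply, cf_sum]
  refine Finset.sum_congr rfl fun c _ => ?_
  rw [mul_smul_comm, map_zsmul, Finsupp.smul_apply, cf_zsmul]
  rfl

open scoped Classical in
/-- The linear map of right multiplication in the asymptotic ring. -/
noncomputable def bt (k : ℕ) (y : M.Group) : H →ₗ[LP] H :=
  D.C.constr LP fun w => if D.a w = k then D.BB k w y else 0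

theorem bt_C {k : ℕ} {y w : M.Group} (h : D.a w = k) : D.bt k y (D.C w) = D.BB k w y := by
  rw [bt, Module.Basis.constr_basis, if_pos h]

theorem bt_C_ne {k : ℕ} {y w : M.Group} (h : D.a w ≠ k) : D.bt k y (D.C w) = 0 := by
  rw [bt, Module.Basis.constr_basis, if_neg h]

theorem bt_repr (m : ℤ) (k : ℕ) (y : M.Group) (s : H) (z : M.Group) :
    (D.C.repr (D.bt k y s) z).coeff m =
      D.bul k (D.tk k m s) (Finsupp.single y 1) z := by
  classical
  rw [bul_sum]
  have h1 : D.bt k y s = ∑ c ∈ (D.C.repr s).support, D.C.repr s c • D.bt k y (D.C c) := by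
    conv_lhs => rw [← D.C.linearCombination_repr s]
    rw [Finsupp.linearCombination_apply, Finsupp.sum, map_sum]
    exact Finset.sum_congr rfl fun c _ => map_smul _ _ _
  rw [h1, map_sum, Finsupp.finsetSum_apply, cf_sum]
  have h3 : (D.tk k m s).support ⊆ (D.C.repr s).support := Finsupp.support_onFinset_subset
  rw [Finset.sum_subset h3]
  · refine Finset.sum_congr rfl fun c _ => ?_
    rw [map_smul, Finsupp.smul_apply, smul_eq_mul]
    by_cases hc : D.a c = k
    · rw [D.bt_C hc, KLD.repr_BB, mul_smul_comm, mul_one, cf_zsmul, D.tk_apply k m s,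
        if_pos hc, mul_comm]
    · rw [D.bt_C_ne hc, map_zero, Finsupp.zero_apply, mul_zero, cf_zero, D.tk_apply k m s,
        if_neg hc, zero_mul]
  · intro c _ hc
    rw [Finsupp.notMem_support_iff.1 hc, zero_mul]

/-- The property `LL` in terms of elements of the Hecke algebra. -/
theorem LL_of_bt {k : ℕ} {x y : M.Group}
    (h : ∀ w z, D.a z = k → D.C.repr (D.C w * D.BB k x y) z =
      D.C.repr (D.bt k y (D.C w * D.C x)) z) (m : ℤ) (w : M.Group) :
    D.Lk k m w (D.bul k (Finsupp.single x 1) (Finsupp.single y 1)) =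
      D.bul k (D.Lk k m w (Finsupp.single x 1)) (Finsupp.single y 1) := by
  classical
  ext z
  by_cases hz : D.a z = k
  · have h4 : (D.C.repr (D.C w * D.BB k x y) z).coeff m =
        (D.C.repr (D.bt k y (D.C w * D.C x)) z).coeff m := by rw [h w z hz]
    rw [KLD.BB_eq, D.up_mul' m k w _ hz, bt_repr] at h4
    rw [h4, KLD.Lk_single]
  · rw [D.Lk_spt' k m w _ hz, bul_sum]
    refine (Finset.sum_eq_zero fun c _ => ?_).symm
    rw [KLD.tk_apply, if_neg hz, mul_zero]

/-- The property `LL` if there is only one element. -/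
theorem LL_single {k : ℕ} {x y : M.Group} (hx : D.a x = k) (h : ∀ z, D.a z = k → z = x) (m : ℤ)
    (w : M.Group) :
    D.Lk k m w (D.bul k (Finsupp.single x 1) (Finsupp.single y 1)) =
      D.bul k (D.Lk k m w (Finsupp.single x 1)) (Finsupp.single y 1) := by
  classical
  ext z
  by_cases hz : D.a z = k
  · rw [h z hz, Lk_sum, bul_sum]
    have h2 : ∀ t : D.JJ, (∀ c, D.a c ≠ k → t c = 0) → ∀ f : M.Group → ℤ,
        ∑ c ∈ t.support, t c * f c = t x * f x := by
      intro t ht f
      refine Finset.sum_eq_single x ?_ ?_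
      · intro c _ hc
        rw [ht c (fun h' => hc (h c h')), zero_mul]
      · intro h'
        rw [Finsupp.notMem_support_iff.1 h', zero_mul]
    rw [h2 _ (fun c hc => by rw [KLD.bul_single, KLD.tk_apply, if_neg hc]),
      h2 _ (fun c hc => D.Lk_spt' k m w _ hc), KLD.bul_single, KLD.Lk_single, mul_comm]
  · rw [D.Lk_spt' k m w _ hz, bul_sum]
    refine (Finset.sum_eq_zero fun c _ => ?_).symm
    rw [KLD.tk_apply, if_neg hz, mul_zero]

/-- If all elements with `a = k` are reached by cancellation. -/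
theorem BB_of_scalar {k : ℕ} {x y : M.Group} {t : LP} {v : D.JJ}
    (hv : ∀ z, v z ≠ 0 → D.a z = k) (ht : t.coeff k = 1)
    (h : ∀ z, D.a z = k → D.h x y z = v z • t) : D.BB k x y = D.up v := by
  refine D.BB_ext k fun z => ?_
  rw [repr_up, tk_apply]
  split_ifs with hz
  · have h1 := h z hz
    rw [KLD.h] at h1
    rw [h1, cf_zsmul, ht, mul_one]
  · have h1 : v z = 0 := by
      by_contra hne
      exact hz (hv z hne)
    rw [h1]

end KLD

end Pool.Agent.Helper35.KL
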