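import Pool.Agent.Helper35.KL.Di.Gen

/-!
# Finite dihedral groups with equal weights
-/

namespace Pool.Agent.Helper35.KL

section eq

variable {M : CoxeterMatrix Bool} (hm : M false true ≠ 0) {L : M.Group → ℤ} (hL : IsWeight M L)
variable {H : Type} [Ring H] [Algebra LP H] (D : KLD M L H)
variable {α : ℕ} (he : ∀ r, L (sm M r) = α)

include hm hL he in
/-- The recursion for equal weights. -/
theorem eq_rec {r : Bool} {k : ℕ} (hk : k + 2 ≤ M false true) :
    D.C (sm M r) * D.C (wd M (!r) (k + 1)) = D.C (wd M r (k + 2)) + CE D r k := by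
  classical
  have hdv : len M (sm M (!r) * wd M (!r) (k + 1)) + 1 = len M (wd M (!r) (k + 1)) :=
    len_down hm (by omega)
  have h0 : D.C (sm M r) * D.C (wd M (!r) (k + 1)) - (D.C (wd M r (k + 2)) + CE D r k) = 0 := by
    refine D.eq_zero_of_eigen hL (b := r) ?_ ?_ ?_
    · rw [mul_sub, mul_add, D.eigen_C_sm hL, D.T_mul_C hL (len_down hm (by omega)),
        T_CE hm hL D (by omega), smul_sub, smul_add]
    · rw [map_sub, map_mul, map_add, D.bar_C, D.bar_C, D.bar_C, bar_CE]
    · intro y hy
      obtain ⟨n, hn, rfl⟩ := down_wd hm hy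
      have h1 : D.T.repr (D.C (sm M r) * D.C (wd M (!r) (k + 1)) -
          (D.C (wd M r (k + 2)) + CE D r k)) (wd M r (n + 1)) =
          (D.p (wd M (!r) n) (wd M (!r) (k + 1)) +
            qq (L (sm M r)) * D.p (wd M r (n + 1)) (wd M (!r) (k + 1))) -
          (D.p (wd M r (n + 1)) (wd M r (k + 2)) + D.T.repr (CE D r k) (wd M r (n + 1))) := by
        rw [map_sub, map_add, Finsupp.sub_apply, Finsupp.add_apply, repr_rec hm hL D _ hn]
        rfl
      rw [h1]
      have h2 : Dle 0 (qq (L (sm M r)) * D.p (wd M r (n + 1)) (wd M (!r) (k + 1))) ∧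
          (qq (L (sm M r)) * D.p (wd M r (n + 1)) (wd M (!r) (k + 1))).coeff 0 =
            if n + 2 = k + 1 then 1 else 0 := by
        by_cases hn2 : n + 2 ≤ M false true
        · rw [p_other hm hL D hn2 hdv, ← mul_assoc, he, he, KLD.qq_mul_neg, one_mul]
          exact ⟨D.p_dle _ _, coeff_p hm D (by omega) hn2⟩
        · rw [D.p_zero, mul_zero, if_neg (by omega)]
          · exact ⟨Dle.zero _, rfl⟩
          · rw [len_wd hm hn, len_wd hm (by omega)]
            omega
          · intro h3
            have h4 := congrArg (len M) h3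
            rw [len_wd hm hn, len_wd hm (by omega)] at h4
            omega
      refine Dle.of_lead (((D.p_dle _ _).add h2.1).sub ((D.p_dle _ _).add (dle_CE D _ _ _))) ?_
      rw [cf_sub, cf_add, cf_add, h2.2, coeff_p hm D (by omega) (by omega),
        coeff_p hm D (by omega) hn, coeff_CE hm D (by omega) hn]
      split_ifs <;> omega
  rwa [sub_eq_zero] at h0

/-- Integral combinations of elements that start with `r`, up to the ideal of the longest
element. -/
def Zr (r : Bool) : AddSubgroup H where
  carrier := {x | ∀ z, z ≠ w0 M → ∃ n : ℤ, D.C.repr x z = n • (1 : LP) ∧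
    (n ≠ 0 → len M (sm M r * z) + 1 = len M z)}
  add_mem' := by
    intro x y hx hy z hz
    obtain ⟨n, h1, h2⟩ := hx z hz
    obtain ⟨n', h3, h4⟩ := hy z hz
    refine ⟨n + n', ?_, ?_⟩
    · rw [map_add, Finsupp.add_apply, h1, h3, add_smul]
    · intro h
      by_cases hn : n = 0
      · exact h4 (by omega)
      · exact h2 hn
  zero_mem' := by
    intro z _
    exact ⟨0, by simp, fun h => absurd rfl h⟩
  neg_mem' := by
    intro x hx z hz
    obtain ⟨n, h1, h2⟩ := hx z hz
    refine ⟨-n, ?_, fun h => h2 (by omega)⟩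
    rw [map_neg, Finsupp.neg_apply, h1, neg_smul]

variable {D}

theorem It_le_Zr {r : Bool} {x : H} (hx : x ∈ It D) : x ∈ Zr D r := by
  intro z hz
  exact ⟨0, by rw [(mem_It D).1 hx z hz, zero_smul], fun h => absurd rfl h⟩

include hm in
theorem C_mem_Zr {r : Bool} {k : ℕ} (hk : k + 1 ≤ M false true) :
    D.C (wd M r (k + 1)) ∈ Zr D r := by
  classical
  intro z _
  rw [Module.Basis.repr_self, Finsupp.single_apply]
  by_cases h : wd M r (k + 1) = z
  · refine ⟨1, by rw [if_pos h, one_smul], fun _ => ?_⟩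
    rw [← h]
    exact len_down hm hk
  · exact ⟨0, by rw [if_neg h, zero_smul], fun h => absurd rfl h⟩

include hm in
theorem CE_mem_Zr {r : Bool} {k : ℕ} (hk : k ≤ M false true) : CE D r k ∈ Zr D r := by
  cases k with
  | zero =>
    rw [CE_zero]
    exact AddSubgroup.zero_mem _
  | succ k =>
    rw [CE_succ]
    exact C_mem_Zr hm hk

theorem expand (x : H) : x = ∑ z ∈ (D.C.repr x).support, D.C.repr x z • D.C z := by
  conv_lhs => rw [← D.C.linearCombination_repr x]
  rw [Finsupp.linearCombination_apply, Finsupp.sum]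

theorem exists_word {r : Bool} {z : M.Group} (hm : M false true ≠ 0) (hz : z ≠ w0 M)
    (h : len M (sm M r * z) + 1 = len M z) :
    ∃ k, k + 1 < M false true ∧ z = wd M r (k + 1) := by
  obtain ⟨k, hk, rfl⟩ := down_wd hm h
  refine ⟨k, ?_, rfl⟩
  rcases Nat.lt_or_ge (k + 1) (M false true) with h | h
  · exact h
  · exfalso
    apply hz
    rw [w0_eq r, le_antisymm hk h]

include hm hL he in
theorem C_mul_Zr {r : Bool} {x : H} (hx : x ∈ Zr D (!r)) : D.C (sm M r) * x ∈ Zr D r := by
  rw [expand (D := D) x, Finset.mul_sum]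
  refine AddSubgroup.sum_mem _ fun z _ => ?_
  rw [mul_smul_comm]
  by_cases hz : z = w0 M
  · rw [hz]
    exact It_le_Zr (Submodule.smul_mem _ _ (It_mulL hm hL D _ (C_mem_It D)))
  · obtain ⟨n, h1, h2⟩ := hx z hz
    rw [h1, smul_assoc, one_smul]
    by_cases hn : n = 0
    · rw [hn, zero_smul]
      exact AddSubgroup.zero_mem _
    · refine AddSubgroup.zsmul_mem _ ?_ _
      obtain ⟨k, hk, rfl⟩ := exists_word hm hz (h2 hn)
      rw [eq_rec hm hL D he (by omega)]
      exact AddSubgroup.add_mem _ (C_mem_Zr hm (by omega)) (CE_mem_Zr hm (by omega))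

include hm hL he in
theorem C_mul_Zr_same {r : Bool} {x : H} (hx : x ∈ Zr D r) :
    D.C (sm M r) * x - (qq α + qq (-α)) • x ∈ It D := by
  have h0 : D.C (sm M r) * x - (qq α + qq (-α)) • x = ∑ z ∈ (D.C.repr x).support,
      D.C.repr x z • (D.C (sm M r) * D.C z - (qq (α : ℤ) + qq (-α)) • D.C z) := by
    conv_lhs => rw [expand (D := D) x]
    rw [Finset.mul_sum, Finset.smul_sum, ← Finset.sum_sub_distrib]
    refine Finset.sum_congr rfl fun z _ => ?_
    rw [mul_smul_comm, smul_sub, smul_comm (qq (α : ℤ) + qq (-α))]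
  rw [h0]
  refine Submodule.sum_mem _ fun z _ => ?_
  by_cases hz : z = w0 M
  · rw [hz]
    exact Submodule.smul_mem _ _ (Submodule.sub_mem _ (It_mulL hm hL D _ (C_mem_It D))
      (Submodule.smul_mem _ _ (C_mem_It D)))
  · obtain ⟨n, h1, h2⟩ := hx z hz
    by_cases hn : n = 0
    · rw [h1, hn, zero_smul, zero_smul]
      exact Submodule.zero_mem _
    · have h3 := D.C_mul_C hL (h2 hn)
      rw [he] at h3
      rw [h3, sub_self, smul_zero]
      exact Submodule.zero_mem _

include hm hL he in
/-- Products of middle elements with integral combinations. -/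
theorem mid_mul (n : ℕ) : n + 1 < M false true → ∀ r,
    (∀ v ∈ Zr D (nx r n), ∃ u ∈ Zr D r,
      D.C (wd M r (n + 1)) * v - (qq (α : ℤ) + qq (-α)) • u ∈ It D) ∧
    ∀ v ∈ Zr D (!(nx r n)), D.C (wd M r (n + 1)) * v ∈ Zr D r := by
  induction n using Nat.strong_induction_on with
  | h n ih =>
    intro hn r
    match n with
    | 0 =>
      rw [nx_zero, wd_one]
      exact ⟨fun v hv => ⟨v, hv, C_mul_Zr_same hm hL he hv⟩, fun v hv => C_mul_Zr hm hL he hv⟩
    | n + 1 =>
      have h1 : D.C (wd M r (n + 1 + 1)) =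
          D.C (sm M r) * D.C (wd M (!r) (n + 1)) - CE D r n := by
        rw [eq_rec hm hL D he (by omega), add_sub_cancel_right]
      have ih1 := ih n (by omega) (by omega) (!r)
      rw [nx_not, Bool.not_not] at ih1
      rw [nx_succ, Bool.not_not]
      constructor
      · intro v hv
        obtain ⟨u, hu, hu2⟩ := ih1.1 v hv
        obtain ⟨u', hu', hu2'⟩ : ∃ u' ∈ Zr D r,
            CE D r n * v - (qq (α : ℤ) + qq (-α)) • u' ∈ It D := by
          match n with
          | 0 => exact ⟨0, AddSubgroup.zero_mem _, by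
              rw [CE_zero, zero_mul, smul_zero, sub_zero]
              exact Submodule.zero_mem _⟩
          | n + 1 =>
            rw [CE_succ]
            refine (ih n (by omega) (by omega) r).1 v ?_
            rwa [nx_succ, Bool.not_not] at hv
        refine ⟨D.C (sm M r) * u - u', AddSubgroup.sub_mem _ (C_mul_Zr hm hL he hu) hu', ?_⟩
        have h2 : D.C (wd M r (n + 1 + 1)) * v -
            (qq (α : ℤ) + qq (-α)) • (D.C (sm M r) * u - u') =
            D.C (sm M r) * (D.C (wd M (!r) (n + 1)) * v - (qq (α : ℤ) + qq (-α)) • u) -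
              (CE D r n * v - (qq (α : ℤ) + qq (-α)) • u') := by
          rw [h1, sub_mul, mul_sub, mul_smul_comm, smul_sub, mul_assoc]
          abel
        rw [h2]
        exact Submodule.sub_mem _ (It_mulL hm hL D _ hu2) hu2'
      · intro v hv
        rw [h1, sub_mul, mul_assoc]
        refine AddSubgroup.sub_mem _ (C_mul_Zr hm hL he (ih1.2 v hv)) ?_
        match n with
        | 0 =>
          rw [CE_zero, zero_mul]
          exact AddSubgroup.zero_mem _
        | n + 1 =>
          rw [CE_succ]
          refine (ih n (by omega) (by omega) r).2 v ?_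
          rwa [nx_succ] at hv

end eq

end Pool.Agent.Helper35.KL
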