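import Pool.Agent.Helper35.KL.Di.Eq

/-!
# Finite dihedral groups with equal weights: the core properties
-/

namespace Pool.Agent.Helper35.KL

theorem bool_ne {a b : Bool} (h : ¬ a = b) : a = !b := by
  revert a b
  decide

section eq

variable {M : CoxeterMatrix Bool} (hm : M false true ≠ 0) {L : M.Group → ℤ} (hL : IsWeight M L)
variable {H : Type} [Ring H] [Algebra LP H] (D : KLD M L H)
variable {α : ℕ} (he : ∀ r, L (sm M r) = α)

include hL he in
theorem alpha_pos : (0 : ℤ) < α := by
  rw [← he true]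
  exact hL.pos _

include hm hL he in
/-- The structure constants of two middle elements. -/
theorem h_mid {r r' : Bool} {n k : ℕ} (hn : n + 1 < M false true) (hk : k + 1 < M false true)
    {z : M.Group} (hz : z ≠ w0 M) : ∃ c : ℤ,
    (c ≠ 0 → len M (sm M r * z) + 1 = len M z) ∧
    ((nx r n = r' ∧ D.h (wd M r (n + 1)) (wd M r' (k + 1)) z = c • (qq (α : ℤ) + qq (-α))) ∨
      (nx r n = !r' ∧ D.h (wd M r (n + 1)) (wd M r' (k + 1)) z = c • (1 : LP))) := by
  by_cases h : nx r n = r'
  · obtain ⟨u, hu, hu2⟩ := (mid_mul hm hL (D := D) he n hn r).1 (D.C (wd M r' (k + 1))) (by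
      rw [h]
      exact C_mem_Zr hm (by omega))
    obtain ⟨c, h1, h2⟩ := hu z hz
    refine ⟨c, h2, Or.inl ⟨h, ?_⟩⟩
    have h3 := (mem_It D).1 hu2 z hz
    rw [map_sub, Finsupp.sub_apply, map_smul, Finsupp.smul_apply, h1, sub_eq_zero] at h3
    rw [KLD.h, h3, smul_comm, smul_eq_mul, mul_one]
  · have h' : nx r n = !r' := bool_ne h
    obtain ⟨c, h1, h2⟩ := (mid_mul hm hL (D := D) he n hn r).2 (D.C (wd M r' (k + 1))) (by
      rw [h', Bool.not_not]
      exact C_mem_Zr hm (by omega)) z hz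
    exact ⟨c, h2, Or.inr ⟨h', h1⟩⟩

include hm hL he in
theorem h_dle_mid (x y z : M.Group) (hz : z ≠ w0 M) : Dle α (D.h x y z) := by
  classical
  have hα := alpha_pos hL he
  by_cases hx0 : x = w0 M
  · by_cases h : D.h x y z = 0
    · rw [h]
      exact Dle.zero _
    · exact absurd (h_ne_of_w0 hm hL D h (Or.inl hx0)) hz
  by_cases hy0 : y = w0 M
  · by_cases h : D.h x y z = 0
    · rw [h]
      exact Dle.zero _
    · exact absurd (h_ne_of_w0 hm hL D h (Or.inr hy0)) hz
  by_cases hx1 : x = 1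
  · rw [hx1]
    intro k hk
    exact h_one_left D y z k (by omega)
  by_cases hy1 : y = 1
  · rw [hy1]
    intro k hk
    exact h_one_right D x z k (by omega)
  obtain ⟨r, n, hn, rfl⟩ := exists_mid hm hx1 hx0
  obtain ⟨r', k, hk, rfl⟩ := exists_mid hm hy1 hy0
  obtain ⟨c, -, h | h⟩ := h_mid hm hL D he (r := r) (r' := r') hn hk hz
  · rw [h.2]
    exact (tw_dle hα).zsmul _
  · rw [h.2]
    exact (Dle.one hα.le).zsmul _

include hm hL he in
theorem a_mid {z : M.Group} (h1 : z ≠ 1) (h0 : z ≠ w0 M) : D.a z = α := by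
  refine KLD.a_eq (fun x y => h_dle_mid hm hL D he x y z h0) ?_
  obtain ⟨r, n, hn, rfl⟩ := exists_mid hm h1 h0
  refine ⟨sm M r, wd M r (n + 1), ?_⟩
  rw [h_self hL D (len_down hm hn.le), he, tw_coeff (alpha_pos hL he)]
  exact one_ne_zero

include hm in
theorem sm_ne_w0 (r : Bool) : sm M r ≠ w0 M := by
  have := two_le hm
  rw [← wd_one]
  exact ne_w0 hm (by omega)

theorem sm_ne_one (r : Bool) : sm M r ≠ 1 := by
  intro h
  have h1 := congrArg (len M) h
  rw [len_sm, len_one] at h1
  omega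

include hm in
theorem w0_ne_one : w0 M ≠ 1 := by
  intro h
  have h1 := congrArg (len M) h
  rw [len_w0 hm, len_one] at h1
  omega

include hm hL he in
theorem lt_w0 : (α : ℤ) < L (w0 M) := by
  rw [← he true]
  exact (L_le_w0 hm hL _).2 (sm_ne_w0 hm true)

include hm hL he in
theorem a_eq_mid_iff {z : M.Group} : D.a z = α ↔ z ≠ 1 ∧ z ≠ w0 M := by
  have h1 := alpha_pos hL he
  have h2 := lt_w0 hm hL he
  constructor
  · intro h
    constructor
    · rintro rfl
      rw [KLD.a_one hL] at h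
      omega
    · rintro rfl
      have h3 := a_w0' hm hL D
      omega
  · rintro ⟨h3, h4⟩
    exact a_mid hm hL D he h3 h4

include hm hL he in
theorem p_one_mid {r : Bool} {n : ℕ} (hn : n + 1 ≤ M false true) :
    D.p 1 (wd M r (n + 1)) = qq (-α) * D.p (sm M r) (wd M r (n + 1)) := by
  have h1 : len M (sm M r * 1) = len M 1 + 1 := by rw [mul_one, len_sm, len_one]
  rw [D.p_desc hL (len_down hm hn) h1, he, mul_one]

include hm hL he in
theorem P1_eq (z : M.Group) : Dle (-D.a z) (D.p 1 z) := by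
  by_cases h1 : z = 1
  · rw [h1, D.p_self, KLD.a_one hL]
    exact Dle.one (by simp)
  by_cases h0 : z = w0 M
  · rw [h0, p_w0 hm hL D, a_w0' hm hL D, L_one hL, zero_sub]
    exact Dle.qq _
  rw [a_mid hm hL D he h1 h0]
  obtain ⟨r, n, hn, rfl⟩ := exists_mid hm h1 h0
  rw [p_one_mid hm hL D he hn.le]
  exact (Dle.qq (-(α : ℤ))).mul_of_eq (D.p_dle _ _) (by omega)

include hm hL he in
theorem nn_eq {z : M.Group} (h : D.nn z ≠ 0) : z = 1 ∨ z = w0 M ∨ ∃ r, z = sm M r := by
  classical
  by_cases h1 : z = 1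
  · exact Or.inl h1
  by_cases h0 : z = w0 M
  · exact Or.inr (Or.inl h0)
  right
  right
  rw [KLD.nn, a_mid hm hL D he h1 h0] at h
  obtain ⟨r, n, hn, rfl⟩ := exists_mid hm h1 h0
  rw [p_one_mid hm hL D he hn.le, cf_qq_mul, sub_self, D.p_coeff] at h
  refine ⟨r, ?_⟩
  by_contra hne
  exact h (if_neg (Ne.symm hne))

include hm hL he in
theorem P6_eq (z : M.Group) (h : D.nn z ≠ 0) : z⁻¹ = z := by
  rcases nn_eq hm hL D he h with rfl | rfl | ⟨r, rfl⟩
  · exact inv_one
  · exact w0_inv
  · exact sm_inv r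

include hm hL he in
theorem Q_eq (x y z : M.Group) (h : D.g x y z ≠ 0) : D.a x = D.a z ∧ D.a y = D.a z := by
  have hα := alpha_pos hL he
  by_cases h1 : z = 1
  · rw [h1, KLD.g, inv_one] at h
    have h2 : D.h x y 1 ≠ 0 := by
      intro h3
      rw [h3, cf_zero] at h
      exact h rfl
    obtain ⟨rfl, rfl⟩ := D.h_ne_one hL h2
    rw [h1]
    exact ⟨rfl, rfl⟩
  by_cases h0 : z = w0 M
  · rw [h0] at h
    obtain ⟨rfl, rfl⟩ := g_w0 hm hL D h
    rw [h0]
    exact ⟨rfl, rfl⟩
  have h1' : z⁻¹ ≠ 1 := fun h2 => h1 (inv_eq_one.1 h2)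
  have h0' : z⁻¹ ≠ w0 M := fun h2 => h0 (by rw [← inv_inv z, h2, w0_inv])
  have haz := a_mid hm hL D he h1 h0
  rw [KLD.g, a_mid hm hL D he h1' h0'] at h
  have hne : D.h x y z⁻¹ ≠ 0 := by
    intro h3
    rw [h3, cf_zero] at h
    exact h rfl
  have hx0 : x ≠ w0 M := fun h2 => h0' (h_ne_of_w0 hm hL D hne (Or.inl h2))
  have hy0 : y ≠ w0 M := fun h2 => h0' (h_ne_of_w0 hm hL D hne (Or.inr h2))
  have hx1 : x ≠ 1 := by
    rintro rfl
    exact h (h_one_left D y _ _ hα)
  have hy1 : y ≠ 1 := by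
    rintro rfl
    exact h (h_one_right D x _ _ hα)
  rw [haz, a_mid hm hL D he hx1 hx0, a_mid hm hL D he hy1 hy0]
  exact ⟨rfl, rfl⟩

include hm hL he in
theorem P4_eq (x w y : M.Group) (h : D.h x w y ≠ 0) : D.a w ≤ D.a y := by
  by_cases hw1 : w = 1
  · rw [hw1, KLD.a_one hL]
    exact Nat.zero_le _
  by_cases hw0 : w = w0 M
  · rw [h_ne_of_w0 hm hL D h (Or.inr hw0), hw0]
  have hy1 : y ≠ 1 := by
    rintro rfl
    exact hw1 (D.h_ne_one hL h).2
  rw [a_mid hm hL D he hw1 hw0]
  by_cases hy0 : y = w0 M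
  · have h2 := lt_w0 hm hL he
    have h3 := a_w0' hm hL D
    rw [hy0]
    omega
  · rw [a_mid hm hL D he hy1 hy0]

include hm in
/-- A middle element has only one left descent. -/
theorem down_unique {r r' : Bool} {z : M.Group} (hz : z ≠ w0 M)
    (h : len M (sm M r * z) + 1 = len M z) (h' : len M (sm M r' * z) + 1 = len M z) :
    r = r' := by
  obtain ⟨k, hk, h1⟩ := exists_word hm hz h
  obtain ⟨k', hk', h2⟩ := exists_word hm hz h'
  rw [h1] at h2
  rcases (wd_inj hm hk.le hk'.le h2).2 with h3 | h3 | h3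
  · exact h3
  · omega
  · omega

include hm hL he in
theorem u_eq (x y z z' : M.Group) (hz : D.nn z ≠ 0) (hz' : D.nn z' ≠ 0) (h : D.g x y z ≠ 0)
    (h' : D.g x y z' ≠ 0) (ha : D.a z = D.a z') : z = z' := by
  have hα := alpha_pos hL he
  have hw := lt_w0 hm hL he
  have hw0 := a_w0' hm hL D
  have hsm : ∀ r, D.a (sm M r) = α := fun r =>
    a_mid hm hL D he (sm_ne_one r) (sm_ne_w0 hm r)
  have h1 := KLD.a_one (D := D) hL
  rcases nn_eq hm hL D he hz with rfl | rfl | ⟨r, rfl⟩ <;>
    rcases nn_eq hm hL D he hz' with rfl | rfl | ⟨r', rfl⟩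
  · rfl
  · omega
  · rw [hsm] at ha
    omega
  · omega
  · rfl
  · rw [hsm] at ha
    omega
  · rw [hsm] at ha
    omega
  · rw [hsm] at ha
    omega
  · have hq := Q_eq hm hL D he x y _ h
    have hx := (a_eq_mid_iff hm hL D he).1 (hq.1.trans (hsm r))
    obtain ⟨r1, n, hn, rfl⟩ := exists_mid hm hx.1 hx.2
    have key : ∀ r, D.g (wd M r1 (n + 1)) y (sm M r) ≠ 0 → r1 = r := by
      intro r h
      rw [KLD.g, sm_inv] at h
      have h2 : D.h (wd M r1 (n + 1)) y (sm M r) ≠ 0 := by
        intro h3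
        rw [h3, cf_zero] at h
        exact h rfl
      have h3 := D.desc_of_leR hL (D.leR_of_h hL h2) (len_down hm hn.le)
      have h4 : len M (sm M r * sm M r) + 1 = len M (sm M r) := by rw [sm_sm, len_one, len_sm]
      exact down_unique hm (sm_ne_w0 hm r) h3 h4
    rw [← key r h, ← key r' h']

include hL in
/-- The right descents are constant below in the left preorder. -/
theorem desc_right {b : Bool} {w x z : M.Group} (h : D.h w x z ≠ 0)
    (hx : len M (sm M b * x⁻¹) + 1 = len M x⁻¹) : len M (sm M b * z⁻¹) + 1 = len M z⁻¹ := by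
  have h1 := D.leL_of_h hL h
  rw [D.leL_inv] at h1
  exact D.desc_of_leR hL h1 hx

include hm in
theorem exists_right {r : Bool} {z : M.Group} (hz : z ≠ w0 M)
    (h : len M (sm M r * z⁻¹) + 1 = len M z⁻¹) :
    ∃ k, k + 1 < M false true ∧ z = wd M (nx r k) (k + 1) := by
  have h0 : z⁻¹ ≠ w0 M := fun h2 => hz (by rw [← inv_inv z, h2, w0_inv])
  obtain ⟨k, hk, h1⟩ := exists_word hm h0 h
  refine ⟨k, hk, ?_⟩
  rw [← inv_inv z, h1, wd_inv, nx_succ, Bool.not_not]

include hm in
theorem right_down {r : Bool} {n : ℕ} (hn : n + 1 ≤ M false true) :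
    len M (sm M (nx r n) * (wd M r (n + 1))⁻¹) + 1 = len M (wd M r (n + 1))⁻¹ := by
  rw [wd_inv, nx_succ, Bool.not_not]
  exact len_down hm hn

include hm hL he in
theorem LL_eq (k : ℕ) (m : ℤ) (w x y : M.Group) (hx : D.a x = k) :
    D.Lk k m w (D.bul k (Finsupp.single x 1) (Finsupp.single y 1)) =
      D.bul k (D.Lk k m w (Finsupp.single x 1)) (Finsupp.single y 1) := by
  have hα := alpha_pos hL he
  have hw := lt_w0 hm hL he
  have hw0 := a_w0' hm hL D
  have ha1 := KLD.a_one (D := D) hL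
  by_cases hx1 : x = 1
  · refine D.LL_single hx (fun z hz => ?_) m w
    by_contra hne
    rw [hx1] at hx hne
    by_cases h0 : z = w0 M
    · rw [h0] at hz
      omega
    · have := a_mid hm hL D he hne h0
      omega
  by_cases hx0 : x = w0 M
  · refine D.LL_single hx (fun z hz => ?_) m w
    by_contra hne
    rw [hx0] at hx hne
    by_cases h0 : z = 1
    · rw [h0] at hz
      omega
    · have := a_mid hm hL D he h0 hne
      omega
  have hk : k = α := by rw [← hx, a_mid hm hL D he hx1 hx0]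
  rw [hk] at hx ⊢
  by_cases hy : D.a y = α
  · have hy' := (a_eq_mid_iff hm hL D he).1 hy
    obtain ⟨r2, l, hl, rfl⟩ := exists_mid hm hy'.1 hy'.2
    obtain ⟨r1, n, hn, rfl⟩ := exists_mid hm hx1 hx0
    by_cases hr : nx r1 n = r2
    · refine D.LL_cancel (S := fun z => len M (sm M r2 * z⁻¹) + 1 = len M z⁻¹) (I := It D)
        (t := qq (α : ℤ) + qq (-α)) (fun w v hv => It_mulL hm hL D _ hv)
        (fun v hv => It_mulR hm hL D _ hv) ?_ ?_ ?_ ?_ hx ?_ m w
      · intro v hv z hz
        exact (mem_It D).1 hv z ((a_eq_mid_iff hm hL D he).1 hz).2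
      · intro v hv
        exact It_sat D (KLD.qq_add_ne _ hα) hv
      · intro z hz1 hz2
        have hz3 := (a_eq_mid_iff hm hL D he).1 hz2
        obtain ⟨j, hj, rfl⟩ := exists_right hm hz3.2 hz1
        rw [mem_It]
        intro u hu
        obtain ⟨c, hc, h | h⟩ := h_mid hm hL D he (r := nx r2 j) (r' := r2) hj hl hu
        · rw [map_sub, Finsupp.sub_apply, map_smul, Finsupp.smul_apply, D.repr_BB, D.tk_apply]
          have h5 := h.2
          rw [KLD.h] at h5
          by_cases hu1 : u = 1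
          · have h6 : D.h (wd M (nx r2 j) (j + 1)) (wd M r2 (l + 1)) u = 0 := by
              by_contra h7
              rw [hu1] at h7
              exact hz3.1 (D.h_ne_one hL h7).1
            rw [KLD.h] at h6
            rw [h6, cf_zero, ite_self, zero_smul, smul_zero, sub_zero]
          · rw [if_pos (a_mid hm hL D he hu1 hu), h5, cf_zsmul, tw_coeff hα, mul_one,
              smul_comm, smul_eq_mul, mul_one, sub_self]
        · exfalso
          have h5 := h.1
          rw [nx_nx] at h5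
          cases r2 <;> simp at h5
      · intro w x z hx1 hx2 h
        by_cases hz : z = w0 M
        · right
          rw [hz]
          exact C_mem_It D
        · left
          refine ⟨desc_right hL D h hx1, ?_⟩
          refine a_mid hm hL D he ?_ hz
          rintro rfl
          exact ((a_eq_mid_iff hm hL D he).1 hx2).1 (D.h_ne_one hL h).2
      · rw [← hr]
        exact right_down hm hn.le
    · have hr' : nx r1 n = !r2 := bool_ne hr
      refine D.LL_zero (S := fun z => len M (sm M (!r2) * z⁻¹) + 1 = len M z⁻¹) ?_ ?_ hx ?_ m w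
      · intro z hz1 hz2
        have hz3 := (a_eq_mid_iff hm hL D he).1 hz2
        obtain ⟨j, hj, rfl⟩ := exists_right hm hz3.2 hz1
        refine D.BB_zero _ fun u hu => ?_
        have hu2 := (a_eq_mid_iff hm hL D he).1 hu
        obtain ⟨c, hc, h | h⟩ := h_mid hm hL D he (r := nx (!r2) j) (r' := r2) hj hl hu2.2
        · exfalso
          have h5 := h.1
          rw [nx_nx] at h5
          cases r2 <;> simp at h5
        · rw [h.2, cf_zsmul, cf_one, if_neg (by omega), mul_zero]
      · intro w x z hx1 h _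
        exact desc_right hL D h hx1
      · rw [← hr']
        exact right_down hm hn.le
  · refine D.LL_zero (S := fun _ => True) ?_ (fun _ _ _ _ _ _ => trivial) hx trivial m w
    intro z _ hz
    refine D.BB_zero _ fun u hu => ?_
    by_contra h
    have h1 : D.g z y u⁻¹ ≠ 0 := by
      rw [KLD.g, inv_inv, hu]
      exact h
    have h2 := (Q_eq hm hL D he z y _ h1).2
    rw [D.a_inv, hu] at h2
    exact hy h2

include hm hL he in
/-- The core properties for finite dihedral groups with equal weights. -/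
theorem core_eq : D.Core := by
  refine core_of hL D (bdd hm hL D) (P1_eq hm hL D he) (P6_eq hm hL D he) (Q_eq hm hL D he)
    (u_eq hm hL D he) (P4_eq hm hL D he) (fun r => ?_) (LL_eq hm hL D he)
  rw [a_mid hm hL D he (sm_ne_one r) (sm_ne_w0 hm r), he]

end eq

end Pool.Agent.Helper35.KL
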