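import Pool.Agent.Helper35.KL.Pr

/-!
# Finite dihedral groups
-/

namespace Pool.Agent.Helper35.KL

/-- The letter number `n + 1` of the alternating word that starts with `r`. -/
def nx (r : Bool) (n : ℕ) : Bool := xor r n.bodd

@[simp] theorem nx_zero (r : Bool) : nx r 0 = r := by simp [nx]

@[simp] theorem nx_succ (r : Bool) (n : ℕ) : nx r (n + 1) = !(nx r n) := by
  simp [nx, Nat.bodd_succ]

@[simp] theorem nx_not (r : Bool) (n : ℕ) : nx (!r) n = !(nx r n) := by
  simp [nx]

@[simp] theorem nx_nx (r : Bool) (n : ℕ) : nx (nx r n) n = r := by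
  simp [nx]

theorem nx_add (r : Bool) (n k : ℕ) : nx r (n + k) = nx (nx r n) k := by
  simp [nx, Nat.bodd_add, Bool.xor_assoc]

section dih

variable (M : CoxeterMatrix Bool)

/-- The alternating product of `n` simple reflections that starts with `r`. -/
noncomputable def wd : Bool → ℕ → M.Group
  | _, 0 => 1
  | r, n + 1 => sm M r * wd (!r) n

@[simp] theorem wd_zero (r : Bool) : wd M r 0 = 1 := rfl

theorem wd_succ (r : Bool) (n : ℕ) : wd M r (n + 1) = sm M r * wd M (!r) n := rfl

theorem wd_one (r : Bool) : wd M r 1 = sm M r := by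
  rw [wd_succ, wd_zero, mul_one]

theorem wd_add (r : Bool) (n k : ℕ) : wd M r (n + k) = wd M r n * wd M (nx r n) k := by
  induction n generalizing r with
  | zero => rw [zero_add, wd_zero, one_mul, nx_zero]
  | succ n ih =>
    rw [show n + 1 + k = n + k + 1 by ring, wd_succ, ih, wd_succ, mul_assoc, nx_succ, nx_not]

theorem wd_inv (r : Bool) (n : ℕ) : (wd M r n)⁻¹ = wd M (!(nx r n)) n := by
  induction n with
  | zero => rw [wd_zero, wd_zero, inv_one]
  | succ n ih =>
    rw [wd_add M r n 1, mul_inv_rev, ih, wd_one, sm_inv, nx_succ, Bool.not_not, wd_succ]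

theorem wd_two_mul (r : Bool) (k : ℕ) : wd M r (2 * k) = (sm M r * sm M (!r)) ^ k := by
  induction k with
  | zero => simp
  | succ k ih =>
    rw [show 2 * (k + 1) = 2 * k + 1 + 1 by ring, wd_succ, wd_succ, Bool.not_not, ih, pow_succ',
      mul_assoc]

theorem len_wd_le (r : Bool) (n : ℕ) : len M (wd M r n) ≤ n := by
  induction n generalizing r with
  | zero => rw [wd_zero, len_one]
  | succ n ih =>
    rw [wd_succ]
    have h1 := ih (!r)
    rcases len_sm_mul (M := M) r (wd M (!r) n) with h | h <;> omega

theorem exists_wd_len (w : M.Group) : ∃ r, w = wd M r (len M w) := by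
  induction w using len_induction with
  | h1 => exact ⟨true, by rw [len_one, wd_zero]⟩
  | hs b w hl ih =>
    obtain ⟨r, hr⟩ := ih
    by_cases hb : b = r
    · cases hn : len M w with
      | zero =>
        rw [hn] at hl hr
        rw [hl, hr]
        exact ⟨b, by rw [wd_zero, zero_add, wd_one, mul_one]⟩
      | succ n =>
        exfalso
        rw [hn] at hl hr
        rw [hr, hb, wd_succ, sm_cancel] at hl
        have := len_wd_le M (!r) n
        omega
    · refine ⟨b, ?_⟩
      have h1 : (!b) = r := by
        rcases b <;> rcases r <;> first | rfl | exact absurd rfl hb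
      rw [hl, wd_succ, h1, ← hr]

variable {M} (hm : M false true ≠ 0)

theorem wd_top' : wd M false (M false true) = wd M true (M false true) := by
  set m := M false true with hmd
  have h1 : wd M false (2 * m) = 1 := by
    rw [wd_two_mul]
    exact M.toCoxeterSystem.simple_mul_simple_pow false true
  rw [two_mul, wd_add] at h1
  have h2 : (wd M true m)⁻¹ = wd M (nx false m) m := by
    rw [wd_inv, ← nx_not]
    rfl
  rw [← h2] at h1
  exact mul_inv_eq_one.1 h1

theorem wd_top (r r' : Bool) : wd M r (M false true) = wd M r' (M false true) := by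
  have h := wd_top' (M := M)
  cases r <;> cases r' <;> first | rfl | exact h | exact h.symm

include hm in
theorem wd_top_succ (r : Bool) : wd M r (M false true + 1) = wd M (!r) (M false true - 1) := by
  have h1 : M false true = M false true - 1 + 1 := by omega
  rw [wd_succ, wd_top (!r) r]
  conv_lhs => rw [h1]
  rw [wd_succ, sm_cancel]

include hm in
theorem len_le_top (w : M.Group) : len M w ≤ M false true := by
  by_contra hne
  push Not at hne
  obtain ⟨r, hr⟩ := exists_wd_len M w
  obtain ⟨k, hk⟩ : ∃ k, len M w = M false true + 1 + k := ⟨len M w - (M false true + 1), by omega⟩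
  rw [hk, wd_add, wd_top_succ hm] at hr
  have h1 := len_wd_le M (!r) (M false true - 1)
  have h2 := len_wd_le M (nx r (M false true + 1)) k
  have h3 := M.toCoxeterSystem.length_mul_le (wd M (!r) (M false true - 1))
    (wd M (nx r (M false true + 1)) k)
  have h4 : len M w ≤ len M (wd M (!r) (M false true - 1)) +
      len M (wd M (nx r (M false true + 1)) k) := by
    conv_lhs => rw [hr]
    exact h3
  omega

/-- The homomorphism to the dihedral group. -/
noncomputable def dh (M : CoxeterMatrix Bool) : M.Group →* DihedralGroup (M false true) :=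
  M.toCoxeterSystem.lift ⟨fun b => DihedralGroup.sr (if b then 1 else 0), by
    intro b c
    have h1 : (DihedralGroup.r (1 : ZMod (M false true))) ^ (M false true) = 1 :=
      DihedralGroup.r_one_pow_n
    cases b <;> cases c
    · simp [M.diagonal]
    · simpa using h1
    · rw [M.symmetric true false]
      have h2 : (DihedralGroup.sr (if true = true then 1 else 0) *
          DihedralGroup.sr (if false = true then 1 else 0) : DihedralGroup (M false true)) =
          (DihedralGroup.r 1)⁻¹ := by
        simp
      rw [h2, inv_pow, h1, inv_one]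
    · simp [M.diagonal]⟩

theorem dh_sm (r : Bool) : dh M (sm M r) = DihedralGroup.sr (if r then 1 else 0) :=
  M.toCoxeterSystem.lift_apply_simple _ r

theorem dh_even (r : Bool) (k : ℕ) : dh M (wd M r (2 * k)) =
    DihedralGroup.r (if r then -(k : ZMod (M false true)) else k) := by
  induction k with
  | zero =>
    simp only [Nat.mul_zero, wd_zero, map_one, Nat.cast_zero, neg_zero, ite_self]
    rfl
  | succ k ih =>
    rw [show 2 * (k + 1) = 2 * k + 1 + 1 by ring, wd_succ, wd_succ, Bool.not_not, map_mul,
      map_mul, ih, dh_sm, dh_sm]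
    cases r
    · simp only [Bool.not_false, if_true, Bool.false_eq_true, if_false, DihedralGroup.sr_mul_r,
        DihedralGroup.sr_mul_sr]
      congr 1
      push_cast
      ring
    · simp only [Bool.not_true, if_true, Bool.false_eq_true, if_false, DihedralGroup.sr_mul_r,
        DihedralGroup.sr_mul_sr]
      congr 1
      push_cast
      ring

theorem dh_odd (r : Bool) (k : ℕ) : dh M (wd M r (2 * k + 1)) =
    DihedralGroup.sr (if r then (k : ZMod (M false true)) + 1
      else -(k : ZMod (M false true))) := by
  rw [wd_succ, map_mul, dh_even, dh_sm]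
  cases r
  · simp
  · simp [add_comm]

include hm in
theorem wd_inj {r r' : Bool} {n n' : ℕ} (hn : n ≤ M false true) (hn' : n' ≤ M false true)
    (h : wd M r n = wd M r' n') : n = n' ∧ (r = r' ∨ n = 0 ∨ n = M false true) := by
  set m := M false true with hmd
  have h1 := congrArg (dh M) h
  have hcast : ∀ a b : ℕ, (a : ZMod m) = b → a ≡ b [MOD m] := fun a b hab =>
    (ZMod.natCast_eq_natCast_iff a b m).1 hab
  rcases Nat.even_or_odd' n with ⟨k, hk | hk⟩ <;> rcases Nat.even_or_odd' n' with ⟨k', hk' | hk'⟩
  · rw [hk, hk', dh_even, dh_even] at h1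
    have h2 := DihedralGroup.r.inj h1
    cases r <;> cases r'
    · simp only [Bool.false_eq_true, if_false] at h2
      have h3 := Nat.ModEq.eq_of_lt_of_lt (hcast k k' h2) (by omega) (by omega)
      exact ⟨by omega, Or.inl rfl⟩
    · simp only [Bool.false_eq_true, if_false, if_true] at h2
      have h3 : ((k + k' : ℕ) : ZMod m) = (0 : ℕ) := by
        push_cast
        rw [h2]
        ring
      have h4 := (Nat.modEq_zero_iff_dvd).1 (hcast _ _ h3)
      rcases Nat.eq_zero_or_pos (k + k') with h5 | h5
      · exact ⟨by omega, Or.inr (Or.inl (by omega))⟩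
      · have h6 := Nat.le_of_dvd h5 h4
        exact ⟨by omega, Or.inr (Or.inr (by omega))⟩
    · simp only [Bool.false_eq_true, if_false, if_true] at h2
      have h3 : ((k + k' : ℕ) : ZMod m) = (0 : ℕ) := by
        push_cast
        rw [← h2]
        ring
      have h4 := (Nat.modEq_zero_iff_dvd).1 (hcast _ _ h3)
      rcases Nat.eq_zero_or_pos (k + k') with h5 | h5
      · exact ⟨by omega, Or.inr (Or.inl (by omega))⟩
      · have h6 := Nat.le_of_dvd h5 h4
        exact ⟨by omega, Or.inr (Or.inr (by omega))⟩
    · simp only [if_true, neg_inj] at h2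
      have h3 := Nat.ModEq.eq_of_lt_of_lt (hcast k k' h2) (by omega) (by omega)
      exact ⟨by omega, Or.inl rfl⟩
  · rw [hk, hk', dh_even, dh_odd] at h1
    cases h1
  · rw [hk, hk', dh_even, dh_odd] at h1
    cases h1
  · rw [hk, hk', dh_odd, dh_odd] at h1
    have h2 := DihedralGroup.sr.inj h1
    cases r <;> cases r'
    · simp only [Bool.false_eq_true, if_false, neg_inj] at h2
      have h3 := Nat.ModEq.eq_of_lt_of_lt (hcast k k' h2) (by omega) (by omega)
      exact ⟨by omega, Or.inl rfl⟩
    · simp only [Bool.false_eq_true, if_false, if_true] at h2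
      have h3 : ((k + k' + 1 : ℕ) : ZMod m) = (0 : ℕ) := by
        push_cast
        rw [add_assoc, ← h2]
        ring
      have h4 := (Nat.modEq_zero_iff_dvd).1 (hcast _ _ h3)
      have h6 := Nat.le_of_dvd (by omega) h4
      exact ⟨by omega, Or.inr (Or.inr (by omega))⟩
    · simp only [Bool.false_eq_true, if_false, if_true] at h2
      have h3 : ((k + k' + 1 : ℕ) : ZMod m) = (0 : ℕ) := by
        push_cast
        have h4 : (k : ZMod m) + k' + 1 = (k + 1) + k' := by ring
        rw [h4, h2]
        ring
      have h4 := (Nat.modEq_zero_iff_dvd).1 (hcast _ _ h3)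
      have h6 := Nat.le_of_dvd (by omega) h4
      exact ⟨by omega, Or.inr (Or.inr (by omega))⟩
    · simp only [if_true, add_left_inj] at h2
      have h3 := Nat.ModEq.eq_of_lt_of_lt (hcast k k' h2) (by omega) (by omega)
      exact ⟨by omega, Or.inl rfl⟩

include hm in
theorem len_wd {r : Bool} {n : ℕ} (hn : n ≤ M false true) : len M (wd M r n) = n := by
  obtain ⟨r', hr'⟩ := exists_wd_len M (wd M r n)
  exact (wd_inj hm hn (len_le_top hm _) hr').1.symm

include hm in
theorem exists_wd (w : M.Group) : ∃ r n, n ≤ M false true ∧ w = wd M r n := by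
  obtain ⟨r, hr⟩ := exists_wd_len M w
  exact ⟨r, _, len_le_top hm w, hr⟩

include hm in
theorem len_up {r : Bool} {n : ℕ} (hn : n + 1 ≤ M false true) :
    len M (sm M r * wd M (!r) n) = len M (wd M (!r) n) + 1 := by
  rw [← wd_succ, len_wd hm hn, len_wd hm (by omega)]

include hm in
theorem len_down {r : Bool} {n : ℕ} (hn : n + 1 ≤ M false true) :
    len M (sm M r * wd M r (n + 1)) + 1 = len M (wd M r (n + 1)) := by
  rw [wd_succ, sm_cancel, ← wd_succ, len_wd hm hn, len_wd hm (by omega)]

end dih

end Pool.Agent.Helper35.KL
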