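import Pool.Agent.Helper35.KL.Di.Abs

/-!
# Finite dihedral groups: common parts for equal and unequal weights
-/

namespace Pool.Agent.Helper35.KL

section gen

variable {M : CoxeterMatrix Bool} (hm : M false true ≠ 0) {L : M.Group → ℤ} (hL : IsWeight M L)
variable {H : Type} [Ring H] [Algebra LP H] (D : KLD M L H)

include hm in
theorem wd_eq_iff {r : Bool} {n n' : ℕ} (hn : n ≤ M false true) (hn' : n' ≤ M false true) :
    wd M r n = wd M r n' ↔ n = n' := by
  constructor
  · intro h
    have h1 := congrArg (len M) h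
    rwa [len_wd hm hn, len_wd hm hn'] at h1
  · rintro rfl
    rfl

include hm hL in
theorem bdd : D.Bounded := by
  refine ⟨(L (w0 M)).toNat, fun x y z => ?_⟩
  have h1 : ((L (w0 M)).toNat : ℤ) = L (w0 M) := Int.toNat_of_nonneg (L_nonneg hL _)
  rw [h1]
  refine repr_C_of_Lat D ?_ _
  refine mul_Lat_of D ?_ (C_Lat D x) (C_Lat D y)
  intro u v _ _
  exact Lat_mono _ (L_le_w0 hm hL u).1 (TT_Lat hL D u v)

include hm hL in
/-- The coefficients of `C r * C v`. -/
theorem repr_rec {r : Bool} {n : ℕ} (v : M.Group) (hn : n + 1 ≤ M false true) :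
    D.T.repr (D.C (sm M r) * D.C v) (wd M r (n + 1)) =
      D.p (wd M (!r) n) v + qq (L (sm M r)) * D.p (wd M r (n + 1)) v := by
  rw [D.repr_C_sm hL, KLD.fac_down (len_down hm hn), wd_succ, sm_cancel]
  rfl

include hm hL in
/-- Coefficients at elements that start with `r` of elements that start with the other letter. -/
theorem p_other {r : Bool} {n : ℕ} {v : M.Group} (hn : n + 2 ≤ M false true)
    (hv : len M (sm M (!r) * v) + 1 = len M v) :
    D.p (wd M r (n + 1)) v = qq (-L (sm M (!r))) * D.p (wd M (!r) (n + 2)) v := by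
  have h1 := len_up hm (r := !r) (n := n + 1) (by omega)
  rw [Bool.not_not] at h1
  rw [D.p_desc hL hv h1, wd_succ M (!r) (n + 1), Bool.not_not]

/-- The element `C` of an alternating word, or zero for the empty word. -/
noncomputable def CE (r : Bool) (k : ℕ) : H := if k = 0 then 0 else D.C (wd M r k)

theorem CE_zero (r : Bool) : CE D r 0 = 0 := if_pos rfl

theorem CE_succ (r : Bool) (k : ℕ) : CE D r (k + 1) = D.C (wd M r (k + 1)) :=
  if_neg (Nat.succ_ne_zero k)

theorem bar_CE (r : Bool) (k : ℕ) : D.bar (CE D r k) = CE D r k := by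
  cases k with
  | zero => rw [CE_zero, map_zero]
  | succ k => rw [CE_succ, D.bar_C]

include hm hL in
theorem T_CE {r : Bool} {k : ℕ} (hk : k ≤ M false true) :
    D.T (sm M r) * CE D r k = qq (L (sm M r)) • CE D r k := by
  cases k with
  | zero => rw [CE_zero, mul_zero, smul_zero]
  | succ k => rw [CE_succ, D.T_mul_C hL (len_down hm hk)]

open scoped Classical in
theorem repr_CE (r : Bool) (k : ℕ) (y : M.Group) :
    D.T.repr (CE D r k) y = if k = 0 then 0 else D.p y (wd M r k) := by
  rw [CE]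
  split_ifs
  · simp
  · rfl

theorem dle_CE (r : Bool) (k : ℕ) (y : M.Group) : Dle 0 (D.T.repr (CE D r k) y) := by
  classical
  rw [repr_CE]
  split_ifs
  · exact Dle.zero _
  · exact D.p_dle _ _

include hm in
open scoped Classical in
theorem coeff_CE {r : Bool} {k n : ℕ} (hk : k ≤ M false true) (hn : n + 1 ≤ M false true) :
    (D.T.repr (CE D r k) (wd M r (n + 1))).coeff 0 = if n + 1 = k then 1 else 0 := by
  rw [repr_CE]
  by_cases h : k = 0
  · rw [if_pos h, if_neg (by omega), cf_zero]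
  · rw [if_neg h, D.p_coeff]
    simp only [wd_eq_iff hm hn hk]

include hm in
open scoped Classical in
theorem coeff_p {r : Bool} {k n : ℕ} (hk : k ≤ M false true) (hn : n ≤ M false true) :
    (D.p (wd M r n) (wd M r k)).coeff 0 = if n = k then 1 else 0 := by
  rw [D.p_coeff]
  simp only [wd_eq_iff hm hn hk]

include hL in
theorem h_sm_self (r : Bool) :
    D.h (sm M r) (sm M r) (sm M r) = qq (L (sm M r)) + qq (-L (sm M r)) := by
  have h1 : len M (sm M r * sm M r) + 1 = len M (sm M r) := by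
    rw [sm_sm, len_one, len_sm]
  rw [KLD.h, D.C_mul_C hL h1, map_smul, Finsupp.smul_apply, Module.Basis.repr_self,
    Finsupp.single_eq_same, smul_eq_mul, mul_one]

include hL in
theorem h_self {r : Bool} {z : M.Group} (hz : len M (sm M r * z) + 1 = len M z) :
    D.h (sm M r) z z = qq (L (sm M r)) + qq (-L (sm M r)) := by
  rw [KLD.h, D.C_mul_C hL hz, map_smul, Finsupp.smul_apply, Module.Basis.repr_self,
    Finsupp.single_eq_same, smul_eq_mul, mul_one]

theorem tw_dle {n : ℤ} (hn : 0 < n) : Dle n (qq n + qq (-n)) :=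
  (Dle.qq n).add ((Dle.qq (-n)).mono (by omega))

theorem tw_coeff {n : ℤ} (hn : 0 < n) : (qq n + qq (-n) : LP).coeff n = 1 := by
  rw [cf_add, cf_qq, cf_qq, if_pos rfl, if_neg (by omega), add_zero]

theorem aPar_eq (hb : D.Bounded) {I : Set Bool} {w : M.Group}
    (h : ∃ x ∈ par M I, ∃ y ∈ par M I, (D.h x y w).coeff (D.a w) ≠ 0) : D.aPar I w = D.a w := by
  have h1 : IsGreatest {n : ℕ | ∃ x ∈ par M I, ∃ y ∈ par M I, (D.h x y w).coeff n ≠ 0}
      (D.a w) := by
    refine ⟨h, ?_⟩
    rintro k ⟨x, -, y, -, hk⟩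
    by_contra hlt
    exact hk (KLD.h_dle hb x y w k (by omega))
  exact h1.csSup_eq

theorem par_sub {I : Set Bool} (r : Bool) (hI : r ∉ I) {w : M.Group} (hw : w ∈ par M I) :
    w = 1 ∨ w = sm M (!r) := by
  rw [par] at hw
  induction hw using Subgroup.closure_induction with
  | mem x hx =>
    obtain ⟨b, hb, rfl⟩ := hx
    right
    have h1 : b ≠ r := fun h => hI (h ▸ hb)
    have h2 : b = !r := by
      cases b <;> cases r <;> simp_all
    rw [h2]
  | one => exact Or.inl rfl
  | mul x y _ _ hx hy =>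
    rcases hx with rfl | rfl <;> rcases hy with rfl | rfl
    · left
      rw [mul_one]
    · right
      rw [one_mul]
    · right
      rw [mul_one]
    · left
      rw [sm_sm]
  | inv x _ hx =>
    rcases hx with rfl | rfl
    · left
      rw [inv_one]
    · right
      rw [sm_inv]

include hL in
theorem P12_of (hb : D.Bounded) (ha : ∀ r, (D.a (sm M r) : ℤ) = L (sm M r)) (I : Set Bool)
    (w : M.Group) (hw : w ∈ par M I) : D.aPar I w = D.a w := by
  classical
  refine aPar_eq D hb ?_
  by_cases hI : I = Set.univ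
  · obtain ⟨x, y, h⟩ := KLD.a_attained hb w
    have h1 : par M (Set.univ : Set Bool) = ⊤ := by
      rw [par, Set.image_univ]
      exact M.toCoxeterSystem.subgroup_closure_range_simple
    rw [hI, h1]
    exact ⟨x, Subgroup.mem_top _, y, Subgroup.mem_top _, h⟩
  · obtain ⟨r, hr⟩ : ∃ r, r ∉ I := by
      by_contra hne
      push Not at hne
      exact hI (Set.eq_univ_of_forall hne)
    rcases par_sub r hr hw with rfl | rfl
    · refine ⟨1, one_mem _, 1, one_mem _, ?_⟩
      rw [D.h_one, if_pos rfl, KLD.a_one hL]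
      simp
    · refine ⟨_, hw, _, hw, ?_⟩
      rw [h_sm_self hL, ha, tw_coeff (hL.pos _)]
      exact one_ne_zero

include hL in
/-- The core properties from a list of facts. -/
theorem core_of (hb : D.Bounded) (hP : ∀ z, Dle (-D.a z) (D.p 1 z))
    (hi : ∀ z, D.nn z ≠ 0 → z⁻¹ = z)
    (hQ : ∀ x y z, D.g x y z ≠ 0 → D.a x = D.a z ∧ D.a y = D.a z)
    (hu : ∀ x y z z', D.nn z ≠ 0 → D.nn z' ≠ 0 → D.g x y z ≠ 0 → D.g x y z' ≠ 0 →
      D.a z = D.a z' → z = z')
    (h4 : ∀ x w y, D.h x w y ≠ 0 → D.a w ≤ D.a y)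
    (ha : ∀ r, (D.a (sm M r) : ℤ) = L (sm M r))
    (hLL : ∀ (k : ℕ) (m : ℤ) (w x y : M.Group), D.a x = k →
      D.Lk k m w (D.bul k (Finsupp.single x 1) (Finsupp.single y 1)) =
        D.bul k (D.Lk k m w (Finsupp.single x 1)) (Finsupp.single y 1)) : D.Core := by
  have hu' : ∀ x y z z', D.nn z ≠ 0 → D.nn z' ≠ 0 → D.g x y z ≠ 0 → D.g x y z' ≠ 0 →
      z = z' := by
    intro x y z z' h1 h2 h3 h5
    exact hu x y z z' h1 h2 h3 h5 (by rw [← (hQ x y z h3).1, (hQ x y z' h5).1])
  refine ⟨hb, hP, fun {x y z} h1 h2 => (KLD.tau_one hb hP hu' hi h1 h2).1,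
    KLD.tau_P3 hb hP hu' hi, ?_, fun {z} h => hi z h, fun {x y z} h => hQ x y z h,
    P12_of hL D hb ha, hLL⟩
  intro y w h
  induction h using Relation.ReflTransGen.head_induction_on with
  | refl => exact le_rfl
  | @head u v h1 _ ih =>
    refine ih.trans ?_
    rcases h1 with ⟨b, h1⟩ | ⟨b, h1⟩
    · exact h4 (sm M b) v u h1
    · have h2 : D.h v (sm M b) u ≠ 0 := h1
      rw [D.h_inv] at h2
      have h3 := h4 _ _ _ h2
      rwa [D.a_inv, D.a_inv] at h3

theorem h_one_right (w z : M.Group) (n : ℤ) (hn : 0 < n) : (D.h w 1 z).coeff n = 0 := by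
  classical
  have h1 : D.h w 1 z = if w = z then 1 else 0 := by
    rw [KLD.h, D.C_one, mul_one, Module.Basis.repr_self, Finsupp.single_apply]
  rw [h1]
  split_ifs
  · rw [cf_one, if_neg (by omega)]
  · rw [cf_zero]

theorem h_one_left (w z : M.Group) (n : ℤ) (hn : 0 < n) : (D.h 1 w z).coeff n = 0 := by
  classical
  rw [D.h_one]
  split_ifs
  · rw [cf_one, if_neg (by omega)]
  · rw [cf_zero]

include hm in
/-- The elements different from `1` and the longest element. -/
theorem exists_mid {z : M.Group} (h1 : z ≠ 1) (h0 : z ≠ w0 M) :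
    ∃ r n, n + 1 < M false true ∧ z = wd M r (n + 1) := by
  obtain ⟨r, n, hn, rfl⟩ := exists_wd hm z
  cases n with
  | zero => exact absurd (wd_zero M r) h1
  | succ n =>
    refine ⟨r, n, ?_, rfl⟩
    rcases Nat.lt_or_ge (n + 1) (M false true) with h | h
    · exact h
    · exfalso
      apply h0
      rw [w0_eq r, le_antisymm hn h]

include hm in
theorem wd_ne_one {r : Bool} {n : ℕ} (hn : n + 1 ≤ M false true) : wd M r (n + 1) ≠ 1 := by
  intro h
  have h1 := congrArg (len M) h
  rw [len_wd hm hn, len_one] at h1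
  omega

end gen

end Pool.Agent.Helper35.KL
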