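import Pool.Agent.Helper35.KL.Di.Eq2

/-!
# Finite dihedral groups with unequal weights: recursions
-/

namespace Pool.Agent.Helper35.KL

section ne

variable {M : CoxeterMatrix Bool} (hm : M false true ≠ 0) {L : M.Group → ℤ} (hL : IsWeight M L)
variable {H : Type} [Ring H] [Algebra LP H] (D : KLD M L H)

include hm hL in
theorem p_top_zero {r r' : Bool} {n k : ℕ} (hn : n + 1 = M false true)
    (hk : k < M false true) : D.p (wd M r (n + 1)) (wd M r' k) = 0 := by
  apply D.p_zero
  · rw [len_wd hm hn.le, len_wd hm hk.le]
    omega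
  · intro h3
    have h4 := congrArg (len M) h3
    rw [len_wd hm hn.le, len_wd hm hk.le] at h4
    omega

include hm hL in
/-- The product with the simple reflection of smaller weight. -/
theorem ne_U1 {r : Bool} (hr : L (sm M r) < L (sm M (!r))) {k : ℕ}
    (hk : k + 2 ≤ M false true) :
    D.C (sm M r) * D.C (wd M (!r) (k + 1)) = D.C (wd M r (k + 2)) := by
  classical
  have hdv : len M (sm M (!r) * wd M (!r) (k + 1)) + 1 = len M (wd M (!r) (k + 1)) :=
    len_down hm (by omega)
  have h0 : D.C (sm M r) * D.C (wd M (!r) (k + 1)) - D.C (wd M r (k + 2)) = 0 := by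
    refine D.eq_zero_of_eigen hL (b := r) ?_ ?_ ?_
    · rw [mul_sub, D.eigen_C_sm hL, D.T_mul_C hL (len_down hm (by omega)), smul_sub]
    · rw [map_sub, map_mul, D.bar_C, D.bar_C, D.bar_C]
    · intro y hy
      obtain ⟨n, hn, rfl⟩ := down_wd hm hy
      have h1 : D.T.repr (D.C (sm M r) * D.C (wd M (!r) (k + 1)) -
          D.C (wd M r (k + 2))) (wd M r (n + 1)) =
          (D.p (wd M (!r) n) (wd M (!r) (k + 1)) +
            qq (L (sm M r)) * D.p (wd M r (n + 1)) (wd M (!r) (k + 1))) -
          D.p (wd M r (n + 1)) (wd M r (k + 2)) := by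
        rw [map_sub, Finsupp.sub_apply, repr_rec hm hL D _ hn]
        rfl
      rw [h1]
      have h2 : Dle (-1) (qq (L (sm M r)) * D.p (wd M r (n + 1)) (wd M (!r) (k + 1))) := by
        by_cases hn2 : n + 2 ≤ M false true
        · rw [p_other hm hL D hn2 hdv, ← mul_assoc, ← LaurentPolynomial.T_add]
          exact (Dle.qq (L (sm M r) + -L (sm M (!r)))).mul_of_eq (D.p_dle _ _) (by omega)
        · rw [p_top_zero hm hL D (by omega) (by omega), mul_zero]
          exact Dle.zero _
      refine Dle.of_lead (((D.p_dle _ _).add (h2.mono (by omega))).sub (D.p_dle _ _)) ?_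
      rw [cf_sub, cf_add, h2 0 (by omega), coeff_p hm D (by omega) (by omega),
        coeff_p hm D (by omega) hn]
      split_ifs <;> omega
  rwa [sub_eq_zero] at h0

include hm hL in
/-- The product with the simple reflection of larger weight. -/
theorem ne_U2 {r : Bool} (hr : L (sm M (!r)) < L (sm M r)) {k : ℕ}
    (hk : k + 2 ≤ M false true) :
    D.C (sm M r) * D.C (wd M (!r) (k + 1)) = D.C (wd M r (k + 2)) +
      (qq (L (sm M r) - L (sm M (!r))) + qq (-(L (sm M r) - L (sm M (!r))))) • CE D r k +
      CE D r (k - 2) := by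
  classical
  set δ := L (sm M r) - L (sm M (!r)) with hδ
  have hdv : len M (sm M (!r) * wd M (!r) (k + 1)) + 1 = len M (wd M (!r) (k + 1)) :=
    len_down hm (by omega)
  have hinv : LaurentPolynomial.invert (qq δ + qq (-δ) : LP) = qq δ + qq (-δ) := by
    rw [map_add, LaurentPolynomial.invert_T, LaurentPolynomial.invert_T, neg_neg, add_comm]
  have h0 : D.C (sm M r) * D.C (wd M (!r) (k + 1)) - (D.C (wd M r (k + 2)) +
      (qq δ + qq (-δ)) • CE D r k + CE D r (k - 2)) = 0 := by
    refine D.eq_zero_of_eigen hL (b := r) ?_ ?_ ?_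
    · rw [mul_sub, mul_add, mul_add, mul_smul_comm, D.eigen_C_sm hL,
        D.T_mul_C hL (len_down hm (by omega)), T_CE hm hL D (by omega),
        T_CE hm hL D (by omega), smul_sub, smul_add, smul_add, smul_comm (qq δ + qq (-δ))]
    · rw [map_sub, map_mul, map_add, map_add, D.bar_C, D.bar_C, D.bar_C, D.bar_smul, hinv,
        bar_CE, bar_CE]
    · intro y hy
      obtain ⟨n, hn, rfl⟩ := down_wd hm hy
      have h1 : D.T.repr (D.C (sm M r) * D.C (wd M (!r) (k + 1)) - (D.C (wd M r (k + 2)) +
          (qq δ + qq (-δ)) • CE D r k + CE D r (k - 2))) (wd M r (n + 1)) =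
          (D.p (wd M (!r) n) (wd M (!r) (k + 1)) +
            qq (L (sm M r)) * D.p (wd M r (n + 1)) (wd M (!r) (k + 1))) -
          (D.p (wd M r (n + 1)) (wd M r (k + 2)) +
            (qq δ + qq (-δ)) * D.T.repr (CE D r k) (wd M r (n + 1)) +
            D.T.repr (CE D r (k - 2)) (wd M r (n + 1))) := by
        rw [map_sub, map_add, map_add, map_smul, Finsupp.sub_apply, Finsupp.add_apply,
          Finsupp.add_apply, Finsupp.smul_apply, repr_rec hm hL D _ hn]
        rfl
      rw [h1]
      obtain ⟨Q, hQ1, hQ2, hQ3⟩ : ∃ Q : LP, Dle 0 Q ∧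
          Q.coeff 0 = (if n + 3 = k then 1 else 0) ∧
          qq (L (sm M r)) * D.p (wd M r (n + 1)) (wd M (!r) (k + 1)) =
            qq δ * D.T.repr (CE D r k) (wd M r (n + 1)) + Q := by
        cases k with
        | zero =>
          refine ⟨0, Dle.zero _, by rw [if_neg (by omega), cf_zero], ?_⟩
          rw [repr_CE, if_pos rfl, mul_zero, add_zero, D.p_zero, mul_zero]
          · rw [len_wd hm hn, len_wd hm (by omega)]
            omega
          · intro h3
            rcases (wd_inj hm hn (by omega) h3).2 with h4 | h4 | h4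
            · cases r <;> simp at h4
            · omega
            · have := (wd_inj hm hn (by omega) h3).1
              omega
        | succ k =>
          rw [CE_succ]
          have hP : D.T.repr (D.C (wd M r (k + 1))) (wd M r (n + 1)) =
              D.p (wd M r (n + 1)) (wd M r (k + 1)) := rfl
          rw [hP]
          by_cases hn2 : n + 2 ≤ M false true
          · have h2 : D.p (wd M (!r) (n + 2)) (wd M (!r) (k + 1 + 1)) =
                D.p (wd M r (n + 1)) (wd M r (k + 1)) +
                  qq (L (sm M (!r))) * D.p (wd M (!r) (n + 2)) (wd M r (k + 1)) := by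
              have h3 := ne_U1 hm hL D (r := !r) (by rw [Bool.not_not]; exact hr) (k := k)
                (by omega)
              rw [Bool.not_not] at h3
              have h4 := repr_rec hm hL D (r := !r) (n := n + 1) (wd M r (k + 1)) hn2
              rw [h3, Bool.not_not] at h4
              exact h4
            rw [p_other hm hL D hn2 hdv, h2]
            by_cases hn3 : n + 3 ≤ M false true
            · have h5 : D.p (wd M (!r) (n + 1 + 1)) (wd M r (k + 1)) =
                  qq (-L (sm M r)) * D.p (wd M r (n + 3)) (wd M r (k + 1)) := by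
                have h6 := p_other hm hL D (r := !r) (n := n + 1) (v := wd M r (k + 1)) hn3
                rw [Bool.not_not] at h6
                exact h6 (len_down hm (by omega))
              refine ⟨D.p (wd M r (n + 3)) (wd M r (k + 1)), D.p_dle _ _, ?_, ?_⟩
              · rw [coeff_p hm D (by omega) hn3]
              · rw [h5, mul_add, mul_add]
                congr 1
                · rw [← mul_assoc, ← LaurentPolynomial.T_add]
                  rfl
                · rw [← mul_assoc, ← mul_assoc, ← mul_assoc, ← LaurentPolynomial.T_add,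
                    ← LaurentPolynomial.T_add, ← LaurentPolynomial.T_add]
                  have h7 : L (sm M r) + -L (sm M (!r)) + L (sm M (!r)) + -L (sm M r) = 0 := by
                    ring
                  rw [h7, LaurentPolynomial.T_zero, one_mul]
            · refine ⟨0, Dle.zero _, by rw [if_neg (by omega), cf_zero], ?_⟩
              rw [p_top_zero hm hL D (n := n + 1) (by omega) (by omega), mul_zero, add_zero,
                add_zero, ← mul_assoc, ← LaurentPolynomial.T_add]
              rfl
          · refine ⟨0, Dle.zero _, by rw [if_neg (by omega), cf_zero], ?_⟩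
            rw [p_top_zero hm hL D (by omega) (by omega),
              p_top_zero hm hL D (by omega) (by omega), mul_zero, mul_zero, add_zero]
      have h3 : (D.p (wd M (!r) n) (wd M (!r) (k + 1)) +
            qq (L (sm M r)) * D.p (wd M r (n + 1)) (wd M (!r) (k + 1))) -
          (D.p (wd M r (n + 1)) (wd M r (k + 2)) +
            (qq δ + qq (-δ)) * D.T.repr (CE D r k) (wd M r (n + 1)) +
            D.T.repr (CE D r (k - 2)) (wd M r (n + 1))) =
          (D.p (wd M (!r) n) (wd M (!r) (k + 1)) + Q) -
          (D.p (wd M r (n + 1)) (wd M r (k + 2)) +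
            qq (-δ) * D.T.repr (CE D r k) (wd M r (n + 1)) +
            D.T.repr (CE D r (k - 2)) (wd M r (n + 1))) := by
        rw [hQ3]
        ring
      rw [h3]
      have h4 : Dle (-1) (qq (-δ) * D.T.repr (CE D r k) (wd M r (n + 1))) :=
        (Dle.qq (-δ)).mul_of_eq (dle_CE D _ _ _) (by omega)
      refine Dle.of_lead (((D.p_dle _ _).add hQ1).sub
        (((D.p_dle _ _).add (h4.mono (by omega))).add (dle_CE D _ _ _))) ?_
      rw [cf_sub, cf_add, cf_add, cf_add, h4 0 (by omega), hQ2,
        coeff_p hm D (by omega) (by omega), coeff_p hm D (by omega) hn,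
        coeff_CE hm D (by omega) hn]
      split_ifs <;> omega
  rwa [sub_eq_zero] at h0

end ne

end Pool.Agent.Helper35.KL
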