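import Pool.Agent.Helper35.KL.Di.Ne1

/-!
# Finite dihedral groups with unequal weights: ideals
-/

namespace Pool.Agent.Helper35.KL

section sp

variable {B : Type} {M : CoxeterMatrix B} {L : M.Group → ℤ} (hL : IsWeight M L)
variable {H : Type} [Ring H] [Algebra LP H] (D : KLD M L H)

/-- The span of the Kazhdan-Lusztig elements of a set. -/
noncomputable def sp (S : Set M.Group) : Submodule LP H := Submodule.span LP (D.C '' S)

theorem mem_sp {S : Set M.Group} {x : H} : x ∈ sp D S ↔ ∀ z, z ∉ S → D.C.repr x z = 0 := by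
  rw [sp, Module.Basis.mem_span_image]
  constructor
  · intro h z hz
    by_contra hne
    exact hz (h (Finsupp.mem_support_iff.2 hne))
  · intro h z hz
    by_contra hne
    exact Finsupp.mem_support_iff.1 hz (h z hne)

theorem C_mem_sp {S : Set M.Group} {z : M.Group} (hz : z ∈ S) : D.C z ∈ sp D S :=
  Submodule.subset_span ⟨z, hz, rfl⟩

include hL in
theorem sp_mulL {S : Set M.Group} (hS : ∀ b, ∀ z ∈ S, D.C (sm M b) * D.C z ∈ sp D S) (y : H)
    {x : H} (hx : x ∈ sp D S) : y * x ∈ sp D S := by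
  refine D.left_ideal_of_C hL (sp D S) ?_ y hx
  intro b x hx
  refine Submodule.span_induction (p := fun x _ => D.C (sm M b) * x ∈ sp D S)
    ?_ ?_ ?_ ?_ hx
  · rintro _ ⟨z, hz, rfl⟩
    exact hS b z hz
  · rw [mul_zero]
    exact Submodule.zero_mem _
  · intro u v _ _ hu hv
    rw [mul_add]
    exact Submodule.add_mem _ hu hv
  · intro c u _ hu
    rw [mul_smul_comm]
    exact Submodule.smul_mem _ _ hu

theorem sp_fl {S : Set M.Group} (hi : ∀ z ∈ S, z⁻¹ ∈ S) {x : H} (hx : x ∈ sp D S) :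
    D.fl x ∈ sp D S := by
  rw [mem_sp] at hx ⊢
  intro z hz
  rw [D.repr_C_fl]
  refine hx _ fun h => hz ?_
  have := hi _ h
  rwa [inv_inv] at this

include hL in
theorem sp_mulR {S : Set M.Group} (hS : ∀ b, ∀ z ∈ S, D.C (sm M b) * D.C z ∈ sp D S)
    (hi : ∀ z ∈ S, z⁻¹ ∈ S) (y : H) {x : H} (hx : x ∈ sp D S) : x * y ∈ sp D S := by
  have h1 : x * y = D.fl (D.fl y * D.fl x) := by rw [D.fl_mul, D.fl_fl, D.fl_fl]
  rw [h1]
  exact sp_fl D hi (sp_mulL hL D hS _ (sp_fl D hi hx))

theorem sp_sat {S : Set M.Group} {t : LP} (ht : t ≠ 0) {x : H} (hx : t • x ∈ sp D S) :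
    x ∈ sp D S := by
  rw [mem_sp] at hx ⊢
  intro z hz
  have h1 := hx z hz
  rw [map_smul, Finsupp.smul_apply, smul_eq_mul] at h1
  rcases mul_eq_zero.1 h1 with h | h
  · exact absurd h ht
  · exact h

include hL in
/-- Structure constants and ideals. -/
theorem h_sp {S : Set M.Group} (hS : ∀ b, ∀ z ∈ S, D.C (sm M b) * D.C z ∈ sp D S)
    (hi : ∀ z ∈ S, z⁻¹ ∈ S) {x y z : M.Group} (h : D.h x y z ≠ 0) (hxy : x ∈ S ∨ y ∈ S) :
    z ∈ S := by
  by_contra hz
  apply h
  rcases hxy with h1 | h1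
  · exact (mem_sp D).1 (sp_mulR hL D hS hi _ (C_mem_sp D h1)) z hz
  · exact (mem_sp D).1 (sp_mulL hL D hS _ (C_mem_sp D h1)) z hz

end sp

section ne

variable {M : CoxeterMatrix Bool} {K : ℕ} (hK : M false true = 2 * K + 2)
variable {L : M.Group → ℤ} (hL : IsWeight M L)
variable {H : Type} [Ring H] [Algebra LP H] (D : KLD M L H)
variable {s : Bool} (hs : L (sm M (!s)) < L (sm M s))

theorem nx_even (r : Bool) (k : ℕ) : nx r (2 * k) = r := by
  induction k with
  | zero => exact nx_zero r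
  | succ k ih => rw [show 2 * (k + 1) = 2 * k + 1 + 1 by ring, nx_succ, nx_succ, Bool.not_not, ih]

theorem nx_odd (r : Bool) (k : ℕ) : nx r (2 * k + 1) = !r := by
  rw [nx_succ, nx_even]

include hK in
theorem hm_of : M false true ≠ 0 := by omega

/-- The element next to the longest element that starts and ends with `s`. -/
noncomputable def wdd (M : CoxeterMatrix Bool) (s : Bool) (K : ℕ) : M.Group := wd M s (2 * K + 1)

theorem dd_inv : (wdd M s K)⁻¹ = wdd M s K := by
  rw [wdd, wd_inv, nx_odd, Bool.not_not]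

include hK in
theorem dd_ne_w0 : wdd M s K ≠ w0 M := ne_w0 (hm_of hK) (by omega)

include hK in
theorem dd_ne_one : wdd M s K ≠ 1 := wd_ne_one (hm_of hK) (by omega)

theorem not_ne (b : Bool) : (!b) ≠ b := by
  cases b <;> decide

include hK in
theorem dd_ne_sm : wdd M s K ≠ sm M (!s) := by
  intro h
  rw [← wd_one, wdd] at h
  rcases (wd_inj (hm_of hK) (by omega) (by omega) h).2 with h1 | h1 | h1
  · exact not_ne s h1.symm
  · omega
  · omega

/-- The two largest elements. -/
def Sd (M : CoxeterMatrix Bool) (s : Bool) (K : ℕ) : Set M.Group := {wdd M s K, w0 M}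

/-- All elements except `1` and the simple reflection of smaller weight. -/
def S1 (M : CoxeterMatrix Bool) (s : Bool) : Set M.Group := {z | z ≠ 1 ∧ z ≠ sm M (!s)}

theorem Sd_inv (z : M.Group) (hz : z ∈ Sd M s K) : z⁻¹ ∈ Sd M s K := by
  rcases hz with rfl | rfl
  · left
    exact dd_inv
  · right
    exact w0_inv

theorem S1_inv (z : M.Group) (hz : z ∈ S1 M s) : z⁻¹ ∈ S1 M s := by
  refine ⟨fun h => hz.1 (inv_eq_one.1 h), fun h => hz.2 ?_⟩
  rw [← inv_inv z, h, sm_inv]

include hK hL hs in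
/-- `C_t C_d = C_{w0}`. -/
theorem Ct_dd : D.C (sm M (!s)) * D.C (wdd M s K) = D.C (w0 M) := by
  have h := ne_U1 (hm_of hK) hL D (r := !s) (by rwa [Bool.not_not]) (k := 2 * K) (by omega)
  rw [Bool.not_not] at h
  rw [wdd, h, w0_eq (!s), hK]

include hK in
theorem dd_down : len M (sm M s * wdd M s K) + 1 = len M (wdd M s K) :=
  len_down (hm_of hK) (by omega)

include hK hL in
theorem Cs_dd : D.C (sm M s) * D.C (wdd M s K) =
    (qq (L (sm M s)) + qq (-L (sm M s))) • D.C (wdd M s K) := D.C_mul_C hL (dd_down hK)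

theorem bool_cases (s b : Bool) : b = s ∨ b = !s := by
  revert s b
  decide

include hK hL hs in
theorem Sd_mul (b : Bool) (z : M.Group) (hz : z ∈ Sd M s K) :
    D.C (sm M b) * D.C z ∈ sp D (Sd M s K) := by
  rcases hz with rfl | rfl
  · rcases bool_cases s b with rfl | rfl
    · rw [Cs_dd hK hL D]
      exact Submodule.smul_mem _ _ (C_mem_sp D (Or.inl rfl))
    · rw [Ct_dd hK hL D hs]
      exact C_mem_sp D (Or.inr rfl)
  · rw [D.C_mul_C hL (w0_down (hm_of hK) b)]
    exact Submodule.smul_mem _ _ (C_mem_sp D (Or.inr rfl))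

include hK in
theorem wd_mem_S1 {n : ℕ} (hn : n + 1 ≤ M false true) : wd M s (n + 1) ∈ S1 M s := by
  refine ⟨wd_ne_one (hm_of hK) hn, fun h => ?_⟩
  rw [← wd_one] at h
  rcases (wd_inj (hm_of hK) hn (by omega) h).2 with h1 | h1 | h1
  · exact not_ne s h1.symm
  · omega
  · have := (wd_inj (hm_of hK) hn (by omega) h).1
    omega

include hK in
theorem wd_mem_S1' {n : ℕ} (hn : n + 2 ≤ M false true) : wd M (!s) (n + 2) ∈ S1 M s := by
  refine ⟨wd_ne_one (hm_of hK) hn, fun h => ?_⟩
  have h1 := congrArg (len M) h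
  rw [len_wd (hm_of hK) hn, len_sm] at h1
  omega

include hK in
theorem CE_mem_S1 {n : ℕ} (hn : n ≤ M false true) : CE D s n ∈ sp D (S1 M s) := by
  cases n with
  | zero =>
    rw [CE_zero]
    exact Submodule.zero_mem _
  | succ n =>
    rw [CE_succ]
    exact C_mem_sp D (wd_mem_S1 hK hn)

include hK hL hs in
theorem S1_mul (b : Bool) (z : M.Group) (hz : z ∈ S1 M s) :
    D.C (sm M b) * D.C z ∈ sp D (S1 M s) := by
  have hm := hm_of hK
  by_cases hd : len M (sm M b * z) + 1 = len M z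
  · rw [D.C_mul_C hL hd]
    exact Submodule.smul_mem _ _ (C_mem_sp D hz)
  · have h0 : z ≠ w0 M := by
      rintro rfl
      exact hd (w0_down hm b)
    obtain ⟨r, n, hn, rfl⟩ := exists_mid hm hz.1 h0
    have hb : b = !r := by
      rcases bool_cases r b with rfl | rfl
      · exact absurd (len_down hm hn.le) hd
      · rfl
    rw [hb]
    rcases bool_cases s r with rfl | rfl
    · have h := ne_U1 hm hL D (r := !r) (by rwa [Bool.not_not]) (k := n) (by omega)
      rw [Bool.not_not] at h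
      rw [h]
      exact C_mem_sp D (wd_mem_S1' hK (by omega))
    · rw [Bool.not_not, ne_U2 hm hL D hs (by omega)]
      exact Submodule.add_mem _ (Submodule.add_mem _ (C_mem_sp D (wd_mem_S1 hK (by omega)))
        (Submodule.smul_mem _ _ (CE_mem_S1 hK D (by omega)))) (CE_mem_S1 hK D (by omega))

include hK hL hs in
theorem h_Sd {x y z : M.Group} (h : D.h x y z ≠ 0) (hxy : x ∈ Sd M s K ∨ y ∈ Sd M s K) :
    z ∈ Sd M s K := h_sp hL D (Sd_mul hK hL D hs) Sd_inv h hxy

include hK hL hs in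
theorem h_S1 {x y z : M.Group} (h : D.h x y z ≠ 0) (hxy : x ∈ S1 M s ∨ y ∈ S1 M s) :
    z ∈ S1 M s := h_sp hL D (S1_mul hK hL D hs) S1_inv h hxy

include hK hL hs in
/-- The recursion in steps of two. -/
theorem X_rec {n : ℕ} (hn : n + 3 ≤ M false true) :
    D.C (sm M s) * (D.C (sm M (!s)) * D.C (wd M s (n + 1))) = D.C (wd M s (n + 3)) +
      (qq (L (sm M s) - L (sm M (!s))) + qq (-(L (sm M s) - L (sm M (!s))))) •
        D.C (wd M s (n + 1)) + CE D s (n - 1) := by
  have hm := hm_of hK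
  have h := ne_U1 hm hL D (r := !s) (by rwa [Bool.not_not]) (k := n) (by omega)
  rw [Bool.not_not] at h
  rw [h, ne_U2 hm hL D hs hn, CE_succ]
  rfl

end ne

end Pool.Agent.Helper35.KL
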