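import Pool.Agent.Helper35.KL.Di.Ne2

/-!
# Finite dihedral groups with unequal weights: the one-dimensional character
-/

namespace Pool.Agent.Helper35.KL

/-- Division with control of the degree. -/
theorem Dle.of_mul {m n : ℤ} {x c : LP} (hc : Dle n c) (h1 : c.coeff n ≠ 0)
    (h : Dle (m + n) (x * c)) : Dle m x := by
  by_cases hx : x = 0
  · rw [hx]
    exact Dle.zero _
  · obtain ⟨k, hk1, hk2⟩ := exists_lead hx
    rcases le_or_gt k m with h2 | h2
    · exact hk2.mono h2
    · exfalso
      have h3 := h (k + n) (by omega)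
      rw [cf_mul_lead hk2 hc] at h3
      exact mul_ne_zero hk1 h1 h3

theorem C_mul_C_right {B : Type} {M : CoxeterMatrix B} {L : M.Group → ℤ} (hL : IsWeight M L)
    {H : Type} [Ring H] [Algebra LP H] (D : KLD M L H) {b : B} {z : M.Group}
    (h : len M (sm M b * z⁻¹) + 1 = len M z⁻¹) :
    D.C z * D.C (sm M b) = (qq (L (sm M b)) + qq (-L (sm M b))) • D.C z := by
  have h1 := congrArg D.fl (D.C_mul_C hL h)
  rwa [D.fl_mul, map_smul, D.fl_C, D.fl_C, sm_inv, inv_inv] at h1

section ne

variable {M : CoxeterMatrix Bool} {K : ℕ} (hK : M false true = 2 * K + 2)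
variable {L : M.Group → ℤ} (hL : IsWeight M L)
variable {H : Type} [Ring H] [Algebra LP H] (D : KLD M L H)
variable {s : Bool} (hs : L (sm M (!s)) < L (sm M s))

/-- The one-dimensional character. -/
noncomputable def chi (s : Bool) (K : ℕ) : H →ₗ[LP] LP :=
  (D.C.coord (wdd M s K)).comp (LinearMap.mulRight LP (D.C (wdd M s K)))

theorem chi_apply (x : H) :
    chi D s K x = D.C.repr (x * D.C (wdd M s K)) (wdd M s K) := rfl

include hK hL hs in
theorem chi_sub (y : H) :
    y * D.C (wdd M s K) - chi D s K y • D.C (wdd M s K) ∈ It D := by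
  rw [mem_It]
  intro z hz
  rw [map_sub, Finsupp.sub_apply, map_smul, Finsupp.smul_apply, Module.Basis.repr_self]
  by_cases hd : z = wdd M s K
  · rw [hd, Finsupp.single_eq_same, chi_apply, smul_eq_mul, mul_one, sub_self]
  · rw [Finsupp.single_eq_of_ne hd, smul_zero, sub_zero]
    refine (mem_sp D).1 (sp_mulL hL D (Sd_mul hK hL D hs) y (C_mem_sp D (Or.inl rfl))) z ?_
    rintro (h | h)
    · exact hd h
    · exact hz h

include hK hL hs in
theorem chi_mul (x y : H) : chi D s K (x * y) = chi D s K x * chi D s K y := by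
  have h1 := It_mulL (hm_of hK) hL D x (chi_sub hK hL D hs y)
  have h2 := (mem_It D).1 h1 _ (dd_ne_w0 (s := s) hK)
  rw [mul_sub, map_sub, Finsupp.sub_apply, mul_smul_comm, map_smul, Finsupp.smul_apply,
    ← mul_assoc, sub_eq_zero] at h2
  rw [chi_apply, h2, smul_eq_mul, mul_comm]
  rfl

theorem chi_one : chi D s K 1 = 1 := by
  rw [chi_apply, one_mul, Module.Basis.repr_self, Finsupp.single_eq_same]

include hK hL in
theorem chi_Cs : chi D s K (D.C (sm M s)) = qq (L (sm M s)) + qq (-L (sm M s)) := by
  rw [chi_apply, Cs_dd hK hL D, map_smul, Finsupp.smul_apply, Module.Basis.repr_self,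
    Finsupp.single_eq_same, smul_eq_mul, mul_one]

include hK hL hs in
theorem chi_Ct : chi D s K (D.C (sm M (!s))) = 0 := by
  rw [chi_apply, Ct_dd hK hL D hs, Module.Basis.repr_self,
    Finsupp.single_eq_of_ne (dd_ne_w0 hK)]

include hK hL in
theorem chi_w0 : chi D s K (D.C (w0 M)) = 0 := by
  rw [chi_apply]
  exact (mem_It D).1 (It_mulR (hm_of hK) hL D _ (C_mem_It D)) _ (dd_ne_w0 hK)

include hK hL hs in
theorem chi_downL {z : M.Group} (h : len M (sm M (!s) * z) + 1 = len M z) :
    chi D s K (D.C z) = 0 := by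
  have h1 := congrArg (chi D s K) (D.C_mul_C hL h)
  rw [chi_mul hK hL D hs, chi_Ct hK hL D hs, zero_mul, map_smul, smul_eq_mul] at h1
  rcases mul_eq_zero.1 h1.symm with h2 | h2
  · exact absurd h2 (KLD.qq_add_ne _ (hL.pos _))
  · exact h2

include hK hL hs in
theorem chi_downR {z : M.Group} (h : len M (sm M (!s) * z⁻¹) + 1 = len M z⁻¹) :
    chi D s K (D.C z) = 0 := by
  have h1 := congrArg (chi D s K) (C_mul_C_right hL D h)
  rw [chi_mul hK hL D hs, chi_Ct hK hL D hs, mul_zero, map_smul, smul_eq_mul] at h1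
  rcases mul_eq_zero.1 h1.symm with h2 | h2
  · exact absurd h2 (KLD.qq_add_ne _ (hL.pos _))
  · exact h2

variable {α β : ℕ} (ha : L (sm M s) = α) (hb : L (sm M (!s)) = β)

include hK hL hs ha hb in
/-- The values of the character on the elements that start and end with `s`. -/
theorem chi_odd (k : ℕ) : k ≤ K →
    Dle (α + k * (α - β)) (chi D s K (D.C (wd M s (2 * k + 1)))) ∧
      (chi D s K (D.C (wd M s (2 * k + 1)))).coeff (α + k * (α - β)) = (-1) ^ k := by
  have hα : (0 : ℤ) < α := by
    rw [← ha]
    exact hL.pos _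
  have hβ : (β : ℤ) < α := by rwa [← ha, ← hb]
  induction k using Nat.strong_induction_on with
  | h k ih =>
    intro hk
    match k with
    | 0 =>
      rw [mul_zero, zero_add, wd_one, chi_Cs hK hL D, ha, Nat.cast_zero, zero_mul, add_zero,
        pow_zero]
      exact ⟨tw_dle hα, tw_coeff hα⟩
    | k + 1 =>
      have h1 := congrArg (chi D s K) (X_rec hK hL D hs (n := 2 * k) (by omega))
      rw [chi_mul hK hL D hs, chi_mul hK hL D hs, chi_Ct hK hL D hs, zero_mul, mul_zero,
        map_add, map_add, map_smul, smul_eq_mul, ha, hb] at h1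
      obtain ⟨h2, h3⟩ := ih k (by omega) (by omega)
      have h4 : Dle (α + (k + 1 : ℕ) * (α - β) - 1) (chi D s K (CE D s (2 * k - 1))) := by
        match k with
        | 0 =>
          rw [show 2 * 0 - 1 = 0 from rfl, CE_zero, map_zero]
          exact Dle.zero _
        | k + 1 =>
          rw [show 2 * (k + 1) - 1 = 2 * k + 1 by omega, CE_succ]
          refine (ih k (by omega) (by omega)).1.mono ?_
          push_cast
          nlinarith
      have h5 : chi D s K (D.C (wd M s (2 * (k + 1) + 1))) =
          -((qq ((α : ℤ) - β) + qq (-((α : ℤ) - β))) * chi D s K (D.C (wd M s (2 * k + 1)))) -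
            chi D s K (CE D s (2 * k - 1)) := by
        have h6 : 2 * (k + 1) + 1 = 2 * k + 3 := by ring
        rw [h6]
        linear_combination -h1
      have hδ : (0 : ℤ) < (α : ℤ) - β := by omega
      have h7 : ((α : ℤ) + (k + 1 : ℕ) * (α - β)) = (α - β) + (α + k * (α - β)) := by
        push_cast
        ring
      have h8 := (tw_dle hδ).mul h2
      have h9 := cf_mul_lead (tw_dle hδ) h2
      rw [tw_coeff hδ, h3, one_mul] at h9
      rw [h5, h7]
      rw [h7] at h4
      refine ⟨h8.neg.sub (h4.mono (by omega)), ?_⟩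
      rw [cf_sub, cf_neg, h9, h4 _ (by omega), pow_succ]
      ring

include hK hL hs ha hb in
/-- The degrees of the values of the character. -/
theorem chi_dle {z : M.Group} (hz : z ≠ wdd M s K) :
    Dle (β + K * (α - β)) (chi D s K (D.C z)) := by
  have hβ : (β : ℤ) < α := by rwa [← ha, ← hb]
  have hK0 : (0 : ℤ) ≤ K * ((α : ℤ) - β) := mul_nonneg (by omega) (by omega)
  by_cases h1 : z = 1
  · rw [h1, D.C_one, chi_one]
    exact Dle.one (by omega)
  by_cases h0 : z = w0 M
  · rw [h0, chi_w0 hK hL D]
    exact Dle.zero _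
  have hm := hm_of hK
  obtain ⟨r, n, hn, rfl⟩ := exists_mid hm h1 h0
  rcases bool_cases s r with rfl | rfl
  · rcases Nat.even_or_odd' n with ⟨k, hk | hk⟩
    · subst hk
      have hkK : k ≠ K := by
        rintro rfl
        exact hz rfl
      have hkK' : k < K := by omega
      refine (chi_odd hK hL D hs ha hb k (by omega)).1.mono ?_
      have : (k : ℤ) + 1 ≤ K := by omega
      nlinarith
    · subst hk
      rw [chi_downR hK hL D hs]
      · exact Dle.zero _
      · have h2 := right_down hm (r := r) (n := 2 * k + 1) (by omega)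
        rwa [nx_odd] at h2
  · rw [chi_downL hK hL D hs (len_down hm hn.le)]
    exact Dle.zero _

include hK hL hs ha hb in
/-- The degrees of the structure constants at the element next to the longest element. -/
theorem hd_dle (hmid : ∀ x y z, z ∉ Sd M s K → Dle α (D.h x y z)) {x y : M.Group}
    (hxy : x ≠ wdd M s K ∨ y ≠ wdd M s K) :
    Dle (β + K * (α - β)) (D.h x y (wdd M s K)) := by
  classical
  have hβ : (β : ℤ) < α := by rwa [← ha, ← hb]
  have hK0 : (0 : ℤ) ≤ K * ((α : ℤ) - β) := mul_nonneg (by omega) (by omega)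
  have hd := chi_odd hK hL D hs ha hb K le_rfl
  refine Dle.of_mul hd.1 ?_ (c := chi D s K (D.C (wdd M s K))) ?_
  · rw [wdd, hd.2]
    exact pow_ne_zero _ (by norm_num)
  · have h1 := congrArg (chi D s K) (expand (D := D) (D.C x * D.C y))
    rw [map_sum, chi_mul hK hL D hs] at h1
    have h2 : ∀ z ∈ (D.C.repr (D.C x * D.C y)).support, z ≠ wdd M s K →
        Dle (β + K * (α - β) + (α + K * (α - β)))
          (chi D s K (D.C.repr (D.C x * D.C y) z • D.C z)) := by
      intro z _ hz
      rw [map_smul, smul_eq_mul]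
      by_cases h0 : z = w0 M
      · rw [h0, chi_w0 hK hL D, mul_zero]
        exact Dle.zero _
      · refine (hmid x y z ?_).mul_of_eq (chi_dle hK hL D hs ha hb hz) (by omega)
        rintro (h | h)
        · exact hz h
        · exact h0 h
    have hall : ∀ z, Dle (α + K * (α - β)) (chi D s K (D.C z)) := by
      intro z
      by_cases hz : z = wdd M s K
      · rw [hz]
        exact hd.1
      · exact (chi_dle hK hL D hs ha hb hz).mono (by omega)
    have h3 : Dle (β + K * (α - β) + (α + K * (α - β)))
        (chi D s K (D.C x) * chi D s K (D.C y)) := by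
      rcases hxy with h | h
      · exact (chi_dle hK hL D hs ha hb h).mul (hall y)
      · exact (hall x).mul_of_eq (chi_dle hK hL D hs ha hb h) (by omega)
    by_cases hsup : wdd M s K ∈ (D.C.repr (D.C x * D.C y)).support
    · rw [← Finset.add_sum_erase _ _ hsup, map_smul, smul_eq_mul] at h1
      have h4 : D.h x y (wdd M s K) * chi D s K (D.C (wdd M s K)) =
          chi D s K (D.C x) * chi D s K (D.C y) -
            ∑ z ∈ (D.C.repr (D.C x * D.C y)).support.erase (wdd M s K),
              chi D s K (D.C.repr (D.C x * D.C y) z • D.C z) := by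
        rw [h1, add_sub_cancel_right]
        rfl
      rw [h4]
      refine h3.sub (Dle.sum _ fun z hz => ?_)
      rw [Finset.mem_erase] at hz
      exact h2 z hz.2 hz.1
    · rw [KLD.h, Finsupp.notMem_support_iff.1 hsup, zero_mul]
      exact Dle.zero _

include hL in
theorem h_ddd (x : M.Group) : D.h x (wdd M s K) (wdd M s K) = chi D s K (D.C x) := rfl

include hK hL hs ha hb in
theorem a_dd (hmid : ∀ x y z, z ∉ Sd M s K → Dle α (D.h x y z)) :
    (D.a (wdd M s K) : ℤ) = α + K * (α - β) := by
  have hβ : (β : ℤ) < α := by rwa [← ha, ← hb]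
  have hK0 : (0 : ℤ) ≤ K * ((α : ℤ) - β) := mul_nonneg (by omega) (by omega)
  have hd := chi_odd hK hL D hs ha hb K le_rfl
  obtain ⟨N, hN⟩ : ∃ N : ℕ, (N : ℤ) = α + K * (α - β) :=
    ⟨((α : ℤ) + K * (α - β)).toNat, Int.toNat_of_nonneg (by omega)⟩
  rw [← hN]
  congr 1
  refine KLD.a_eq (fun x y => ?_) ⟨wdd M s K, wdd M s K, ?_⟩
  · by_cases h : x = wdd M s K ∧ y = wdd M s K
    · rw [h.1, h.2, hN]
      exact hd.1
    · have h1 : x ≠ wdd M s K ∨ y ≠ wdd M s K := by
        by_contra hne
        push Not at hne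
        exact h hne
      exact (hd_dle hK hL D hs ha hb hmid h1).mono (by omega)
  · rw [hN]
    have h2 := hd.2
    have h3 : (D.h (wdd M s K) (wdd M s K) (wdd M s K)).coeff (α + K * (α - β)) = (-1) ^ K := h2
    rw [h3]
    exact pow_ne_zero _ (by norm_num)

/-! ### The coefficients of the element next to the longest element -/

include hK hL hs in
theorem chi_Ts : chi D s K (D.T (sm M s)) = qq (L (sm M s)) := by
  have h1 : D.T (sm M s) = D.C (sm M s) - qq (-L (sm M s)) • 1 := by
    rw [D.C_sm hL, add_sub_cancel_right]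
  rw [h1, map_sub, map_smul, chi_Cs hK hL D, chi_one, smul_eq_mul, mul_one, add_sub_cancel_right]

include hK hL hs in
theorem chi_Tt : chi D s K (D.T (sm M (!s))) = -qq (-L (sm M (!s))) := by
  have h1 : D.T (sm M (!s)) = D.C (sm M (!s)) - qq (-L (sm M (!s))) • 1 := by
    rw [D.C_sm hL, add_sub_cancel_right]
  rw [h1, map_sub, map_smul, chi_Ct hK hL D hs, chi_one, smul_eq_mul, mul_one, zero_sub]

include hK hL hs in
theorem p_dd_up {y : M.Group} (hy : len M (sm M (!s) * y) = len M y + 1) :
    D.p (sm M (!s) * y) (wdd M s K) + qq (-L (sm M (!s))) * D.p y (wdd M s K) =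
      qq (L y - L (w0 M)) := by
  have h1 := D.repr_C_sm hL (!s) (D.C (wdd M s K)) y
  rw [Ct_dd hK hL D hs, KLD.fac_up hy] at h1
  rw [← p_w0 (hm_of hK) hL D]
  exact h1.symm

include hK hL hs in
theorem p_dd (y : M.Group) :
    (qq (L (sm M (!s))) + qq (-L (sm M (!s)))) * chi D s K (D.T (w0 M)) * D.p y (wdd M s K) =
      chi D s K (D.T (w0 M)) * qq (L y - L (w0 M)) - chi D s K (D.T y) := by
  have hm := hm_of hK
  suffices h : ∀ k w, len M (w0 M) - len M w ≤ k →
      (qq (L (sm M (!s))) + qq (-L (sm M (!s)))) * chi D s K (D.T (w0 M)) *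
        D.p w (wdd M s K) =
      chi D s K (D.T (w0 M)) * qq (L w - L (w0 M)) - chi D s K (D.T w) from h _ y le_rfl
  have hbase : (qq (L (sm M (!s))) + qq (-L (sm M (!s)))) * chi D s K (D.T (w0 M)) *
        D.p (w0 M) (wdd M s K) =
      chi D s K (D.T (w0 M)) * qq (L (w0 M) - L (w0 M)) - chi D s K (D.T (w0 M)) := by
    rw [D.p_zero, mul_zero, sub_self, qq_zero, mul_one, sub_self]
    · rw [len_w0 hm, wdd, len_wd hm (by omega)]
      omega
    · exact (dd_ne_w0 hK).symm
  intro k
  induction k with
  | zero =>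
    intro w hk
    have h1 := eq_w0_of_len hm (w := w) (le_antisymm (len_le_w0 hm w) (by omega))
    rw [h1]
    exact hbase
  | succ k ih =>
    intro w hk
    by_cases hw : w = w0 M
    · rw [hw]
      exact hbase
    · obtain ⟨r, hr⟩ := exists_up hm hw
      have h1 := ih (sm M r * w) (by omega)
      have hq : ∀ n : ℤ, (qq n * qq (-n) : LP) = 1 := KLD.qq_mul_neg
      rw [← D.T_sm_mul hr, chi_mul hK hL D hs, L_up hL hr] at h1
      rcases bool_cases s r with rfl | rfl
      · rw [chi_Ts hK hL D hs] at h1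
        rw [D.p_desc hL (dd_down hK) hr]
        have h2 : (qq (L (sm M r) + L w - L (w0 M)) : LP) =
            qq (L (sm M r)) * qq (L w - L (w0 M)) := by
          rw [← LaurentPolynomial.T_add]
          congr 1
          ring
        rw [h2] at h1
        have h3 := hq (L (sm M r))
        linear_combination qq (-L (sm M r)) * h1 +
          (chi D r K (D.T (w0 M)) * qq (L w - L (w0 M)) - chi D r K (D.T w)) * h3
      · rw [chi_Tt hK hL D hs] at h1
        have h4 := p_dd_up hK hL D hs hr
        have h2 : (qq (L (sm M (!s)) + L w - L (w0 M)) : LP) =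
            qq (L (sm M (!s))) * qq (L w - L (w0 M)) := by
          rw [← LaurentPolynomial.T_add]
          congr 1
          ring
        rw [h2] at h1
        have h3 := hq (L (sm M (!s)))
        have h5 : D.p w (wdd M s K) = qq (L (sm M (!s))) *
            (qq (L w - L (w0 M)) - D.p (sm M (!s) * w) (wdd M s K)) := by
          linear_combination (-(D.p w (wdd M s K))) * h3 + qq (L (sm M (!s))) * h4
        rw [h5]
        linear_combination (-qq (L (sm M (!s)))) * h1 +
          (chi D s K (D.T (w0 M)) * qq (L w - L (w0 M)) - chi D s K (D.T w)) * h3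

end ne

end Pool.Agent.Helper35.KL
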