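import Pool.Agent.Helper35.KL.Di.Ne3

/-!
# Finite dihedral groups with unequal weights: weights and the bound for `p`
-/

namespace Pool.Agent.Helper35.KL

section wt2

variable {M : CoxeterMatrix Bool} (hm : M false true ≠ 0) {L : M.Group → ℤ} (hL : IsWeight M L)

include hm hL in
theorem L_even (r : Bool) (k : ℕ) : 2 * k ≤ M false true →
    L (wd M r (2 * k)) = k * (L (sm M r) + L (sm M (!r))) := by
  induction k with
  | zero =>
    intro _
    rw [mul_zero, wd_zero, L_one hL]
    simp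
  | succ k ih =>
    intro hk
    have h1 := len_up hm (r := r) (n := 2 * k + 1) (by omega)
    have h2 := len_up hm (r := !r) (n := 2 * k) (by omega)
    rw [Bool.not_not] at h2
    rw [show 2 * (k + 1) = 2 * k + 1 + 1 by ring, wd_succ, L_up hL h1, wd_succ, Bool.not_not,
      L_up hL h2, ih (by omega)]
    push_cast
    ring

include hm hL in
theorem L_odd (r : Bool) (k : ℕ) (hk : 2 * k + 1 ≤ M false true) :
    L (wd M r (2 * k + 1)) = L (sm M r) + k * (L (sm M r) + L (sm M (!r))) := by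
  have h1 := len_up hm (r := r) (n := 2 * k) (by omega)
  rw [wd_succ, L_up hL h1, L_even hm hL _ _ (by omega), Bool.not_not]
  ring

include hm hL in
/-- If the weights are different, the order of the product is even. -/
theorem even_of_ne {s : Bool} (hs : L (sm M (!s)) < L (sm M s)) :
    ∃ K, M false true = 2 * K + 2 := by
  rcases Nat.even_or_odd' (M false true) with ⟨k, hk | hk⟩
  · exact ⟨k - 1, by omega⟩
  · exfalso
    have h1 := L_odd hm hL s k (by omega)
    have h2 := L_odd hm hL (!s) k (by omega)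
    rw [← hk, Bool.not_not] at h2
    rw [← hk, wd_top s (!s), h2] at h1
    have h3 : L (sm M (!s)) = L (sm M s) := by linear_combination h1
    omega

end wt2

section ne

variable {M : CoxeterMatrix Bool} {K : ℕ} (hK : M false true = 2 * K + 2)
variable {L : M.Group → ℤ} (hL : IsWeight M L)
variable {H : Type} [Ring H] [Algebra LP H] (D : KLD M L H)
variable {s : Bool} (hs : L (sm M (!s)) < L (sm M s))
variable {α β : ℕ} (ha : L (sm M s) = α) (hb : L (sm M (!s)) = β)

include hK hL ha hb in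
theorem L_w0_eq : L (w0 M) = (K + 1) * (α + β) := by
  have h1 := L_even (hm_of hK) hL s (K + 1) (by omega)
  rw [show 2 * (K + 1) = M false true by omega, ← w0_eq, ha, hb] at h1
  rw [h1]
  push_cast
  ring

include hK hL hs ha hb in
theorem chi_T_even (k : ℕ) : 2 * k ≤ M false true →
    chi D s K (D.T (wd M s (2 * k))) = (-1) ^ k * qq (k * (α - β)) := by
  have hm := hm_of hK
  induction k with
  | zero =>
    intro _
    rw [mul_zero, wd_zero, D.T_one, chi_one]
    simp
  | succ k ih =>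
    intro hk
    have h1 := len_up hm (r := s) (n := 2 * k + 1) (by omega)
    have h2 := len_up hm (r := !s) (n := 2 * k) (by omega)
    rw [Bool.not_not] at h2
    rw [show 2 * (k + 1) = 2 * k + 1 + 1 by ring, wd_succ, ← D.T_sm_mul h1, wd_succ,
      Bool.not_not, ← D.T_sm_mul h2, chi_mul hK hL D hs, chi_mul hK hL D hs,
      chi_Ts hK hL D hs, chi_Tt hK hL D hs, ih (by omega), ha, hb]
    have h3 : (qq ((k + 1 : ℕ) * ((α : ℤ) - β)) : LP) =
        qq α * (qq (-β) * qq (k * ((α : ℤ) - β))) := by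
      rw [← LaurentPolynomial.T_add, ← LaurentPolynomial.T_add]
      congr 1
      push_cast
      ring
    rw [h3]
    ring

include hK hL hs ha hb in
theorem p_one_dd : Dle (-(α + K * ((α : ℤ) - β))) (D.p 1 (wdd M s K)) := by
  have hβ : (β : ℤ) < α := by rwa [← ha, ← hb]
  have hβ0 : (0 : ℤ) < β := by
    rw [← hb]
    exact hL.pos _
  have hK0 : (0 : ℤ) ≤ K * (β : ℤ) := mul_nonneg (by omega) (by omega)
  have h1 := p_dd hK hL D hs 1
  have h2 : chi D s K (D.T (w0 M)) = (-1) ^ (K + 1) * qq ((K + 1) * ((α : ℤ) - β)) := by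
    have h3 := chi_T_even hK hL D hs ha hb (K + 1) (by omega)
    rw [show 2 * (K + 1) = M false true by omega, ← w0_eq] at h3
    rw [h3]
    push_cast
    rfl
  have h4 : ((-1 : LP) ^ (K + 1) * (-1) ^ (K + 1)) = 1 := by
    rw [← mul_pow]
    norm_num
  have h5 : (qq ((K + 1) * ((α : ℤ) - β)) * qq (-((K + 1) * ((α : ℤ) - β))) : LP) = 1 :=
    KLD.qq_mul_neg _
  rw [D.T_one, chi_one, L_one hL, h2, hb, zero_sub, L_w0_eq hK hL ha hb] at h1
  have h6 : D.p 1 (wdd M s K) * (qq (β : ℤ) + qq (-(β : ℤ))) =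
      qq (-((K + 1) * ((α : ℤ) + β))) -
        (-1) ^ (K + 1) * qq (-((K + 1) * ((α : ℤ) - β))) := by
    linear_combination ((-1 : LP) ^ (K + 1) * qq (-((K + 1) * ((α : ℤ) - β)))) * h1 -
      (D.p 1 (wdd M s K) * (qq (β : ℤ) + qq (-(β : ℤ))) -
        qq (-((K + 1) * ((α : ℤ) + β)))) *
        (h4 + (-1 : LP) ^ (K + 1) * (-1) ^ (K + 1) * (h5 - 1)) 
  refine Dle.of_mul (tw_dle hβ0) ?_ (c := qq (β : ℤ) + qq (-(β : ℤ))) ?_
  · rw [tw_coeff hβ0]
    exact one_ne_zero
  · rw [h6]
    have h7 : (-1 : LP) ^ (K + 1) * qq (-((K + 1) * ((α : ℤ) - β))) =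
        ((-1 : ℤ) ^ (K + 1)) • qq (-((K + 1) * ((α : ℤ) - β))) := by
      rw [zsmul_eq_mul]
      push_cast
      rfl
    rw [h7]
    refine ((Dle.qq _).mono ?_).sub (((Dle.qq _).zsmul _).mono ?_)
    · nlinarith
    · nlinarith

end ne

end Pool.Agent.Helper35.KL
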