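import Pool.Agent.Helper35.KL.Di.Ne4

/-!
# Finite dihedral groups with unequal weights: products of middle elements
-/

namespace Pool.Agent.Helper35.KL

section zi

variable {M : CoxeterMatrix Bool}

/-- The middle elements. -/
noncomputable def md (M : CoxeterMatrix Bool) (s : Bool) (i : Bool) (n : ℕ) : M.Group :=
  if i then wd M (!s) (n + 2) else wd M s (n + 1)

variable {L : M.Group → ℤ} {H : Type} [Ring H] [Algebra LP H] (D : KLD M L H)

/-- Integral combinations of middle elements that start with a given letter. -/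
def Zi (s : Bool) (K : ℕ) (i : Bool) : AddSubgroup H where
  carrier := {x | ∀ z, z ∉ Sd M s K → ∃ n : ℤ, D.C.repr x z = n • (1 : LP) ∧
    (n ≠ 0 → ∃ k, k + 3 ≤ M false true ∧ z = md M s i k)}
  add_mem' := by
    intro x y hx hy z hz
    obtain ⟨n, h1, h2⟩ := hx z hz
    obtain ⟨n', h3, h4⟩ := hy z hz
    refine ⟨n + n', ?_, ?_⟩
    · rw [map_add, Finsupp.add_apply, h1, h3, add_smul]
    · intro h
      by_cases hn : n = 0
      · exact h4 (by omega)
      · exact h2 hn
  zero_mem' := by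
    intro z _
    exact ⟨0, by simp, fun h => absurd rfl h⟩
  neg_mem' := by
    intro x hx z hz
    obtain ⟨n, h1, h2⟩ := hx z hz
    refine ⟨-n, ?_, fun h => h2 (by omega)⟩
    rw [map_neg, Finsupp.neg_apply, h1, neg_smul]

end zi

section ne

variable {M : CoxeterMatrix Bool} {K : ℕ} (hK : M false true = 2 * K + 2)
variable {L : M.Group → ℤ} (hL : IsWeight M L)
variable {H : Type} [Ring H] [Algebra LP H] (D : KLD M L H)
variable {s : Bool} (hs : L (sm M (!s)) < L (sm M s))
variable {α β : ℕ} (ha : L (sm M s) = α) (hb : L (sm M (!s)) = β)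

theorem md_false (n : ℕ) : md M s false n = wd M s (n + 1) := rfl

theorem md_true (n : ℕ) : md M s true n = wd M (!s) (n + 2) := rfl

theorem md_true' (n : ℕ) : md M s true n = sm M (!s) * md M s false n := by
  rw [md_true, md_false, wd_succ, Bool.not_not]

/-- The factor on the left or on the right of a middle element. -/
noncomputable def ct (s : Bool) (i : Bool) : H := if i then D.C (sm M (!s)) else 1

include hK hL hs in
theorem C_md (i : Bool) {n : ℕ} (hn : n + 2 ≤ M false true) :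
    D.C (md M s i n) = ct D s i * D.C (wd M s (n + 1)) := by
  cases i
  · rw [md_false, ct, if_neg (by decide), one_mul]
  · have h := ne_U1 (hm_of hK) hL D (r := !s) (by rwa [Bool.not_not]) hn
    rw [Bool.not_not] at h
    rw [md_true, ct, if_pos rfl, h]

include hK hL hs in
theorem C_right {k : ℕ} (hk : 2 * k + 2 ≤ M false true) :
    D.C (wd M s (2 * k + 2)) = D.C (wd M s (2 * k + 1)) * D.C (sm M (!s)) := by
  have h := ne_U1 (hm_of hK) hL D (r := !s) (by rwa [Bool.not_not]) hk
  rw [Bool.not_not] at h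
  have h1 := congrArg D.fl h
  rw [D.fl_mul, D.fl_C, D.fl_C, D.fl_C, sm_inv, wd_inv, wd_inv, nx_odd] at h1
  rw [show 2 * k + 2 = 2 * (k + 1) by ring, nx_even, Bool.not_not] at h1
  rw [show 2 * k + 2 = 2 * (k + 1) by ring, h1]

variable {D}

theorem sp_le_Zi {i : Bool} {x : H} (hx : x ∈ sp D (Sd M s K)) : x ∈ Zi D s K i := by
  intro z hz
  exact ⟨0, by rw [(mem_sp D).1 hx z hz, zero_smul], fun h => absurd rfl h⟩

include hK in
theorem C_mem_Zi {i : Bool} {k : ℕ} (hk : k + 3 ≤ M false true) :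
    D.C (md M s i k) ∈ Zi D s K i := by
  classical
  intro z _
  rw [Module.Basis.repr_self, Finsupp.single_apply]
  by_cases h : md M s i k = z
  · exact ⟨1, by rw [if_pos h, one_smul], fun _ => ⟨k, hk, h.symm⟩⟩
  · exact ⟨0, by rw [if_neg h, zero_smul], fun h => absurd rfl h⟩

include hK in
theorem C_mem_Zi' {k : ℕ} (hk : k + 1 ≤ M false true) :
    D.C (wd M s (k + 1)) ∈ Zi D s K false := by
  by_cases h3 : k + 3 ≤ M false true
  · exact C_mem_Zi hK (i := false) h3
  · refine sp_le_Zi (C_mem_sp D ?_)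
    by_cases h2 : k + 1 = M false true
    · right
      rw [h2]
      exact (w0_eq s).symm
    · left
      rw [wdd, show k + 1 = 2 * K + 1 by omega]

include hK in
theorem CE_mem_Zi {k : ℕ} (hk : k ≤ M false true) : CE D s k ∈ Zi D s K false := by
  cases k with
  | zero =>
    rw [CE_zero]
    exact AddSubgroup.zero_mem _
  | succ k =>
    rw [CE_succ]
    exact C_mem_Zi' hK hk

include hK in
/-- Induction for integral combinations. -/
theorem Zi_ind {i : Bool} {x : H} (hx : x ∈ Zi D s K i) (f : H →ₗ[LP] H) (P : AddSubgroup H)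
    (h1 : ∀ k, k + 3 ≤ M false true → f (D.C (md M s i k)) ∈ P)
    (h2 : ∀ v ∈ sp D (Sd M s K), f v ∈ P) : f x ∈ P := by
  rw [expand (D := D) x, map_sum]
  refine AddSubgroup.sum_mem _ fun z _ => ?_
  by_cases hz : z ∈ Sd M s K
  · exact h2 _ (Submodule.smul_mem _ _ (C_mem_sp D hz))
  · obtain ⟨n, h3, h4⟩ := hx z hz
    rw [h3, smul_assoc, one_smul, map_zsmul]
    by_cases hn : n = 0
    · rw [hn, zero_smul]
      exact AddSubgroup.zero_mem _
    · obtain ⟨k, hk, rfl⟩ := h4 hn
      exact AddSubgroup.zsmul_mem _ (h1 k hk) _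

include hK hL hs in
theorem ct_mul_Zi (i : Bool) {x : H} (hx : x ∈ Zi D s K false) :
    ct D s i * x ∈ Zi D s K i := by
  refine Zi_ind hK hx (LinearMap.mulLeft LP (ct D s i)) (Zi D s K i) ?_ ?_
  · intro k hk
    rw [LinearMap.mulLeft_apply, md_false, ← C_md hK hL D hs i (by omega)]
    exact C_mem_Zi hK hk
  · intro v hv
    exact sp_le_Zi (sp_mulL hL D (Sd_mul hK hL D hs) _ hv)

/-- The operator of the recursion. -/
noncomputable def Xop (D : KLD M L H) (s : Bool) (δ : ℤ) : H →ₗ[LP] H :=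
  (LinearMap.mulLeft LP (D.C (sm M s))).comp (LinearMap.mulLeft LP (D.C (sm M (!s)))) -
    (qq δ + qq (-δ)) • LinearMap.id

theorem Xop_apply (δ : ℤ) (x : H) : Xop D s δ x =
    D.C (sm M s) * (D.C (sm M (!s)) * x) - (qq δ + qq (-δ)) • x := rfl

include hK hL hs in
theorem Xop_sp (δ : ℤ) {x : H} (hx : x ∈ sp D (Sd M s K)) : Xop D s δ x ∈ sp D (Sd M s K) := by
  rw [Xop_apply]
  have h := sp_mulL hL D (Sd_mul hK hL D hs)
  exact Submodule.sub_mem _ (h _ (h _ hx)) (Submodule.smul_mem _ _ hx)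

include hK hL hs ha hb in
theorem Xop_Zi {x : H} (hx : x ∈ Zi D s K false) :
    Xop D s ((α : ℤ) - β) x ∈ Zi D s K false := by
  refine Zi_ind hK hx (Xop D s ((α : ℤ) - β)) (Zi D s K false) ?_ ?_
  · intro k hk
    have h1 := X_rec hK hL D hs hk
    rw [ha, hb] at h1
    rw [Xop_apply, md_false, h1, add_sub_right_comm, add_sub_cancel_right]
    exact AddSubgroup.add_mem _ (C_mem_Zi' hK (by omega)) (CE_mem_Zi hK (by omega))
  · intro v hv
    exact sp_le_Zi (Xop_sp hK hL hs _ hv)

include hK hL hs ha hb in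
/-- Products with the elements that start and end with `s`. -/
theorem AB (k : ℕ) : k ≤ K → ∀ v ∈ Zi D s K false, ∃ u ∈ Zi D s K false,
    D.C (wd M s (2 * k + 1)) * v - (qq (α : ℤ) + qq (-α)) • u ∈ sp D (Sd M s K) ∧
    D.C (wd M s (2 * k + 1)) * (D.C (sm M (!s)) * v) -
      D.C (sm M s) * (D.C (sm M (!s)) * u) ∈ sp D (Sd M s K) := by
  have hI : ∀ y : H, ∀ {x : H}, x ∈ sp D (Sd M s K) → y * x ∈ sp D (Sd M s K) :=
    fun y _ h => sp_mulL hL D (Sd_mul hK hL D hs) y h
  induction k using Nat.strong_induction_on with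
  | h k ih =>
    intro hk v hv
    match k with
    | 0 =>
      refine ⟨v, hv, ?_, ?_⟩
      · rw [mul_zero, zero_add, wd_one]
        refine Zi_ind hK hv (LinearMap.mulLeft LP (D.C (sm M s)) -
          (qq (α : ℤ) + qq (-α)) • LinearMap.id) (sp D (Sd M s K)).toAddSubgroup ?_ ?_
        · intro n hn
          have h1 := D.C_mul_C hL (len_down (hm_of hK) (r := s) (n := n) (by omega))
          rw [ha] at h1
          rw [LinearMap.sub_apply, LinearMap.mulLeft_apply, LinearMap.smul_apply,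
            LinearMap.id_apply, md_false, h1, sub_self]
          exact Submodule.zero_mem _
        · intro x hx
          exact Submodule.sub_mem _ (hI _ hx) (Submodule.smul_mem _ _ hx)
      · rw [mul_zero, zero_add, wd_one, sub_self]
        exact Submodule.zero_mem _
    | k + 1 =>
      obtain ⟨u, hu, hu1, hu2⟩ := ih k (by omega) (by omega) v hv
      obtain ⟨u', hu', hu1', hu2'⟩ : ∃ u' ∈ Zi D s K false,
          CE D s (2 * k - 1) * v - (qq (α : ℤ) + qq (-α)) • u' ∈ sp D (Sd M s K) ∧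
          CE D s (2 * k - 1) * (D.C (sm M (!s)) * v) -
            D.C (sm M s) * (D.C (sm M (!s)) * u') ∈ sp D (Sd M s K) := by
        match k with
        | 0 =>
          refine ⟨0, AddSubgroup.zero_mem _, ?_, ?_⟩
          · rw [show 2 * 0 - 1 = 0 from rfl, CE_zero, zero_mul, smul_zero, sub_zero]
            exact Submodule.zero_mem _
          · rw [show 2 * 0 - 1 = 0 from rfl, CE_zero, zero_mul, mul_zero, mul_zero, sub_zero]
            exact Submodule.zero_mem _
        | k + 1 =>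
          rw [show 2 * (k + 1) - 1 = 2 * k + 1 by omega, CE_succ]
          exact ih k (by omega) (by omega) v hv
      have h1 := X_rec hK hL D hs (n := 2 * k) (by omega)
      rw [ha, hb] at h1
      have h2 : D.C (wd M s (2 * (k + 1) + 1)) =
          D.C (sm M s) * (D.C (sm M (!s)) * D.C (wd M s (2 * k + 1))) -
            (qq ((α : ℤ) - β) + qq (-((α : ℤ) - β))) • D.C (wd M s (2 * k + 1)) -
            CE D s (2 * k - 1) := by
        rw [show 2 * (k + 1) + 1 = 2 * k + 3 by ring, h1]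
        abel
      refine ⟨Xop D s ((α : ℤ) - β) u - u',
        AddSubgroup.sub_mem _ (Xop_Zi hK hL hs ha hb hu) hu', ?_, ?_⟩
      · have h3 : D.C (wd M s (2 * (k + 1) + 1)) * v -
            (qq (α : ℤ) + qq (-α)) • (Xop D s ((α : ℤ) - β) u - u') =
            Xop D s ((α : ℤ) - β)
              (D.C (wd M s (2 * k + 1)) * v - (qq (α : ℤ) + qq (-α)) • u) -
            (CE D s (2 * k - 1) * v - (qq (α : ℤ) + qq (-α)) • u') := by
          rw [h2, map_sub, map_smul, Xop_apply, Xop_apply, sub_mul, sub_mul, smul_sub,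
            smul_mul_assoc]
          simp only [mul_assoc]
          abel
        rw [h3]
        exact Submodule.sub_mem _ (Xop_sp hK hL hs _ hu1) hu1'
      · have h3 : D.C (wd M s (2 * (k + 1) + 1)) * (D.C (sm M (!s)) * v) -
            D.C (sm M s) * (D.C (sm M (!s)) * (Xop D s ((α : ℤ) - β) u - u')) =
            Xop D s ((α : ℤ) - β) (D.C (wd M s (2 * k + 1)) * (D.C (sm M (!s)) * v) -
              D.C (sm M s) * (D.C (sm M (!s)) * u)) -
            (CE D s (2 * k - 1) * (D.C (sm M (!s)) * v) -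
              D.C (sm M s) * (D.C (sm M (!s)) * u')) := by
          rw [h2, Xop_apply, Xop_apply, sub_mul, sub_mul, smul_mul_assoc]
          simp only [mul_assoc, mul_sub, mul_smul_comm, smul_sub]
          abel
        rw [h3]
        exact Submodule.sub_mem _ (Xop_sp hK hL hs _ hu2) hu2'

include hK hL hs ha hb in
/-- Products of middle elements. -/
theorem mid_form (i : Bool) {k l : ℕ} (hk : 2 * k + 3 ≤ M false true)
    (hl : l + 3 ≤ M false true) : ∃ u ∈ Zi D s K i, ∃ u' ∈ Zi D s K i,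
    D.C (md M s i (2 * k)) * D.C (md M s false l) - (qq (α : ℤ) + qq (-α)) • u ∈
      sp D (Sd M s K) ∧
    D.C (md M s i (2 * k)) * D.C (md M s true l) -
      (u' + (qq ((α : ℤ) - β) + qq (-((α : ℤ) - β))) • u) ∈ sp D (Sd M s K) ∧
    D.C (md M s i (2 * k + 1)) * D.C (md M s false l) -
      (u' + (qq ((α : ℤ) - β) + qq (-((α : ℤ) - β))) • u) ∈ sp D (Sd M s K) ∧
    D.C (md M s i (2 * k + 1)) * D.C (md M s true l) -
      (qq (β : ℤ) + qq (-β)) • (u' + (qq ((α : ℤ) - β) + qq (-((α : ℤ) - β))) • u) ∈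
      sp D (Sd M s K) := by
  have hI : ∀ y : H, ∀ {x : H}, x ∈ sp D (Sd M s K) → y * x ∈ sp D (Sd M s K) :=
    fun y _ h => sp_mulL hL D (Sd_mul hK hL D hs) y h
  obtain ⟨u, hu, hu1, hu2⟩ := AB hK hL hs ha hb k (by omega) (D.C (wd M s (l + 1)))
    (C_mem_Zi' hK (by omega))
  refine ⟨ct D s i * u, ct_mul_Zi hK hL hs i hu, ct D s i * Xop D s ((α : ℤ) - β) u,
    ct_mul_Zi hK hL hs i (Xop_Zi hK hL hs ha hb hu), ?_⟩
  have hX : ct D s i * Xop D s ((α : ℤ) - β) u +
      (qq ((α : ℤ) - β) + qq (-((α : ℤ) - β))) • (ct D s i * u) =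
      ct D s i * (D.C (sm M s) * (D.C (sm M (!s)) * u)) := by
    rw [Xop_apply, mul_sub, mul_smul_comm, sub_add_cancel]
  rw [hX]
  have e0 : D.C (md M s i (2 * k)) = ct D s i * D.C (wd M s (2 * k + 1)) :=
    C_md hK hL D hs i (by omega)
  have e1 : D.C (md M s i (2 * k + 1)) =
      ct D s i * (D.C (wd M s (2 * k + 1)) * D.C (sm M (!s))) := by
    rw [← C_right hK hL D hs (by omega)]
    exact C_md hK hL D hs i (by omega)
  have e2 : D.C (md M s false l) = D.C (wd M s (l + 1)) := rfl
  have e3 : D.C (md M s true l) = D.C (sm M (!s)) * D.C (wd M s (l + 1)) := by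
    have h := C_md hK hL D hs true (n := l) (by omega)
    rwa [ct, if_pos rfl] at h
  have e4 : D.C (sm M (!s)) * D.C (sm M (!s)) =
      (qq (β : ℤ) + qq (-β)) • D.C (sm M (!s)) := by
    have h := D.C_mul_C hL (b := !s) (w := sm M (!s)) (by rw [sm_sm, len_one, len_sm])
    rwa [hb] at h
  refine ⟨?_, ?_, ?_, ?_⟩
  · rw [e0, e2, mul_assoc, ← mul_smul_comm, ← mul_sub]
    exact hI _ hu1
  · rw [e0, e3, mul_assoc, ← mul_sub]
    exact hI _ hu2
  · rw [e1, e2, mul_assoc, mul_assoc, ← mul_sub]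
    exact hI _ hu2
  · have h5 : ct D s i * (D.C (wd M s (2 * k + 1)) * D.C (sm M (!s))) *
        (D.C (sm M (!s)) * D.C (wd M s (l + 1))) = (qq (β : ℤ) + qq (-β)) •
        (ct D s i * (D.C (wd M s (2 * k + 1)) * (D.C (sm M (!s)) * D.C (wd M s (l + 1))))) := by
      have h6 : ct D s i * (D.C (wd M s (2 * k + 1)) * D.C (sm M (!s))) *
          (D.C (sm M (!s)) * D.C (wd M s (l + 1))) =
          ct D s i * (D.C (wd M s (2 * k + 1)) *
            ((D.C (sm M (!s)) * D.C (sm M (!s))) * D.C (wd M s (l + 1)))) := by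
        simp only [mul_assoc]
      rw [h6, e4, smul_mul_assoc, mul_smul_comm, mul_smul_comm]
    rw [e1, e3, h5, ← smul_sub, ← mul_sub]
    exact Submodule.smul_mem _ _ (hI _ hu2)

end ne

end Pool.Agent.Helper35.KL
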