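import Pool.Agent.Helper35.KL.Di.Ne5

/-!
# Finite dihedral groups with unequal weights: the function `a`
-/

namespace Pool.Agent.Helper35.KL

section ne

variable {M : CoxeterMatrix Bool} {K : ℕ} (hK : M false true = 2 * K + 2)
variable {L : M.Group → ℤ} (hL : IsWeight M L)
variable {H : Type} [Ring H] [Algebra LP H] (D : KLD M L H)
variable {s : Bool} (hs : L (sm M (!s)) < L (sm M s))
variable {α β : ℕ} (ha : L (sm M s) = α) (hb : L (sm M (!s)) = β)

/-- The elements are `1`, the smaller simple reflection, middle elements and the two largest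
elements. -/
theorem cls (hK : M false true = 2 * K + 2) (s : Bool) (z : M.Group) :
    z = 1 ∨ z = sm M (!s) ∨ (∃ i n, n + 3 ≤ M false true ∧ z = md M s i n) ∨
      z ∈ Sd M s K := by
  by_cases h1 : z = 1
  · exact Or.inl h1
  by_cases h0 : z = w0 M
  · exact Or.inr (Or.inr (Or.inr (Or.inr h0)))
  obtain ⟨r, n, hn, rfl⟩ := exists_mid (hm_of hK) h1 h0
  rcases bool_cases s r with rfl | rfl
  · by_cases hd : n + 1 = 2 * K + 1
    · right
      right
      right
      left
      rw [wdd, hd]
    · exact Or.inr (Or.inr (Or.inl ⟨false, n, by omega, rfl⟩))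
  · cases n with
    | zero =>
      right
      left
      rw [wd_one]
    | succ n => exact Or.inr (Or.inr (Or.inl ⟨true, n, by omega, rfl⟩))

include hK in
theorem md_ne_one {i : Bool} {n : ℕ} (hn : n + 3 ≤ M false true) : md M s i n ≠ 1 := by
  cases i
  · exact wd_ne_one (hm_of hK) (by omega)
  · exact wd_ne_one (hm_of hK) (by omega)

include hK in
theorem md_mem_S1 {i : Bool} {n : ℕ} (hn : n + 3 ≤ M false true) : md M s i n ∈ S1 M s := by
  cases i
  · exact wd_mem_S1 hK (by omega)
  · exact wd_mem_S1' hK (by omega)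

include hK in
theorem md_ne_w0 {i : Bool} {n : ℕ} (hn : n + 3 ≤ M false true) : md M s i n ≠ w0 M := by
  cases i
  · exact ne_w0 (hm_of hK) (by omega)
  · exact ne_w0 (hm_of hK) (by omega)

include hK in
theorem md_notMem {i : Bool} {n : ℕ} (hn : n + 3 ≤ M false true) : md M s i n ∉ Sd M s K := by
  rintro (h | h)
  · cases i
    · have h1 := congrArg (len M) h
      rw [md_false, wdd, len_wd (hm_of hK) (by omega), len_wd (hm_of hK) (by omega)] at h1
      omega
    · rw [md_true, wdd] at h
      rcases (wd_inj (hm_of hK) (by omega) (by omega) h).2 with h1 | h1 | h1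
      · exact not_ne s h1
      · omega
      · omega
  · exact md_ne_w0 hK hn h

/-- The first letter of a middle element. -/
def fl1 (s i : Bool) : Bool := if i then !s else s

include hK in
theorem md_down {i : Bool} {n : ℕ} (hn : n + 3 ≤ M false true) :
    len M (sm M (fl1 s i) * md M s i n) + 1 = len M (md M s i n) := by
  cases i
  · exact len_down (hm_of hK) (by omega)
  · exact len_down (hm_of hK) (by omega)

include hK in
theorem md_right {i : Bool} {n : ℕ} (hn : n + 3 ≤ M false true) :
    len M (sm M (nx s n) * (md M s i n)⁻¹) + 1 = len M (md M s i n)⁻¹ := by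
  cases i
  · exact right_down (hm_of hK) (by omega)
  · have h := right_down (hm_of hK) (r := !s) (n := n + 1) (by omega)
    rwa [nx_succ, nx_not, Bool.not_not] at h

include hK hL hs hb in
/-- Products with the smaller simple reflection. -/
theorem h_t_dle (y z : M.Group) : Dle β (D.h (sm M (!s)) y z) := by
  classical
  have hβ0 : (0 : ℤ) < β := by
    rw [← hb]
    exact hL.pos _
  have hm := hm_of hK
  by_cases hy1 : y = 1
  · rw [hy1]
    intro k hk
    exact h_one_right D _ z k (by omega)
  by_cases hd : len M (sm M (!s) * y) + 1 = len M y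
  · rw [KLD.h, D.C_mul_C hL hd, hb, map_smul, Finsupp.smul_apply, smul_eq_mul]
    refine (tw_dle hβ0).mul_of_eq (n := 0) ?_ (by omega)
    rw [Module.Basis.repr_self, Finsupp.single_apply]
    split_ifs
    · exact Dle.one le_rfl
    · exact Dle.zero _
  · have hy0 : y ≠ w0 M := by
      rintro rfl
      exact hd (w0_down hm _)
    obtain ⟨r, n, hn, rfl⟩ := exists_mid hm hy1 hy0
    rcases bool_cases s r with rfl | rfl
    · have h := ne_U1 hm hL D (r := !r) (by rwa [Bool.not_not]) (k := n) (by omega)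
      rw [Bool.not_not] at h
      rw [KLD.h, h, Module.Basis.repr_self, Finsupp.single_apply]
      split_ifs
      · exact Dle.one hβ0.le
      · exact Dle.zero _
    · exact absurd (len_down hm hn.le) hd

include hK hL hs ha hb in
/-- The structure constants of middle elements. -/
theorem cf_form (i : Bool) {k l : ℕ} (hk : 2 * k + 3 ≤ M false true)
    (hl : l + 3 ≤ M false true) {z : M.Group} (hz : z ∉ Sd M s K) :
    ∃ c : ℤ, (c ≠ 0 → ∃ n, n + 3 ≤ M false true ∧ z = md M s i n) ∧
      D.h (md M s i (2 * k)) (md M s false l) z = c • (qq (α : ℤ) + qq (-α)) ∧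
      Dle (α - 1) (D.h (md M s i (2 * k)) (md M s true l) z) ∧
      Dle (α - 1) (D.h (md M s i (2 * k + 1)) (md M s false l) z) ∧
      Dle α (D.h (md M s i (2 * k + 1)) (md M s true l) z) ∧
      (D.h (md M s i (2 * k + 1)) (md M s true l) z).coeff α = c := by
  have hβα : (β : ℤ) < α := by rwa [← ha, ← hb]
  have hβ0 : (0 : ℤ) < β := by
    rw [← hb]
    exact hL.pos _
  have hδ : (0 : ℤ) < (α : ℤ) - β := by omega
  obtain ⟨u, hu, u', hu', h1, h2, h3, h4⟩ := mid_form hK hL (D := D) hs ha hb i hk hl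
  obtain ⟨c, hc1, hc2⟩ := hu z hz
  obtain ⟨c', hc1', -⟩ := hu' z hz
  have e1 := (mem_sp D).1 h1 z hz
  have e2 := (mem_sp D).1 h2 z hz
  have e3 := (mem_sp D).1 h3 z hz
  have e4 := (mem_sp D).1 h4 z hz
  rw [map_sub, Finsupp.sub_apply, sub_eq_zero] at e1 e2 e3 e4
  rw [map_smul, Finsupp.smul_apply, hc1] at e1
  rw [map_add, Finsupp.add_apply, map_smul, Finsupp.smul_apply, hc1, hc1'] at e2 e3
  rw [map_smul, Finsupp.smul_apply, map_add, Finsupp.add_apply, map_smul, Finsupp.smul_apply,
    hc1, hc1'] at e4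
  have hd : Dle ((α : ℤ) - β) (c' • (1 : LP) +
      (qq ((α : ℤ) - β) + qq (-((α : ℤ) - β))) • c • (1 : LP)) := by
    refine ((Dle.one hδ.le).zsmul _).add ?_
    rw [smul_eq_mul]
    exact (tw_dle hδ).mul_of_eq ((Dle.one le_rfl).zsmul c) (by omega)
  have hd2 : (c' • (1 : LP) +
      (qq ((α : ℤ) - β) + qq (-((α : ℤ) - β))) • c • (1 : LP)).coeff ((α : ℤ) - β) = c := by
    have h5 := cf_mul_lead (tw_dle hδ) ((Dle.one le_rfl).zsmul c)
    rw [add_zero, tw_coeff hδ, cf_zsmul, cf_one, if_pos rfl, mul_one, one_mul] at h5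
    rw [cf_add, smul_eq_mul, h5, cf_zsmul, cf_one, if_neg (by omega), mul_zero, zero_add]
  refine ⟨c, hc2, ?_, ?_, ?_, ?_, ?_⟩
  · rw [KLD.h, e1, smul_comm, smul_eq_mul, mul_one]
  · rw [KLD.h, e2]
    exact hd.mono (by omega)
  · rw [KLD.h, e3]
    exact hd.mono (by omega)
  · rw [KLD.h, e4, smul_eq_mul]
    exact (tw_dle hβ0).mul_of_eq hd (by omega)
  · rw [KLD.h, e4, smul_eq_mul]
    have h5 := cf_mul_lead (tw_dle hβ0) hd
    rw [tw_coeff hβ0, hd2, one_mul, show (β : ℤ) + (α - β) = α by ring] at h5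
    exact h5

include hK hL hs ha hb in
theorem hmid (x y z : M.Group) (hz : z ∉ Sd M s K) : Dle α (D.h x y z) := by
  have hβα : (β : ℤ) < α := by rwa [← ha, ← hb]
  have hβ0 : (0 : ℤ) < β := by
    rw [← hb]
    exact hL.pos _
  by_cases h0 : D.h x y z = 0
  · rw [h0]
    exact Dle.zero _
  rcases cls hK s x with rfl | rfl | ⟨i, n, hn, rfl⟩ | hx
  · intro k hk
    exact h_one_left D y z k (by omega)
  · exact (h_t_dle hK hL D hs hb y z).mono hβα.le
  · rcases cls hK s y with rfl | rfl | ⟨i', l, hl, rfl⟩ | hy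
    · intro k hk
      exact h_one_right D _ z k (by omega)
    · rw [D.h_inv, sm_inv]
      exact (h_t_dle hK hL D hs hb _ _).mono hβα.le
    · rcases Nat.even_or_odd' n with ⟨k, hk | hk⟩
      · subst hk
        obtain ⟨c, -, h1, h2, h3, h4, -⟩ := cf_form hK hL D hs ha hb i hn hl hz
        cases i'
        · rw [h1]
          exact (tw_dle (by omega)).zsmul _
        · exact h2.mono (by omega)
      · subst hk
        obtain ⟨c, -, h1, h2, h3, h4, -⟩ :=
          cf_form hK hL D hs ha hb i (k := k) (by omega) hl hz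
        cases i'
        · exact h3.mono (by omega)
        · exact h4
    · exact absurd (h_Sd hK hL D hs h0 (Or.inr hy)) hz
  · exact absurd (h_Sd hK hL D hs h0 (Or.inl hx)) hz

include hK hL hs hb in
theorem a_t : D.a (sm M (!s)) = β := by
  have hβ0 : (0 : ℤ) < β := by
    rw [← hb]
    exact hL.pos _
  refine KLD.a_eq (fun x y => ?_) ⟨sm M (!s), sm M (!s), ?_⟩
  · by_cases h0 : D.h x y (sm M (!s)) = 0
    · rw [h0]
      exact Dle.zero _
    · have hx : x ∉ S1 M s := fun h => (h_S1 hK hL D hs h0 (Or.inl h)).2 rfl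
      have hx' : x = 1 ∨ x = sm M (!s) := by
        by_contra hne
        push Not at hne
        exact hx hne
      rcases hx' with rfl | rfl
      · intro k hk
        exact h_one_left D y _ k (by omega)
      · exact h_t_dle hK hL D hs hb y _
  · rw [h_sm_self hL D, hb, tw_coeff hβ0]
    exact one_ne_zero

include hK hL hs ha hb in
theorem a_md {i : Bool} {n : ℕ} (hn : n + 3 ≤ M false true) : D.a (md M s i n) = α := by
  have hα0 : (0 : ℤ) < α := by
    rw [← ha]
    exact hL.pos _
  have hm := hm_of hK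
  refine KLD.a_eq (fun x y => hmid hK hL D hs ha hb x y _ (md_notMem hK hn)) ?_
  cases i
  · refine ⟨sm M s, md M s false n, ?_⟩
    rw [md_false, h_self hL D (len_down hm (by omega)), ha, tw_coeff hα0]
    exact one_ne_zero
  · refine ⟨md M s true 0, md M s false n, ?_⟩
    have h1 : D.C (md M s true 0) * D.C (md M s false n) =
        (qq (α : ℤ) + qq (-α)) • D.C (md M s true n) := by
      have h2 := D.C_mul_C hL (len_down hm (r := s) (n := n) (by omega))
      rw [ha] at h2
      rw [C_md hK hL D hs true (n := 0) (by omega), C_md hK hL D hs true (n := n) (by omega),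
        zero_add, wd_one, mul_assoc, md_false, h2, mul_smul_comm]
    rw [KLD.h, h1, map_smul, Finsupp.smul_apply, Module.Basis.repr_self,
      Finsupp.single_eq_same, smul_eq_mul, mul_one, tw_coeff hα0]
    exact one_ne_zero

include hK hL hs ha hb in
theorem a_wdd : (D.a (wdd M s K) : ℤ) = α + K * (α - β) :=
  a_dd hK hL D hs ha hb (hmid hK hL D hs ha hb)

/-! ### The coefficients at the identity -/

include hK hL ha in
theorem p_one_s {n : ℕ} (hn : n + 1 ≤ M false true) :
    D.p 1 (wd M s (n + 1)) = qq (-α) * D.p (sm M s) (wd M s (n + 1)) := by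
  have h1 : len M (sm M s * 1) = len M 1 + 1 := by rw [mul_one, len_sm, len_one]
  rw [D.p_desc hL (len_down (hm_of hK) hn) h1, ha, mul_one]

include hK hL hs ha hb in
theorem p_one_t {n : ℕ} (hn : n + 3 ≤ M false true) :
    D.p 1 (md M s true n) = qq (-α) * (qq (-β) * D.p (sm M s) (wd M s (n + 1)) +
      D.p (wd M s 2) (wd M s (n + 1))) := by
  have hm := hm_of hK
  have h1 : len M (sm M (!s) * 1) = len M 1 + 1 := by rw [mul_one, len_sm, len_one]
  have h2 : D.p 1 (md M s true n) = qq (-β) * D.p (sm M (!s)) (md M s true n) := by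
    have h3 : len M (sm M (!s) * md M s true n) + 1 = len M (md M s true n) :=
      md_down hK (i := true) hn
    rw [D.p_desc hL h3 h1, hb, mul_one]
  have h3 : D.p (sm M (!s)) (md M s true n) = D.p 1 (wd M s (n + 1)) +
      qq β * D.p (sm M (!s)) (wd M s (n + 1)) := by
    have h4 := C_md hK hL D hs true (n := n) (by omega)
    rw [ct, if_pos rfl] at h4
    have h5 := D.repr_C_sm hL (!s) (D.C (wd M s (n + 1))) (sm M (!s))
    have h6 : len M (sm M (!s) * sm M (!s)) + 1 = len M (sm M (!s)) := by
      rw [sm_sm, len_one, len_sm]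
    rw [← h4, KLD.fac_down h6, sm_sm, hb] at h5
    exact h5
  have h4 : D.p (sm M (!s)) (wd M s (n + 1)) = qq (-α) * D.p (wd M s 2) (wd M s (n + 1)) := by
    have h5 : len M (sm M s * sm M (!s)) = len M (sm M (!s)) + 1 := by
      have h6 := len_up hm (r := s) (n := 1) (by omega)
      rwa [wd_one] at h6
    rw [D.p_desc hL (len_down hm (by omega)) h5, ha, wd_succ M s 1, wd_one]
  have h5 := KLD.qq_mul_neg (β : ℤ)
  rw [h2, h3, h4, p_one_s hK hL D ha (by omega)]
  linear_combination (qq (-α) * D.p (wd M s 2) (wd M s (n + 1))) * h5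

include hK hL hs ha hb in
theorem P1_ne (z : M.Group) : Dle (-D.a z) (D.p 1 z) := by
  have hβ0 : (0 : ℤ) < β := by
    rw [← hb]
    exact hL.pos _
  rcases cls hK s z with rfl | rfl | ⟨i, n, hn, rfl⟩ | rfl | rfl
  · rw [D.p_self, KLD.a_one hL]
    exact Dle.one (by simp)
  · have h1 : len M (sm M (!s) * 1) = len M 1 + 1 := by rw [mul_one, len_sm, len_one]
    have h6 : len M (sm M (!s) * sm M (!s)) + 1 = len M (sm M (!s)) := by
      rw [sm_sm, len_one, len_sm]
    rw [D.p_desc hL h6 h1, mul_one, D.p_self, mul_one, a_t hK hL D hs hb, hb]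
    exact Dle.qq _
  · rw [a_md hK hL D hs ha hb hn]
    cases i
    · rw [md_false, p_one_s hK hL D ha (by omega)]
      exact (Dle.qq (-(α : ℤ))).mul_of_eq (D.p_dle _ _) (by omega)
    · rw [p_one_t hK hL D hs ha hb hn]
      refine (Dle.qq (-(α : ℤ))).mul_of_eq (n := 0) (Dle.add ?_ (D.p_dle _ _)) (by omega)
      exact (Dle.qq (-(β : ℤ))).mul_of_eq (D.p_dle _ _) (by omega)
  · rw [a_wdd hK hL D hs ha hb]
    exact p_one_dd hK hL D hs ha hb
  · rw [p_w0 (hm_of hK) hL D, a_w0' (hm_of hK) hL D, L_one hL, zero_sub]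
    exact Dle.qq _

include hK hL hs ha hb in
theorem nn_md {i : Bool} {n : ℕ} (hn : n + 3 ≤ M false true) (h : D.nn (md M s i n) ≠ 0) :
    (md M s i n)⁻¹ = md M s i n ∧ md M s i n = md M s i (if i then 1 else 0) := by
  classical
  have hβ0 : (0 : ℤ) < β := by
    rw [← hb]
    exact hL.pos _
  have hm := hm_of hK
  rw [KLD.nn, a_md hK hL D hs ha hb hn] at h
  cases i
  · have hn0 : n = 0 := by
      by_contra hne
      apply h
      rw [md_false, p_one_s hK hL D ha (by omega), cf_qq_mul, sub_self, ← wd_one,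
        coeff_p hm D (by omega) (by omega), if_neg (by omega)]
    subst hn0
    refine ⟨?_, rfl⟩
    rw [md_false, zero_add, wd_one, sm_inv]
  · have hn1 : n = 1 := by
      by_contra hne
      apply h
      rw [p_one_t hK hL D hs ha hb hn, cf_qq_mul, sub_self, cf_add,
        coeff_p hm D (by omega) (by omega), if_neg (by omega), cf_qq_mul,
        D.p_dle _ _ _ (by omega), add_zero]
    subst hn1
    refine ⟨?_, rfl⟩
    rw [md_true, wd_inv]
    have h5 : nx (!s) (1 + 2) = s := by
      rw [show 1 + 2 = 2 * 1 + 1 by ring, nx_odd, Bool.not_not]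
    rw [h5]

include hK hL hs ha hb in
theorem P6_ne (z : M.Group) (h : D.nn z ≠ 0) : z⁻¹ = z := by
  rcases cls hK s z with rfl | rfl | ⟨i, n, hn, rfl⟩ | rfl | rfl
  · exact inv_one
  · exact sm_inv _
  · exact (nn_md hK hL D hs ha hb hn h).1
  · exact dd_inv
  · exact w0_inv

end ne

end Pool.Agent.Helper35.KL
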