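import Pool.Agent.Helper35.KL.Di.Ne6

/-!
# Finite dihedral groups with unequal weights: the core properties
-/

namespace Pool.Agent.Helper35.KL

section ne

variable {M : CoxeterMatrix Bool} {K : ℕ} (hK : M false true = 2 * K + 2)
variable {L : M.Group → ℤ} (hL : IsWeight M L)
variable {H : Type} [Ring H] [Algebra LP H] (D : KLD M L H)
variable {s : Bool} (hs : L (sm M (!s)) < L (sm M s))
variable {α β : ℕ} (ha : L (sm M s) = α) (hb : L (sm M (!s)) = β)

include hL hs ha hb in
/-- The inequalities between the values of `a`. -/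
theorem levels (hK : M false true = 2 * K + 2) : ∃ P : ℤ, P = K * ((α : ℤ) - β) ∧ 0 ≤ P ∧
    (∀ n, n + 3 ≤ M false true → 0 < P) ∧ (0 : ℤ) < β ∧ (β : ℤ) < α ∧ α + P < L (w0 M) := by
  have hβα : (β : ℤ) < α := by rwa [← ha, ← hb]
  have hβ0 : (0 : ℤ) < β := by
    rw [← hb]
    exact hL.pos _
  have hK0 : (0 : ℤ) ≤ K * (β : ℤ) := mul_nonneg (by omega) (by omega)
  refine ⟨_, rfl, mul_nonneg (by omega) (by omega), fun n hn => ?_, hβ0, hβα, ?_⟩
  · exact mul_pos (by omega) (by omega)
  · rw [L_w0_eq hK hL ha hb]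
    nlinarith

include hK hL hs ha hb in
theorem Q_ne (x y z : M.Group) (h : D.g x y z ≠ 0) : D.a x = D.a z ∧ D.a y = D.a z := by
  obtain ⟨P, hP, hP0, -, hβ0, hβα, hw⟩ := levels hL hs ha hb hK
  have hgh : D.h x y z⁻¹ ≠ 0 := by
    intro h3
    rw [KLD.g, h3, cf_zero] at h
    exact h rfl
  rcases cls hK s z with rfl | rfl | ⟨i, n, hn, rfl⟩ | rfl | rfl
  · rw [inv_one] at hgh
    obtain ⟨rfl, rfl⟩ := D.h_ne_one hL hgh
    exact ⟨rfl, rfl⟩
  · rw [sm_inv] at hgh
    have hS : ∀ w, w ∉ S1 M s → w = 1 ∨ w = sm M (!s) := by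
      intro w hw
      by_contra hne
      push Not at hne
      exact hw hne
    rw [KLD.g, sm_inv, a_t hK hL D hs hb] at h
    rcases hS x (fun h1 => (h_S1 hK hL D hs hgh (Or.inl h1)).2 rfl) with rfl | rfl
    · exact absurd (h_one_left D y _ _ hβ0) h
    rcases hS y (fun h1 => (h_S1 hK hL D hs hgh (Or.inr h1)).2 rfl) with rfl | rfl
    · exact absurd (h_one_right D _ _ _ hβ0) h
    exact ⟨rfl, rfl⟩
  · have hz' : (md M s i n)⁻¹ ∉ Sd M s K := by
      intro h1
      have h2 := Sd_inv _ h1
      rw [inv_inv] at h2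
      exact md_notMem hK hn h2
    rw [KLD.g, D.a_inv, a_md hK hL D hs ha hb hn] at h
    have key : ∀ w, w ∉ Sd M s K → w ≠ 1 → w ≠ sm M (!s) → D.a w = α := by
      intro w h1 h2 h3
      rcases cls hK s w with rfl | rfl | ⟨i, n, hn, rfl⟩ | h4
      · exact absurd rfl h2
      · exact absurd rfl h3
      · exact a_md hK hL D hs ha hb hn
      · exact absurd h4 h1
    rw [a_md hK hL D hs ha hb hn]
    constructor
    · refine key x (fun h1 => hz' (h_Sd hK hL D hs hgh (Or.inl h1))) ?_ ?_
      · rintro rfl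
        exact h (h_one_left D y _ _ (by omega))
      · rintro rfl
        exact h (h_t_dle hK hL D hs hb y _ _ hβα)
    · refine key y (fun h1 => hz' (h_Sd hK hL D hs hgh (Or.inr h1))) ?_ ?_
      · rintro rfl
        exact h (h_one_right D x _ _ (by omega))
      · rintro rfl
        refine h ?_
        rw [D.h_inv, sm_inv]
        exact h_t_dle hK hL D hs hb _ _ _ hβα
  · by_contra hne
    have h1 : x ≠ wdd M s K ∨ y ≠ wdd M s K := by
      by_contra h2
      push Not at h2
      exact hne (by rw [h2.1, h2.2]; exact ⟨rfl, rfl⟩)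
    apply h
    rw [KLD.g, dd_inv, a_wdd hK hL D hs ha hb]
    exact hd_dle hK hL D hs ha hb (hmid hK hL D hs ha hb) h1 _ (by omega)
  · obtain ⟨rfl, rfl⟩ := g_w0 (hm_of hK) hL D h
    exact ⟨rfl, rfl⟩

include hK hL hs ha hb in
theorem P4_ne (x w y : M.Group) (h : D.h x w y ≠ 0) : D.a w ≤ D.a y := by
  obtain ⟨P, hP, hP0, -, hβ0, hβα, hw⟩ := levels hL hs ha hb hK
  have h1 := KLD.a_one (D := D) hL
  have h2 := a_t hK hL D hs hb
  have h3 := a_wdd hK hL D hs ha hb
  rw [← hP] at h3
  have h4 := a_w0' (hm_of hK) hL D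
  have hmd : ∀ {i n}, n + 3 ≤ M false true → D.a (md M s i n) = α :=
    fun hn => a_md hK hL D hs ha hb hn
  rcases cls hK s w with rfl | rfl | ⟨i, n, hn, rfl⟩ | rfl | rfl
  · omega
  · rcases cls hK s y with rfl | rfl | ⟨i, n, hn, rfl⟩ | rfl | rfl
    · exact absurd (D.h_ne_one hL h).2 (sm_ne_one _)
    · exact le_rfl
    · rw [hmd hn]
      omega
    · omega
    · omega
  · have h5 := h_S1 hK hL D hs h (Or.inr (md_mem_S1 hK hn))
    rw [hmd hn]
    rcases cls hK s y with rfl | rfl | ⟨i, n, hn, rfl⟩ | rfl | rfl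
    · exact absurd rfl h5.1
    · exact absurd rfl h5.2
    · rw [hmd hn]
    · omega
    · omega
  · rcases h_Sd hK hL D hs h (Or.inr (Or.inl rfl)) with rfl | rfl
    · exact le_rfl
    · omega
  · rw [h_ne_of_w0 (hm_of hK) hL D h (Or.inr rfl)]

include hK hL hs ha hb in
theorem u_ne (x y z z' : M.Group) (hz : D.nn z ≠ 0) (hz' : D.nn z' ≠ 0) (h : D.g x y z ≠ 0)
    (h' : D.g x y z' ≠ 0) (haz : D.a z = D.a z') : z = z' := by
  obtain ⟨P, hP, hP0, hPm, hβ0, hβα, hw⟩ := levels hL hs ha hb hK
  have h1 := KLD.a_one (D := D) hL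
  have h2 := a_t hK hL D hs hb
  have h3 := a_wdd hK hL D hs ha hb
  rw [← hP] at h3
  have h4 := a_w0' (hm_of hK) hL D
  have hmd : ∀ {i n}, n + 3 ≤ M false true → D.a (md M s i n) = α :=
    fun hn => a_md hK hL D hs ha hb hn
  have hi := P6_ne hK hL D hs ha hb
  have key : ∀ i n, n + 3 ≤ M false true → D.nn (md M s i n) ≠ 0 →
      D.g x y (md M s i n) ≠ 0 → ∃ r, len M (sm M r * x) + 1 = len M x ∧ r = fl1 s i := by
    intro i n hn hnn hg
    have hg' : D.h x y (md M s i n) ≠ 0 := by
      intro h5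
      rw [KLD.g, hi _ hnn, h5, cf_zero] at hg
      exact hg rfl
    have hx1 : x ≠ 1 := by
      rintro rfl
      have h5 := (Q_ne hK hL D hs ha hb 1 y _ hg).1
      rw [hmd hn] at h5
      omega
    obtain ⟨b, hb'⟩ := M.toCoxeterSystem.exists_leftDescent_of_ne_one hx1
    have h6 : len M (sm M b * x) < len M x := hb'
    have h7 := len_sm_mul (M := M) b x
    have h8 : len M (sm M b * x) + 1 = len M x := by omega
    refine ⟨b, h8, ?_⟩
    exact down_unique (hm_of hK) (md_ne_w0 hK hn)
      (D.desc_of_leR hL (D.leR_of_h hL hg') h8) (md_down hK hn)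
  rcases cls hK s z with rfl | rfl | ⟨i, n, hn, rfl⟩ | rfl | rfl <;>
    rcases cls hK s z' with rfl | rfl | ⟨i', n', hn', rfl⟩ | rfl | rfl
  · rfl
  · omega
  · rw [hmd hn'] at haz
    omega
  · omega
  · omega
  · omega
  · rfl
  · rw [hmd hn'] at haz
    omega
  · omega
  · omega
  · rw [hmd hn] at haz
    omega
  · rw [hmd hn] at haz
    omega
  · obtain ⟨r, hr1, hr2⟩ := key i n hn hz h
    obtain ⟨r', hr1', hr2'⟩ := key i' n' hn' hz' h'
    have hx0 : x ≠ w0 M := by
      rintro rfl
      have h5 := (Q_ne hK hL D hs ha hb _ y _ h).1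
      rw [hmd hn] at h5
      omega
    have hrr := down_unique (hm_of hK) hx0 hr1 hr1'
    have hii : i = i' := by
      rw [hr2, hr2'] at hrr
      revert hrr
      cases i <;> cases i' <;> cases s <;> simp [fl1]
    subst hii
    rw [(nn_md hK hL D hs ha hb hn hz).2, (nn_md hK hL D hs ha hb hn' hz').2]
  · rw [hmd hn] at haz
    have := hPm n hn
    omega
  · rw [hmd hn] at haz
    omega
  · omega
  · omega
  · rw [hmd hn'] at haz
    have := hPm n' hn'
    omega
  · rfl
  · omega
  · omega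
  · omega
  · rw [hmd hn'] at haz
    omega
  · omega
  · rfl

include hK hL hs ha hb in
theorem BB_bt {i : Bool} {k l : ℕ} (hk : 2 * k + 4 ≤ M false true)
    (hl : l + 3 ≤ M false true) :
    D.BB α (md M s i (2 * k + 1)) (md M s true l) =
      D.BB α (md M s i (2 * k)) (md M s false l) := by
  obtain ⟨P, hP, hP0, hPm, hβ0, hβα, hw⟩ := levels hL hs ha hb hK
  refine D.BB_congr _ fun z hz => ?_
  have hz' : z ∉ Sd M s K := by
    have h3 := a_wdd hK hL D hs ha hb
    have h4 := a_w0' (hm_of hK) hL D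
    have h5 := hPm l hl
    rintro (rfl | rfl) <;> omega
  obtain ⟨c, -, h1, -, -, -, h5⟩ := cf_form hK hL D hs ha hb i (k := k) (by omega) hl hz'
  rw [h5, h1, cf_zsmul, tw_coeff (by omega), mul_one]

theorem nx_parity {s : Bool} {n : ℕ} (h : nx s n = s) : ∃ k, n = 2 * k := by
  rcases Nat.even_or_odd' n with ⟨k, hk | hk⟩
  · exact ⟨k, hk⟩
  · rw [hk, nx_odd] at h
    exact absurd h (not_ne s)

theorem nx_parity' {s : Bool} {n : ℕ} (h : nx s n = !s) : ∃ k, n = 2 * k + 1 := by
  rcases Nat.even_or_odd' n with ⟨k, hk | hk⟩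
  · rw [hk, nx_even] at h
    exact absurd h.symm (not_ne s)
  · exact ⟨k, hk⟩

include hK hL hs ha hb in
theorem a_iff {n₀ : ℕ} (hn₀ : n₀ + 3 ≤ M false true) (z : M.Group) :
    D.a z = α ↔ ∃ i n, n + 3 ≤ M false true ∧ z = md M s i n := by
  obtain ⟨P, hP, hP0, hPm, hβ0, hβα, hw⟩ := levels hL hs ha hb hK
  have h0 := hPm n₀ hn₀
  have h1 := KLD.a_one (D := D) hL
  have h2 := a_t hK hL D hs hb
  have h3 := a_wdd hK hL D hs ha hb
  rw [← hP] at h3
  have h4 := a_w0' (hm_of hK) hL D
  constructor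
  · intro h
    rcases cls hK s z with rfl | rfl | h5 | rfl | rfl
    · omega
    · omega
    · exact h5
    · omega
    · omega
  · rintro ⟨i, n, hn, rfl⟩
    exact a_md hK hL D hs ha hb hn

include hK hL hs ha hb in
theorem notMem_of_a {n₀ : ℕ} (hn₀ : n₀ + 3 ≤ M false true) {z : M.Group} (hz : D.a z = α) :
    z ∉ Sd M s K := by
  obtain ⟨i, n, hn, rfl⟩ := (a_iff hK hL D hs ha hb hn₀ z).1 hz
  exact md_notMem hK hn

include hK hL hs ha hb in
/-- The cancellation for elements that end with `s` and elements that start with `s`. -/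
theorem bt_ne {l : ℕ} (hl : l + 3 ≤ M false true) {x : M.Group} (hx : D.a x = α)
    (hxS : len M (sm M s * x⁻¹) + 1 = len M x⁻¹) (w z : M.Group) (hz : D.a z = α) :
    D.C.repr (D.C w * D.BB α x (md M s false l)) z =
      D.C.repr (D.bt α (md M s false l) (D.C w * D.C x)) z := by
  obtain ⟨P, hP, hP0, hPm, hβ0, hβα, hw⟩ := levels hL hs ha hb hK
  have hα0 : (0 : ℤ) < α := by omega
  refine D.bt_cancel (S := fun z => len M (sm M s * z⁻¹) + 1 = len M z⁻¹)
    (I := sp D (Sd M s K)) (t := qq (α : ℤ) + qq (-α))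
    (fun w v hv => sp_mulL hL D (Sd_mul hK hL D hs) _ hv)
    (fun v hv => sp_mulR hL D (Sd_mul hK hL D hs) Sd_inv _ hv) ?_ ?_ ?_ ?_ hx hxS w z hz
  · intro v hv z hz
    exact (mem_sp D).1 hv z (notMem_of_a hK hL D hs ha hb hl hz)
  · intro v hv
    exact sp_sat D (KLD.qq_add_ne _ hα0) hv
  · intro z hz1 hz2
    obtain ⟨i, n, hn, rfl⟩ := (a_iff hK hL D hs ha hb hl z).1 hz2
    have hpar : nx s n = s := by
      have h0 : (md M s i n)⁻¹ ≠ w0 M := by
        intro h2
        apply md_ne_w0 hK hn (i := i)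
        rw [← inv_inv (md M s i n), h2, w0_inv]
      exact down_unique (hm_of hK) h0 (md_right hK hn) hz1
    obtain ⟨k, rfl⟩ := nx_parity hpar
    rw [mem_sp]
    intro u hu
    obtain ⟨c, hc, h1, -⟩ := cf_form hK hL D hs ha hb i hn hl hu
    rw [KLD.h] at h1
    rw [map_sub, Finsupp.sub_apply, map_smul, Finsupp.smul_apply, D.repr_BB, D.tk_apply, h1]
    by_cases hu1 : D.a u = α
    · rw [if_pos hu1, cf_zsmul, tw_coeff hα0, mul_one, smul_comm, smul_eq_mul, mul_one, sub_self]
    · have hc0 : c = 0 := by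
        by_contra hne
        obtain ⟨n', hn', rfl⟩ := hc hne
        exact hu1 (a_md hK hL D hs ha hb hn')
      rw [if_neg hu1, hc0, zero_smul, zero_smul, smul_zero, sub_zero]
  · intro w x z hx1 hx2 h
    by_cases hz : z ∈ Sd M s K
    · exact Or.inr (C_mem_sp D hz)
    · left
      refine ⟨desc_right hL D h hx1, ?_⟩
      obtain ⟨i, n, hn, rfl⟩ := (a_iff hK hL D hs ha hb hl x).1 hx2
      have h5 := h_S1 hK hL D hs h (Or.inr (md_mem_S1 hK hn))
      rcases cls hK s z with rfl | rfl | ⟨i, n, hn, rfl⟩ | h6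
      · exact absurd rfl h5.1
      · exact absurd rfl h5.2
      · exact a_md hK hL D hs ha hb hn
      · exact absurd h6 hz

include hK hL hs ha hb in
theorem bt_Ct {l : ℕ} (hl : l + 3 ≤ M false true) {x : M.Group} (hx : D.a x = α)
    (hxS : len M (sm M s * x⁻¹) + 1 = len M x⁻¹) (w : M.Group) :
    D.bt α (md M s true l) (D.C w * D.C x * D.C (sm M (!s))) =
      D.bt α (md M s false l) (D.C w * D.C x) := by
  have hSd : ∀ y v, v ∈ sp D (Sd M s K) → D.bt α y v = 0 := by
    intro y v hv
    rw [expand (D := D) v, map_sum]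
    refine Finset.sum_eq_zero fun z hz => ?_
    rw [map_smul]
    by_cases hzS : z ∈ Sd M s K
    · rw [D.bt_C_ne fun h => notMem_of_a hK hL D hs ha hb hl h hzS, smul_zero]
    · rw [(mem_sp D).1 hv z hzS, zero_smul]
  conv_lhs => rw [expand (D := D) (D.C w * D.C x)]
  conv_rhs => rw [expand (D := D) (D.C w * D.C x)]
  rw [Finset.sum_mul, map_sum, map_sum]
  refine Finset.sum_congr rfl fun z hz => ?_
  rw [smul_mul_assoc, map_smul, map_smul]
  congr 1
  have hh : D.h w x z ≠ 0 := Finsupp.mem_support_iff.1 hz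
  by_cases hzS : z ∈ Sd M s K
  · rw [hSd _ _ (C_mem_sp D hzS),
      hSd _ _ (sp_mulR hL D (Sd_mul hK hL D hs) Sd_inv _ (C_mem_sp D hzS))]
  · obtain ⟨i, n, hn, rfl⟩ := (a_iff hK hL D hs ha hb hl x).1 hx
    have h5 := h_S1 hK hL D hs hh (Or.inr (md_mem_S1 hK hn))
    rcases cls hK s z with rfl | rfl | ⟨i', n', hn', rfl⟩ | h6
    · exact absurd rfl h5.1
    · exact absurd rfl h5.2
    · have hz1 := desc_right hL D hh hxS
      have hpar : nx s n' = s := by
        have h0 : (md M s i' n')⁻¹ ≠ w0 M := by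
          intro h2
          apply md_ne_w0 hK hn' (i := i')
          rw [← inv_inv (md M s i' n'), h2, w0_inv]
        exact down_unique (hm_of hK) h0 (md_right hK hn') hz1
      obtain ⟨k, rfl⟩ := nx_parity hpar
      have e1 : D.C (md M s i' (2 * k)) * D.C (sm M (!s)) = D.C (md M s i' (2 * k + 1)) := by
        rw [C_md hK hL D hs i' (by omega), C_md hK hL D hs i' (by omega), mul_assoc,
          C_right hK hL D hs (by omega)]
      rw [e1, D.bt_C (a_md hK hL D hs ha hb hn'),
        D.bt_C (a_md hK hL D hs ha hb (by omega)), BB_bt hK hL D hs ha hb (by omega) hl]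
    · exact absurd h6 hzS

include hK hL hs ha hb in
theorem LL_ne (k : ℕ) (m : ℤ) (w x y : M.Group) (hx : D.a x = k) :
    D.Lk k m w (D.bul k (Finsupp.single x 1) (Finsupp.single y 1)) =
      D.bul k (D.Lk k m w (Finsupp.single x 1)) (Finsupp.single y 1) := by
  obtain ⟨P, hP, hP0, hPm, hβ0, hβα, hw⟩ := levels hL hs ha hb hK
  have h1 := KLD.a_one (D := D) hL
  have h2 := a_t hK hL D hs hb
  have h3 := a_wdd hK hL D hs ha hb
  rw [← hP] at h3
  have h4 := a_w0' (hm_of hK) hL D
  have hmd : ∀ {i n}, n + 3 ≤ M false true → D.a (md M s i n) = α :=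
    fun hn => a_md hK hL D hs ha hb hn
  rcases cls hK s x with rfl | rfl | ⟨i, n, hn, rfl⟩ | rfl | rfl
  · refine D.LL_single hx (fun z hz => ?_) m w
    rcases cls hK s z with rfl | rfl | ⟨i, n, hn, rfl⟩ | rfl | rfl
    · rfl
    · omega
    · rw [hmd hn] at hz
      omega
    · omega
    · omega
  · refine D.LL_single hx (fun z hz => ?_) m w
    rcases cls hK s z with rfl | rfl | ⟨i, n, hn, rfl⟩ | rfl | rfl
    · omega
    · rfl
    · rw [hmd hn] at hz
      omega
    · omega
    · omega
  · have hk : k = α := by rw [← hx, hmd hn]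
    rw [hk] at hx ⊢
    have hr := md_right hK hn (s := s) (i := i)
    by_cases hy : D.a y = α
    · obtain ⟨i', l, hl, rfl⟩ := (a_iff hK hL D hs ha hb hn y).1 hy
      rcases Nat.even_or_odd' n with ⟨j, hj | hj⟩
      · subst hj
        rw [nx_even] at hr
        cases i'
        · exact D.LL_of_bt (fun w z hz => bt_ne hK hL D hs ha hb hl hx hr w z hz) m w
        · refine D.LL_zero (S := fun z => len M (sm M s * z⁻¹) + 1 = len M z⁻¹) ?_ ?_ hx hr m w
          · intro z hz1 hz2
            obtain ⟨i2, n2, hn2, rfl⟩ := (a_iff hK hL D hs ha hb hn z).1 hz2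
            have hpar : nx s n2 = s := by
              have h0 : (md M s i2 n2)⁻¹ ≠ w0 M := by
                intro h2
                apply md_ne_w0 hK hn2 (i := i2)
                rw [← inv_inv (md M s i2 n2), h2, w0_inv]
              exact down_unique (hm_of hK) h0 (md_right hK hn2) hz1
            obtain ⟨k2, rfl⟩ := nx_parity hpar
            refine D.BB_zero _ fun u hu => ?_
            obtain ⟨c, -, -, h5, -⟩ := cf_form hK hL D hs ha hb i2 hn2 hl
              (notMem_of_a hK hL D hs ha hb hn hu)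
            exact h5 _ (by omega)
          · intro w x z hx1 h _
            exact desc_right hL D h hx1
      · subst hj
        rw [nx_odd] at hr
        cases i'
        · refine D.LL_zero (S := fun z => len M (sm M (!s) * z⁻¹) + 1 = len M z⁻¹) ?_ ?_
            hx hr m w
          · intro z hz1 hz2
            obtain ⟨i2, n2, hn2, rfl⟩ := (a_iff hK hL D hs ha hb hn z).1 hz2
            have hpar : nx s n2 = !s := by
              have h0 : (md M s i2 n2)⁻¹ ≠ w0 M := by
                intro h2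
                apply md_ne_w0 hK hn2 (i := i2)
                rw [← inv_inv (md M s i2 n2), h2, w0_inv]
              exact down_unique (hm_of hK) h0 (md_right hK hn2) hz1
            obtain ⟨k2, rfl⟩ := nx_parity' hpar
            refine D.BB_zero _ fun u hu => ?_
            obtain ⟨c, -, -, -, h5, -⟩ := cf_form hK hL D hs ha hb i2 (k := k2) (by omega) hl
              (notMem_of_a hK hL D hs ha hb hn hu)
            exact h5 _ (by omega)
          · intro w x z hx1 h _
            exact desc_right hL D h hx1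
        · refine D.LL_of_bt (fun w z hz => ?_) m w
          have e1 : D.C (md M s i (2 * j + 1)) =
              D.C (md M s i (2 * j)) * D.C (sm M (!s)) := by
            rw [C_md hK hL D hs i (by omega), C_md hK hL D hs i (by omega), mul_assoc,
              C_right hK hL D hs (by omega)]
          have hr0 := md_right hK (s := s) (i := i) (n := 2 * j) (by omega)
          rw [nx_even] at hr0
          have hx0 : D.a (md M s i (2 * j)) = α := hmd (by omega)
          rw [BB_bt hK hL D hs ha hb (by omega) hl,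
            bt_ne hK hL D hs ha hb hl hx0 hr0 w z hz, e1, ← mul_assoc,
            bt_Ct hK hL D hs ha hb hl hx0 hr0]
    · refine D.LL_zero (S := fun _ => True) ?_ (fun _ _ _ _ _ _ => trivial) hx trivial m w
      intro z _ hz
      refine D.BB_zero _ fun u hu => ?_
      by_contra h
      have h1 : D.g z y u⁻¹ ≠ 0 := by
        rw [KLD.g, inv_inv, hu]
        exact h
      have h2 := (Q_ne hK hL D hs ha hb z y _ h1).2
      rw [D.a_inv, hu] at h2
      exact hy h2
  · refine D.LL_single hx (fun z hz => ?_) m w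
    rcases cls hK s z with rfl | rfl | ⟨i, n, hn, rfl⟩ | rfl | rfl
    · omega
    · omega
    · rw [hmd hn] at hz
      have := hPm n hn
      omega
    · rfl
    · omega
  · refine D.LL_single hx (fun z hz => ?_) m w
    rcases cls hK s z with rfl | rfl | ⟨i, n, hn, rfl⟩ | rfl | rfl
    · omega
    · omega
    · rw [hmd hn] at hz
      omega
    · omega
    · rfl

include hK hL hs ha hb in
/-- The core properties for finite dihedral groups with unequal weights. -/
theorem core_ne : D.Core := by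
  refine core_of hL D (bdd (hm_of hK) hL D) (P1_ne hK hL D hs ha hb)
    (P6_ne hK hL D hs ha hb) (Q_ne hK hL D hs ha hb) (u_ne hK hL D hs ha hb)
    (P4_ne hK hL D hs ha hb) (fun r => ?_) (LL_ne hK hL D hs ha hb)
  rcases bool_cases s r with rfl | rfl
  · rw [ha]
    by_cases hK0 : K = 0
    · have h3 := a_wdd hK hL D hs ha hb
      rw [hK0, wdd] at h3
      have h4 : wd M r (2 * 0 + 1) = sm M r := wd_one M r
      rw [h4] at h3
      rw [h3]
      simp
    · have h3 := a_md hK hL D hs ha hb (i := false) (n := 0) (by omega)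
      rw [md_false, zero_add, wd_one] at h3
      rw [h3]
  · rw [hb, a_t hK hL D hs hb]

end ne

end Pool.Agent.Helper35.KL
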