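import Pool.Agent.Helper35.KL.Di.G

/-!
# Coefficients of products with `C s` in the standard basis
-/

namespace Pool.Agent.Helper35.KL

namespace KLD

variable {B : Type} {M : CoxeterMatrix B} {L : M.Group → ℤ} {H : Type} [Ring H] [Algebra LP H]
variable (D : KLD M L H)

theorem qq_mul_neg (n : ℤ) : (qq n * qq (-n) : LP) = 1 := by
  rw [← LaurentPolynomial.T_add, add_neg_cancel, LaurentPolynomial.T_zero]

theorem C_sm_T_up (hL : IsWeight M L) {b : B} {w : M.Group}
    (h : len M (sm M b * w) = len M w + 1) :
    D.C (sm M b) * D.T w = D.T (sm M b * w) + qq (-L (sm M b)) • D.T w := by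
  rw [D.C_sm hL, add_mul, smul_mul_assoc, one_mul, D.T_sm_mul h]

theorem C_sm_T_down (hL : IsWeight M L) {b : B} {w : M.Group}
    (h : len M (sm M b * w) + 1 = len M w) :
    D.C (sm M b) * D.T w = D.T (sm M b * w) + qq (L (sm M b)) • D.T w := by
  rw [D.C_sm hL, add_mul, smul_mul_assoc, one_mul, D.T_sm_mul' h, add_assoc, ← add_smul, xi,
    sub_add_cancel]

open scoped Classical in
/-- The factor in the coefficients of `C s * h`. -/
noncomputable def fac (b : B) (y : M.Group) : LP :=
  if len M (sm M b * y) + 1 = len M y then qq (L (sm M b)) else qq (-L (sm M b))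

theorem fac_down {b : B} {y : M.Group} (h : len M (sm M b * y) + 1 = len M y) :
    fac (L := L) b y = qq (L (sm M b)) := if_pos h

theorem fac_up {b : B} {y : M.Group} (h : len M (sm M b * y) = len M y + 1) :
    fac (L := L) b y = qq (-L (sm M b)) := if_neg (by omega)

theorem repr_C_sm (hL : IsWeight M L) (b : B) (x : H) (y : M.Group) :
    D.T.repr (D.C (sm M b) * x) y =
      D.T.repr x (sm M b * y) + fac (L := L) b y * D.T.repr x y := by
  classical
  have h3 : x ∈ Submodule.span LP (Set.range D.T) := D.T.mem_span x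
  refine Submodule.span_induction (p := fun x _ => D.T.repr (D.C (sm M b) * x) y =
    D.T.repr x (sm M b * y) + fac (L := L) b y * D.T.repr x y) ?_ ?_ ?_ ?_ h3
  · rintro _ ⟨z, rfl⟩
    have h0 : D.C (sm M b) * D.T z = D.T (sm M b * z) + fac (L := L) b z • D.T z := by
      rcases len_sm_mul b z with h | h
      · rw [fac_up h, D.C_sm_T_up hL h]
      · rw [fac_down h, D.C_sm_T_down hL h]
    rw [h0, map_add, map_smul, Finsupp.add_apply, Finsupp.smul_apply, Module.Basis.repr_self,
      Module.Basis.repr_self, Finsupp.single_apply, Finsupp.single_apply, Finsupp.single_apply,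
      smul_eq_mul]
    have h1 : sm M b * z = y ↔ z = sm M b * y := by
      constructor
      · intro h
        rw [← h, sm_cancel]
      · intro h
        rw [h, sm_cancel]
    congr 1
    · simp only [h1]
    · split_ifs with h2
      · rw [h2]
      · rw [mul_zero, mul_zero]
  · simp
  · intro a c _ _ ha hc
    rw [mul_add, map_add, map_add, Finsupp.add_apply, Finsupp.add_apply, Finsupp.add_apply, ha, hc]
    ring
  · intro a c _ hc
    rw [mul_smul_comm, map_smul, map_smul, Finsupp.smul_apply, Finsupp.smul_apply,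
      Finsupp.smul_apply, hc, smul_eq_mul, smul_eq_mul, smul_eq_mul]
    ring

/-- Coefficients of elements that are eigenvectors of `T s`. -/
theorem repr_eigen (hL : IsWeight M L) {b : B} {x : H}
    (hx : D.T (sm M b) * x = qq (L (sm M b)) • x) {y : M.Group}
    (hy : len M (sm M b * y) = len M y + 1) :
    D.T.repr x y = qq (-L (sm M b)) * D.T.repr x (sm M b * y) := by
  have h1 := D.repr_C_sm hL b x y
  rw [fac_up hy, D.C_sm hL, add_mul, hx, smul_mul_assoc, one_mul, map_add, map_smul, map_smul,
    Finsupp.add_apply, Finsupp.smul_apply, Finsupp.smul_apply, smul_eq_mul, smul_eq_mul,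
    add_left_inj] at h1
  rw [← h1, ← mul_assoc, mul_comm (qq (-L (sm M b))), qq_mul_neg, one_mul]

theorem p_desc (hL : IsWeight M L) {b : B} {w y : M.Group}
    (hw : len M (sm M b * w) + 1 = len M w) (hy : len M (sm M b * y) = len M y + 1) :
    D.p y w = qq (-L (sm M b)) * D.p (sm M b * y) w :=
  D.repr_eigen hL (D.T_mul_C hL hw) hy

theorem p_desc_right (hL : IsWeight M L) {b : B} {w y : M.Group}
    (hw : len M (w * sm M b) + 1 = len M w) (hy : len M (y * sm M b) = len M y + 1) :
    D.p y w = qq (-L (sm M b)) * D.p (y * sm M b) w := by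
  rw [D.p_inv y w, D.p_inv (y * sm M b) w, mul_inv_rev, sm_inv]
  refine D.p_desc hL ?_ ?_
  · rw [← len_mul_sm, len_inv]
    exact hw
  · rw [← len_mul_sm, len_inv]
    exact hy

theorem p_dle (u v : M.Group) : Dle 0 (D.p u v) := by
  classical
  have h1 : D.C v = (D.C v - D.T v) + D.T v := by abel
  rw [p, h1, map_add, Finsupp.add_apply]
  exact (D.C_T v u).mono (by norm_num) |>.add (basis_mem_Lat D.T v u)

open scoped Classical in
theorem p_coeff (u v : M.Group) : (D.p u v).coeff 0 = if u = v then 1 else 0 := by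
  have h1 : D.C v = (D.C v - D.T v) + D.T v := by abel
  rw [p, h1, map_add, Finsupp.add_apply, cf_add, D.C_T v u 0 (by norm_num), zero_add,
    Module.Basis.repr_self, Finsupp.single_apply]
  by_cases h : u = v
  · rw [if_pos h, if_pos h.symm, cf_one, if_pos rfl]
  · rw [if_neg h, if_neg (Ne.symm h), cf_zero]

theorem p_neg {u v : M.Group} (h : u ≠ v) : Dle (-1) (D.p u v) := by
  classical
  exact (D.p_dle u v).of_lead (by rw [p_coeff, if_neg h])

theorem p_self (u : M.Group) : D.p u u = 1 := by
  have h1 := D.C_sub_T u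
  rw [mem_Vl_iff] at h1
  have h2 : D.T.repr (D.C u - D.T u) u = 0 := by
    by_contra hne
    exact lt_irrefl _ (h1 u hne)
  rw [map_sub, Finsupp.sub_apply, Module.Basis.repr_self, Finsupp.single_eq_same,
    sub_eq_zero] at h2
  exact h2

theorem p_zero {u v : M.Group} (h : len M v ≤ len M u) (hne : u ≠ v) : D.p u v = 0 := by
  have h1 := D.C_sub_T v
  rw [mem_Vl_iff] at h1
  by_contra h2
  have h3 : D.T.repr (D.C v - D.T v) u ≠ 0 := by
    rw [map_sub, Finsupp.sub_apply, Module.Basis.repr_self, Finsupp.single_eq_of_ne hne, sub_zero]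
    exact h2
  have := h1 u h3
  omega

/-- A bar-invariant eigenvector vanishes if its coefficients are negative. -/
theorem eq_zero_of_eigen (hL : IsWeight M L) {b : B} {x : H}
    (hx : D.T (sm M b) * x = qq (L (sm M b)) • x) (hbar : D.bar x = x)
    (h : ∀ y, len M (sm M b * y) + 1 = len M y → Dle (-1) (D.T.repr x y)) : x = 0 := by
  refine D.bar_unique hbar fun y => ?_
  rcases len_sm_mul b y with h1 | h1
  · rw [D.repr_eigen hL hx h1]
    have h2 := h (sm M b * y) (by rw [sm_cancel]; omega)
    have h3 := hL.pos b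
    exact (Dle.qq (-L (sm M b))).mul_of_eq h2 (by omega)
  · exact h y h1

theorem eigen_C_sm (hL : IsWeight M L) (b : B) (x : H) :
    D.T (sm M b) * (D.C (sm M b) * x) = qq (L (sm M b)) • (D.C (sm M b) * x) := by
  rw [← mul_assoc, D.T_sm_C_sm hL, smul_mul_assoc]

end KLD

end Pool.Agent.Helper35.KL
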