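import Pool.Agent.Helper35.KL.Di.B

/-!
# The longest element of a finite dihedral group
-/

namespace Pool.Agent.Helper35.KL

theorem qq_zero : qq 0 = 1 := LaurentPolynomial.T_zero

section wt

variable {B : Type} {M : CoxeterMatrix B} {L : M.Group → ℤ} (hL : IsWeight M L)

include hL in
theorem L_one : L 1 = 0 := by
  have h := hL.add 1 1 (by rw [mul_one, len_one])
  rw [mul_one] at h
  omega

include hL in
theorem L_up {b : B} {w : M.Group} (h : len M (sm M b * w) = len M w + 1) :
    L (sm M b * w) = L (sm M b) + L w := hL.add _ _ (by rw [h, len_sm]; ring)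

include hL in
theorem L_nonneg (w : M.Group) : 0 ≤ L w := by
  induction w using len_induction with
  | h1 => rw [L_one hL]
  | hs b w hl ih =>
    rw [L_up hL hl]
    have := hL.pos b
    omega

include hL in
theorem L_pos {w : M.Group} (h : w ≠ 1) : 0 < L w := by
  induction w using len_induction with
  | h1 => exact absurd rfl h
  | hs b w hl ih =>
    rw [L_up hL hl]
    have h1 := hL.pos b
    have h2 := L_nonneg hL w
    omega

include hL in
theorem L_inv (w : M.Group) : L w⁻¹ = L w := by
  induction w using len_induction with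
  | h1 => rw [inv_one]
  | hs b w hl ih =>
    have h1 : len M (w⁻¹ * (sm M b)⁻¹) = len M w⁻¹ + len M (sm M b)⁻¹ := by
      rw [← mul_inv_rev, len_inv, len_inv, len_inv, len_sm, hl]
    rw [mul_inv_rev, hL.add _ _ h1, ih, sm_inv, L_up hL hl]
    ring

variable {H : Type} [Ring H] [Algebra LP H] (D : KLD M L H)

include hL in
theorem T_sm_Lat (b : B) {n : ℤ} {x : H} (hx : x ∈ Lat D.T n) :
    D.T (sm M b) * x ∈ Lat D.T (L (sm M b) + n) := by
  have h1 : D.T (sm M b) * x = D.C (sm M b) * x - qq (-L (sm M b)) • x := by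
    rw [D.C_sm hL, add_mul, smul_mul_assoc, one_mul, add_sub_cancel_right]
  have h2 := hL.pos b
  rw [h1]
  refine AddSubgroup.sub_mem _ ?_ ?_
  · intro y
    rw [D.repr_C_sm hL]
    refine ((hx _).mono (by omega)).add ?_
    rcases len_sm_mul b y with h | h
    · rw [KLD.fac_up h]
      exact (Dle.qq (-L (sm M b))).mul_of_eq (hx y) (by omega)
    · rw [KLD.fac_down h]
      exact (Dle.qq (L (sm M b))).mul_of_eq (hx y) (by omega)
  · exact Lat_mono _ (by omega) (smul_Lat D.T (Dle.qq (-L (sm M b))) hx)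

include hL in
theorem TT_Lat (x y : M.Group) : D.T x * D.T y ∈ Lat D.T (L x) := by
  induction x using len_induction with
  | h1 =>
    rw [D.T_one, one_mul, L_one hL]
    exact basis_mem_Lat D.T y
  | hs b w hl ih =>
    rw [← D.T_sm_mul hl, mul_assoc, L_up hL hl]
    exact T_sm_Lat hL D b ih

include hL in
theorem TT_Lat' (x y : M.Group) : D.T x * D.T y ∈ Lat D.T (L y) := by
  have h1 := D.fl_Lat (TT_Lat hL D y⁻¹ x⁻¹)
  rwa [D.fl_mul, D.fl_T, D.fl_T, inv_inv, inv_inv, L_inv hL] at h1

/-- Products of combinations of the standard basis. -/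
theorem mul_Lat_of {n : ℤ} {x y : H} (h : ∀ u v, D.T.repr x u ≠ 0 → D.T.repr y v ≠ 0 →
    D.T u * D.T v ∈ Lat D.T n) (hx : x ∈ Lat D.T 0) (hy : y ∈ Lat D.T 0) :
    x * y ∈ Lat D.T n := by
  rw [← D.T.linearCombination_repr x, ← D.T.linearCombination_repr y,
    Finsupp.linearCombination_apply, Finsupp.linearCombination_apply, Finsupp.sum, Finsupp.sum,
    Finset.sum_mul]
  refine AddSubgroup.sum_mem _ fun u hu => ?_
  rw [Finset.mul_sum]
  refine AddSubgroup.sum_mem _ fun v hv => ?_
  rw [smul_mul_assoc, mul_smul_comm, smul_smul]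
  have h1 := smul_Lat D.T ((hx u).mul (hy v))
    (h u v (Finsupp.mem_support_iff.1 hu) (Finsupp.mem_support_iff.1 hv))
  rwa [add_zero, zero_add] at h1

theorem C_Lat (w : M.Group) : D.C w ∈ Lat D.T 0 := fun u => D.p_dle u w

theorem repr_C_of_Lat {n : ℤ} {x : H} (hx : x ∈ Lat D.T n) (z : M.Group) :
    Dle n (D.C.repr x z) := (lat_cmp D.T D.C D.T_sub_C_neg hx).1 z

end wt

section w0

variable {M : CoxeterMatrix Bool} (hm : M false true ≠ 0) {L : M.Group → ℤ} (hL : IsWeight M L)
variable {H : Type} [Ring H] [Algebra LP H] (D : KLD M L H)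

theorem two_le : M false true ≠ 0 → 2 ≤ M false true := by
  intro hm
  have := M.off_diagonal false true (by simp)
  omega

/-- The longest element. -/
noncomputable def w0 (M : CoxeterMatrix Bool) : M.Group := wd M true (M false true)

theorem w0_eq (r : Bool) : w0 M = wd M r (M false true) := wd_top _ _

include hm in
theorem len_w0 : len M (w0 M) = M false true := len_wd hm le_rfl

theorem w0_inv : (w0 M)⁻¹ = w0 M := by
  rw [w0, wd_inv]
  exact wd_top _ _

include hm in
theorem w0_down (r : Bool) : len M (sm M r * w0 M) + 1 = len M (w0 M) := by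
  obtain ⟨n, hn⟩ : ∃ n, M false true = n + 1 := ⟨M false true - 1, by omega⟩
  rw [w0_eq r, hn]
  exact len_down hm (by omega)

include hm in
theorem ne_w0 {r : Bool} {n : ℕ} (hn : n < M false true) : wd M r n ≠ w0 M := by
  intro h
  have h1 := congrArg (len M) h
  rw [len_wd hm hn.le, len_w0 hm] at h1
  omega

include hm in
theorem exists_up {w : M.Group} (hw : w ≠ w0 M) :
    ∃ r, len M (sm M r * w) = len M w + 1 := by
  obtain ⟨r, n, hn, rfl⟩ := exists_wd hm w
  have hn' : n < M false true := by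
    rcases Nat.lt_or_ge n (M false true) with h | h
    · exact h
    · exfalso
      apply hw
      rw [w0_eq r, le_antisymm hn h]
  refine ⟨!r, ?_⟩
  have h1 := len_up hm (r := !r) (n := n) (by omega)
  rwa [Bool.not_not] at h1

include hm in
theorem len_le_w0 (w : M.Group) : len M w ≤ len M (w0 M) := by
  rw [len_w0 hm]
  exact len_le_top hm w

include hm in
theorem eq_w0_of_len {w : M.Group} (h : len M w = len M (w0 M)) : w = w0 M := by
  by_contra hne
  obtain ⟨r, hr⟩ := exists_up hm hne
  have := len_le_w0 hm (sm M r * w)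
  omega

include hm hL in
theorem L_le_w0 (w : M.Group) : L w ≤ L (w0 M) ∧ (w ≠ w0 M → L w < L (w0 M)) := by
  suffices h : ∀ k w, len M (w0 M) - len M w ≤ k →
      L w ≤ L (w0 M) ∧ (w ≠ w0 M → L w < L (w0 M)) from h _ w le_rfl
  intro k
  induction k with
  | zero =>
    intro w hk
    have h1 := eq_w0_of_len hm (w := w) (le_antisymm (len_le_w0 hm w) (by omega))
    rw [h1]
    exact ⟨le_rfl, fun h => absurd rfl h⟩
  | succ k ih =>
    intro w hk
    by_cases hw : w = w0 M
    · rw [hw]
      exact ⟨le_rfl, fun h => absurd rfl h⟩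
    · obtain ⟨r, hr⟩ := exists_up hm hw
      have h1 := (ih (sm M r * w) (by omega)).1
      rw [L_up hL hr] at h1
      have := hL.pos r
      exact ⟨by omega, fun _ => by omega⟩

include hm hL in
theorem p_w0 (w : M.Group) : D.p w (w0 M) = qq (L w - L (w0 M)) := by
  suffices h : ∀ k w, len M (w0 M) - len M w ≤ k → D.p w (w0 M) = qq (L w - L (w0 M)) from
    h _ w le_rfl
  intro k
  induction k with
  | zero =>
    intro w hk
    have h1 := eq_w0_of_len hm (w := w) (le_antisymm (len_le_w0 hm w) (by omega))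
    rw [h1, D.p_self, sub_self, qq_zero]
  | succ k ih =>
    intro w hk
    by_cases hw : w = w0 M
    · rw [hw, D.p_self, sub_self, qq_zero]
    · obtain ⟨r, hr⟩ := exists_up hm hw
      rw [D.p_desc hL (w0_down hm r) hr, ih _ (by omega), ← LaurentPolynomial.T_add,
        L_up hL hr]
      congr 1
      ring

include hm hL in
theorem T_mul_w0 (x : M.Group) : D.T x * D.C (w0 M) = qq (L x) • D.C (w0 M) := by
  induction x using len_induction with
  | h1 => rw [D.T_one, one_mul, L_one hL, qq_zero, one_smul]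
  | hs b w hl ih =>
    rw [← D.T_sm_mul hl, mul_assoc, ih, mul_smul_comm, D.T_mul_C hL (w0_down hm b), smul_smul,
      ← LaurentPolynomial.T_add, L_up hL hl, add_comm]

/-- The ideal spanned by the Kazhdan-Lusztig element of the longest element. -/
noncomputable def It : Submodule LP H := Submodule.span LP {D.C (w0 M)}

theorem mem_It {x : H} : x ∈ It D ↔ ∀ z, z ≠ w0 M → D.C.repr x z = 0 := by
  have h1 : It D = Submodule.span LP (D.C '' {w0 M}) := by
    rw [It, Set.image_singleton]
  rw [h1, Module.Basis.mem_span_image]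
  constructor
  · intro h z hz
    by_contra hne
    exact hz (h (Finsupp.mem_support_iff.2 hne))
  · intro h z hz
    by_contra hne
    exact Finsupp.mem_support_iff.1 hz (h z hne)

theorem C_mem_It : D.C (w0 M) ∈ It D := Submodule.subset_span rfl

include hm hL in
theorem It_mulL (y : H) {x : H} (hx : x ∈ It D) : y * x ∈ It D := by
  obtain ⟨a, rfl⟩ := Submodule.mem_span_singleton.1 hx
  rw [mul_smul_comm]
  refine Submodule.smul_mem _ _ ?_
  rw [← D.T.linearCombination_repr y, Finsupp.linearCombination_apply, Finsupp.sum,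
    Finset.sum_mul]
  refine Submodule.sum_mem _ fun u _ => ?_
  rw [smul_mul_assoc, T_mul_w0 hm hL D]
  exact Submodule.smul_mem _ _ (Submodule.smul_mem _ _ (C_mem_It D))

theorem It_fl {x : H} (hx : x ∈ It D) : D.fl x ∈ It D := by
  obtain ⟨a, rfl⟩ := Submodule.mem_span_singleton.1 hx
  rw [map_smul, D.fl_C, w0_inv]
  exact Submodule.smul_mem _ _ (C_mem_It D)

include hm hL in
theorem It_mulR (y : H) {x : H} (hx : x ∈ It D) : x * y ∈ It D := by
  have h1 : x * y = D.fl (D.fl y * D.fl x) := by rw [D.fl_mul, D.fl_fl, D.fl_fl]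
  rw [h1]
  exact It_fl D (It_mulL hm hL D _ (It_fl D hx))

/-- The ideal is saturated. -/
theorem It_sat {t : LP} (ht : t ≠ 0) {x : H} (hx : t • x ∈ It D) : x ∈ It D := by
  rw [mem_It] at hx ⊢
  intro z hz
  have h1 := hx z hz
  rw [map_smul, Finsupp.smul_apply, smul_eq_mul] at h1
  rcases mul_eq_zero.1 h1 with h | h
  · exact absurd h ht
  · exact h

include hm hL in
theorem h_w0_dle {x y : M.Group} (h : x ≠ w0 M ∨ y ≠ w0 M) :
    Dle (L (w0 M) - 1) (D.h x y (w0 M)) := by
  refine repr_C_of_Lat D ?_ _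
  have hsup : ∀ u v : M.Group, D.T.repr (D.C v) u ≠ 0 → v ≠ w0 M → L u < L (w0 M) := by
    intro u v hu hv
    refine (L_le_w0 hm hL u).2 ?_
    rintro rfl
    by_cases huv : w0 M = v
    · exact hv huv.symm
    · exact hu (D.p_zero (len_le_w0 hm v) huv)
  refine mul_Lat_of D ?_ (C_Lat D x) (C_Lat D y)
  intro u v hu hv
  rcases h with h | h
  · have h1 := hsup u x hu h
    exact Lat_mono _ (by omega) (TT_Lat hL D u v)
  · have h1 := hsup v y hv h
    exact Lat_mono _ (by omega) (TT_Lat' hL D u v)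

include hm hL in
theorem h_w0_lead : Dle (L (w0 M)) (D.h (w0 M) (w0 M) (w0 M)) ∧
    (D.h (w0 M) (w0 M) (w0 M)).coeff (L (w0 M)) = 1 := by
  have h1 : D.C (w0 M) * D.C (w0 M) = (∑ y ∈ (D.T.repr (D.C (w0 M))).support,
      D.p y (w0 M) * qq (L y)) • D.C (w0 M) := by
    conv_lhs =>
      enter [1]
      rw [← D.T.linearCombination_repr (D.C (w0 M))]
    rw [Finsupp.linearCombination_apply, Finsupp.sum, Finset.sum_mul, Finset.sum_smul]
    refine Finset.sum_congr rfl fun y _ => ?_
    rw [smul_mul_assoc, T_mul_w0 hm hL D, smul_smul]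
    rfl
  have h2 : D.h (w0 M) (w0 M) (w0 M) = ∑ y ∈ (D.T.repr (D.C (w0 M))).support,
      qq (L y - L (w0 M) + L y) := by
    rw [KLD.h, h1, map_smul, Finsupp.smul_apply, Module.Basis.repr_self,
      Finsupp.single_eq_same, smul_eq_mul, mul_one]
    refine Finset.sum_congr rfl fun y _ => ?_
    rw [p_w0 hm hL D, ← LaurentPolynomial.T_add]
  rw [h2]
  constructor
  · refine Dle.sum _ fun y _ => (Dle.qq _).mono ?_
    have := (L_le_w0 hm hL y).1
    omega
  · rw [cf_sum, Finset.sum_eq_single (w0 M)]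
    · rw [cf_qq, if_pos (by ring)]
    · intro y _ hy
      have := (L_le_w0 hm hL y).2 hy
      rw [cf_qq, if_neg (by omega)]
    · intro h
      exfalso
      rw [Finsupp.notMem_support_iff] at h
      have h3 := D.p_self (w0 M)
      rw [KLD.p, h] at h3
      exact zero_ne_one h3

include hm hL in
theorem h_ne_of_w0 {x y z : M.Group} (h : D.h x y z ≠ 0) (hx : x = w0 M ∨ y = w0 M) :
    z = w0 M := by
  by_contra hz
  apply h
  rcases hx with rfl | rfl
  · exact (mem_It D).1 (It_mulR hm hL D _ (C_mem_It D)) z hz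
  · exact (mem_It D).1 (It_mulL hm hL D _ (C_mem_It D)) z hz

include hm hL in
theorem a_w0 {N : ℕ} (hN : (N : ℤ) = L (w0 M)) : D.a (w0 M) = N := by
  refine KLD.a_eq (fun x y => ?_) ⟨w0 M, w0 M, ?_⟩
  · by_cases h : x = w0 M ∧ y = w0 M
    · rw [h.1, h.2, hN]
      exact (h_w0_lead hm hL D).1
    · have h1 : x ≠ w0 M ∨ y ≠ w0 M := by
        by_contra hne
        push Not at hne
        exact h hne
      exact (h_w0_dle hm hL D h1).mono (by omega)
  · rw [hN, (h_w0_lead hm hL D).2]
    exact one_ne_zero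

include hm hL in
theorem a_w0' : (D.a (w0 M) : ℤ) = L (w0 M) := by
  have h1 : ((L (w0 M)).toNat : ℤ) = L (w0 M) := Int.toNat_of_nonneg (L_nonneg hL _)
  rw [a_w0 hm hL D h1, h1]

include hm hL in
theorem nn_w0 : D.nn (w0 M) = 1 := by
  rw [KLD.nn, p_w0 hm hL D, L_one hL, zero_sub, a_w0' hm hL D, cf_qq, if_pos rfl]

include hm hL in
theorem g_w0 {x y : M.Group} (h : D.g x y (w0 M) ≠ 0) : x = w0 M ∧ y = w0 M := by
  by_contra hne
  have h1 : x ≠ w0 M ∨ y ≠ w0 M := by
    by_contra h2
    push Not at h2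
    exact hne h2
  apply h
  rw [KLD.g, w0_inv, a_w0' hm hL D]
  exact h_w0_dle hm hL D h1 _ (by omega)

include hm hL in
theorem g_w0_self : D.g (w0 M) (w0 M) (w0 M) = 1 := by
  rw [KLD.g, w0_inv, a_w0' hm hL D]
  exact (h_w0_lead hm hL D).2

include hm in
/-- The elements with a given left descent. -/
theorem down_wd {r : Bool} {y : M.Group} (h : len M (sm M r * y) + 1 = len M y) :
    ∃ n, n + 1 ≤ M false true ∧ y = wd M r (n + 1) := by
  obtain ⟨r', n, hn, rfl⟩ := exists_wd hm y
  cases n with
  | zero =>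
    rw [wd_zero, mul_one, len_one, len_sm] at h
    omega
  | succ n =>
    by_cases hr : r = r'
    · exact ⟨n, hn, by rw [hr]⟩
    · have h1 : r' = !r := by
        rcases r <;> rcases r' <;> first | rfl | exact absurd rfl hr
      by_cases hn' : n + 1 = M false true
      · refine ⟨n, hn, ?_⟩
        rw [hn']
        exact wd_top _ _
      · exfalso
        rw [h1, len_up hm (by omega)] at h
        omega

end w0

end Pool.Agent.Helper35.KL
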